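import Mathlib
import Pool.Agent.PZ871.Defs
set_option autoImplicit false
set_option maxHeartbeats 1000000
namespace Pool.Agent.PZ871.M_gdens
open MeasureTheory Set
open scoped RealInnerProductSpace ENNReal



theorem gd_prod (n : ℕ) (x : Fin n → ℝ) :
    (2 * Real.pi) ^ (-(n:ℝ)/2) * Real.exp (-‖(WithLp.toLp 2 x : E n)‖^2/2) =
      ∏ i, ProbabilityTheory.gaussianPDFReal 0 1 (x i) := by
  rw [EuclideanSpace.real_norm_sq_eq]
  simp only [ProbabilityTheory.gaussianPDFReal_def, Finset.prod_mul_distrib, Finset.prod_const,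
    Finset.card_univ, Fintype.card_fin, sub_zero, NNReal.coe_one, mul_one]
  rw [← Real.exp_sum, ← Finset.sum_div, Finset.sum_neg_distrib]
  congr 1
  have hp : (0:ℝ) ≤ 2 * Real.pi := by positivity
  rw [Real.sqrt_eq_rpow, ← Real.rpow_neg hp, ← Real.rpow_natCast, ← Real.rpow_mul hp]
  congr 1
  ring

theorem gd_pi (n : ℕ) :
    (Measure.pi (fun _ : Fin n => ProbabilityTheory.gaussianReal 0 1)) =
      (volume : Measure (Fin n → ℝ)).withDensity
        (fun x => ENNReal.ofReal (∏ i, ProbabilityTheory.gaussianPDFReal 0 1 (x i))) := by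
  apply Measure.pi_eq
  intro s hs
  rw [withDensity_apply _ (MeasurableSet.univ_pi hs)]
  have hv : (volume : Measure (Fin n → ℝ)) = Measure.pi (fun _ => volume) := rfl
  rw [hv, Measure.restrict_pi_pi]
  rw [← ofReal_integral_eq_lintegral_ofReal]
  · rw [integral_fintype_prod_eq_prod (f := fun _ x => ProbabilityTheory.gaussianPDFReal 0 1 x)]
    rw [ENNReal.ofReal_prod_of_nonneg]
    · apply Finset.prod_congr rfl
      intro i _
      rw [ProbabilityTheory.gaussianReal_apply_eq_integral 0 one_ne_zero]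
    · intro i _
      exact integral_nonneg (fun x => ProbabilityTheory.gaussianPDFReal_nonneg 0 1 x)
  · apply Integrable.fintype_prod (f := fun _ x => ProbabilityTheory.gaussianPDFReal 0 1 x)
    intro i
    exact (ProbabilityTheory.integrable_gaussianPDFReal 0 1).restrict
  · exact Filter.Eventually.of_forall (fun x => Finset.prod_nonneg
      (fun i _ => ProbabilityTheory.gaussianPDFReal_nonneg 0 1 _))

/- TO PROVE -/
theorem gdens (n : ℕ) : gm n = (volume : Measure (E n)).withDensity
    (fun x => ENNReal.ofReal ((2 * Real.pi) ^ (-(n:ℝ)/2) * Real.exp (-‖x‖^2/2))) := by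
  unfold gm
  rw [← ProbabilityTheory.map_pi_eq_stdGaussian, gd_pi]
  have hmeas : Measurable (WithLp.toLp 2 : (Fin n → ℝ) → E n) :=
    (PiLp.volume_preserving_toLp (Fin n)).measurable
  ext s hs
  rw [Measure.map_apply hmeas hs, withDensity_apply _ (hmeas hs), withDensity_apply _ hs]
  rw [← (PiLp.volume_preserving_toLp (Fin n)).setLIntegral_comp_preimage hs (by fun_prop)]
  congr 1
  ext x
  rw [gd_prod]

end Pool.Agent.PZ871.M_gdens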