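import Mathlib
import Pool.Agent.PZ871.Defs
import Pool.Agent.PZ871.Gdens
namespace Pool.Agent.PZ871.M_gint
open Pool.Agent.PZ871.M_gdens (gdens)
open MeasureTheory Set
open scoped RealInnerProductSpace ENNReal
theorem gint (n : ℕ) (f : E n → ℝ) : ∫ x, f x ∂(gm n) =
    (2 * Real.pi) ^ (-(n:ℝ)/2) * ∫ x, Real.exp (-‖x‖^2/2) * f x := by
  rw [gdens, integral_withDensity_eq_integral_toReal_smul (by fun_prop) (Filter.Eventually.of_forall fun x => ENNReal.ofReal_lt_top), ← integral_const_mul]
  refine integral_congr_ae (Filter.Eventually.of_forall fun x => ?_)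
  simp only [smul_eq_mul]
  rw [ENNReal.toReal_ofReal (by positivity)]
  ring
end Pool.Agent.PZ871.M_gint
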