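import Mathlib
import Pool.Agent.PZ871.Defs
import Pool.Agent.PZ871.Gdens
import Pool.Agent.PZ871.Gint
set_option autoImplicit false
set_option maxHeartbeats 1000000
namespace Pool.Agent.PZ871.M_Jpos
open Pool.Agent.PZ871.M_gdens (gdens)
open Pool.Agent.PZ871.M_gint (gint)
open MeasureTheory Set
open scoped RealInnerProductSpace ENNReal







/- TO PROVE -/
theorem Jpos (n : ℕ) (K : Set (E n)) (hK : Body n K) (g : E n) :
    0 < J n K g ∧ J n K 0 ≤ J n K g ∧
      J n K 0 = (2 * Real.pi) ^ ((n:ℝ)/2) * (gm n).real K := by
  have hKm : MeasurableSet K := hK.cpt.isClosed.measurableSet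
  have hcont : ∀ h : E n, Continuous (fun x : E n => w n h x) := by
    intro h
    unfold w
    fun_prop
  have hint : ∀ h : E n, IntegrableOn (fun x : E n => w n h x) K volume := fun h =>
    (hcont h).continuousOn.integrableOn_compact hK.cpt
  have hvol : 0 < volume K := by
    obtain ⟨r, hr, hb⟩ := hK.int
    exact lt_of_lt_of_le (Metric.measure_ball_pos volume 0 hr) (measure_mono hb)
  have hneg : ∀ h : E n, J n K (-h) = J n K h := by
    intro h
    unfold J
    rw [← integral_indicator hKm, ← integral_indicator hKm, ← integral_neg_eq_self]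
    congr 1
    funext x
    by_cases hx : x ∈ K
    · rw [indicator_of_mem (hK.sym x hx), indicator_of_mem hx]
      simp [w]
    · have hx' : -x ∉ K := fun h' => hx (by simpa using hK.sym _ h')
      rw [indicator_of_notMem hx', indicator_of_notMem hx]
  refine ⟨?_, ?_, ?_⟩
  · unfold J
    rw [integral_pos_iff_support_of_nonneg (f := fun x : E n => w n g x) (fun x => (Real.exp_pos _).le) (hint g)]
    have hs : Function.support (fun x : E n => w n g x) = univ := by
      ext x
      simp [w]
      try exact (Real.exp_pos _).ne'
    rw [hs, Measure.restrict_apply_univ]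
    exact hvol
  · have h2 : 2 * J n K 0 ≤ J n K g + J n K (-g) := by
      unfold J
      rw [← integral_const_mul, ← integral_add (hint g) (hint (-g))]
      apply integral_mono ((hint 0).const_mul 2) ((hint g).add (hint (-g)))
      intro x
      simp only [w, inner_neg_right, inner_zero_right, add_zero, Real.exp_add]
      have h3 := Real.add_one_le_exp (inner ℝ x g)
      have h4 := Real.add_one_le_exp (-(inner ℝ x g))
      have h5 := Real.exp_pos (-‖x‖^2/2)
      rw [Pi.add_apply]
      have h6 : Real.exp (-‖x‖^2/2) * Real.exp 0 = Real.exp (-‖x‖^2/2) := by rw [Real.exp_zero, mul_one]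
      have h7 : 2 * Real.exp (-‖x‖^2/2) ≤ Real.exp (-‖x‖^2/2) * Real.exp (inner ℝ x g)
          + Real.exp (-‖x‖^2/2) * Real.exp (-(inner ℝ x g)) := by
        rw [← mul_add]
        nlinarith
      simpa using h7
    rw [hneg] at h2
    linarith
  · have h1 := gint n (K.indicator 1)
    rw [integral_indicator_one hKm] at h1
    have h2 : ∫ x, Real.exp (-‖x‖^2/2) * K.indicator (1 : E n → ℝ) x = J n K 0 := by
      unfold J
      rw [← integral_indicator hKm]
      congr 1
      funext x
      by_cases hx : x ∈ K
      · rw [indicator_of_mem hx, indicator_of_mem hx]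
        simp [w]
      · rw [indicator_of_notMem hx, indicator_of_notMem hx]
        simp
    rw [h2] at h1
    rw [h1, ← mul_assoc, ← Real.rpow_add (by positivity)]
    have h3 : (n:ℝ)/2 + -(n:ℝ)/2 = 0 := by ring
    rw [h3, Real.rpow_zero, one_mul]

end Pool.Agent.PZ871.M_Jpos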