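import Mathlib
import Pool.Agent.PZ871.Defs
import Pool.Agent.PZ871.Jpos
set_option autoImplicit false
set_option maxHeartbeats 1000000
namespace Pool.Agent.PZ871.M_barsm
open Pool.Agent.PZ871.M_Jpos (Jpos)
open MeasureTheory Set
open scoped RealInnerProductSpace ENNReal





/-- auxiliary: tilted integral of a vector valued function -/
noncomputable def pI (n : ℕ) (K : Set (E n)) {F : Type} [NormedAddCommGroup F] [NormedSpace ℝ F]
    (p : E n → F) (g : E n) : F := ∫ x in K, w n g x • p x

/-- auxiliary: the integrand of the derivative -/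
noncomputable def dp (n : ℕ) {F : Type} [NormedAddCommGroup F] [NormedSpace ℝ F]
    (p : E n → F) (x : E n) : E n →L[ℝ] F := (innerSL ℝ x).smulRight (p x)

theorem dp_cont {n : ℕ} {F : Type} [NormedAddCommGroup F] [NormedSpace ℝ F] {p : E n → F}
    (hp : Continuous p) : Continuous (dp n p) := by
  have h1 : Continuous (fun x : E n => ((innerSL ℝ x : E n →L[ℝ] ℝ), p x)) :=
    (innerSL ℝ).continuous.prodMk hp
  exact (isBoundedBilinearMap_smulRight (𝕜 := ℝ) (E := E n) (F := F)).continuous.comp h1

theorem w_cont2 (n : ℕ) : Continuous (fun q : E n × E n => w n q.1 q.2) := by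
  unfold w
  fun_prop

theorem w_cont1 (n : ℕ) (g : E n) : Continuous (fun x : E n => w n g x) := by
  unfold w
  fun_prop

theorem pI_int {n : ℕ} {K : Set (E n)} (hK : IsCompact K) {F : Type} [NormedAddCommGroup F]
    [NormedSpace ℝ F] {p : E n → F} (hp : Continuous p) (g : E n) :
    Integrable (fun x => w n g x • p x) (volume.restrict K) :=
  ((w_cont1 n g).smul hp).continuousOn.integrableOn_compact hK

theorem pI_hasF {n : ℕ} {K : Set (E n)} (hK : IsCompact K) {F : Type} [NormedAddCommGroup F]
    [NormedSpace ℝ F] {p : E n → F} (hp : Continuous p) (g : E n) :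
    HasFDerivAt (pI n K p) (pI n K (dp n p) g) g := by
  have hdp := dp_cont hp
  obtain ⟨M, hM⟩ : ∃ M, ∀ q ∈ (Metric.closedBall g 1 ×ˢ K), ‖w n q.1 q.2 • dp n p q.2‖ ≤ M :=
    ((isCompact_closedBall g 1).prod hK).exists_bound_of_continuousOn
      (((w_cont2 n).smul (hdp.comp continuous_snd)).continuousOn)
  haveI : IsFiniteMeasure (volume.restrict K) :=
    ⟨by rw [Measure.restrict_apply_univ]; exact hK.measure_lt_top⟩
  refine hasFDerivAt_integral_of_dominated_of_fderiv_le (𝕜 := ℝ) (μ := volume.restrict K)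
    (s := Metric.ball g 1) (bound := fun _ => M) (F := fun g x => w n g x • p x)
    (F' := fun g x => w n g x • dp n p x)
    (Metric.ball_mem_nhds g one_pos) ?_ ?_ ?_ ?_ (integrable_const M) ?_
  · exact Filter.Eventually.of_forall fun g' => (pI_int hK hp g').aestronglyMeasurable
  · exact pI_int hK hp g
  · exact (pI_int hK hdp g).aestronglyMeasurable
  · refine ae_restrict_of_forall_mem hK.measurableSet fun x hx g' hg' => ?_
    exact hM (g', x) ⟨Metric.ball_subset_closedBall hg', hx⟩
  · refine ae_restrict_of_forall_mem hK.measurableSet fun x hx g' hg' => ?_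
    have h1 : HasFDerivAt (fun g : E n => -‖x‖ ^ 2 / 2 + inner ℝ x g) (innerSL ℝ x : E n →L[ℝ] ℝ)
        g' := by
      have h2 : HasFDerivAt (fun g : E n => (innerSL ℝ x : E n →L[ℝ] ℝ) g)
        (innerSL ℝ x : E n →L[ℝ] ℝ) g' := (innerSL ℝ x : E n →L[ℝ] ℝ).hasFDerivAt
      exact h2.const_add _
    have h3 := (h1.exp).smul_const (p x)
    have h4 : ((Real.exp (-‖x‖ ^ 2 / 2 + inner ℝ x g') • (innerSL ℝ x : E n →L[ℝ] ℝ)).smulRight
        (p x)) = w n g' x • dp n p x := by
      ext e
      simp [dp, w, smul_smul]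
    rw [h4] at h3
    exact h3

theorem pI_contDiff {n : ℕ} {K : Set (E n)} (hK : IsCompact K) (m : ℕ) :
    ∀ {F : Type} [NormedAddCommGroup F] [NormedSpace ℝ F] {p : E n → F} (_ : Continuous p),
    ContDiff ℝ m (pI n K p) := by
  induction m with
  | zero =>
    intro F _ _ p hp
    rw [Nat.cast_zero, contDiff_zero]
    exact continuous_iff_continuousAt.mpr fun g => (pI_hasF hK hp g).continuousAt
  | succ m ih =>
    intro F _ _ p hp
    rw [Nat.cast_succ, contDiff_succ_iff_hasFDerivAt]
    exact ⟨pI n K (dp n p), ih (dp_cont hp), fun g => pI_hasF hK hp g⟩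

/- TO PROVE -/
theorem barsm (n : ℕ) (K : Set (E n)) (hK : Body n K) :
    ContDiff ℝ 2 (J n K) ∧ ContDiff ℝ 1 (bar n K) ∧
    (∀ g e, HasDerivAt (fun t : ℝ => Real.log (J n K (g + t • e))) (inner ℝ (bar n K g) e) 0) ∧
    (∀ g e e', inner ℝ (fderiv ℝ (bar n K) g e) e' =
      (J n K g)⁻¹ * (∫ x in K, w n g x * (inner ℝ x e * inner ℝ x e')) -
        inner ℝ (bar n K g) e * inner ℝ (bar n K g) e') := by
  have hc := hK.cpt
  have hJeq : J n K = pI n K (fun _ => (1:ℝ)) := by
    funext g
    simp [J, pI]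
  have hJpos : ∀ g, 0 < J n K g := fun g => (Jpos n K hK g).1
  have hbareq : bar n K = fun g => (J n K g)⁻¹ • pI n K (fun x => x) g := rfl
  have hJ2 : ContDiff ℝ 2 (J n K) := by
    rw [hJeq]
    exact_mod_cast pI_contDiff hc 2 continuous_const
  have hJ1 : ContDiff ℝ 1 (J n K) := hJ2.of_le (by norm_num)
  have hV1 : ContDiff ℝ 1 (pI n K (fun x : E n => x)) := by
    exact_mod_cast pI_contDiff hc 1 continuous_id
  have hJ' : ∀ g, HasFDerivAt (J n K) (pI n K (dp n (fun _ => (1:ℝ))) g) g := by
    intro g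
    rw [hJeq]
    exact pI_hasF hc continuous_const g
  have hJ'e : ∀ g e, (pI n K (dp n (fun _ => (1:ℝ))) g) e
      = inner ℝ (pI n K (fun x : E n => x) g) e := by
    intro g e
    unfold pI
    rw [ContinuousLinearMap.integral_apply (pI_int hc (dp_cont continuous_const) g),
      real_inner_comm, ← integral_inner (pI_int (p := fun x : E n => x) hc continuous_id g)]
    refine integral_congr_ae (Filter.Eventually.of_forall fun x => ?_)
    simp [dp, inner_smul_right, real_inner_comm]
  have hV' : ∀ g, HasFDerivAt (pI n K (fun x : E n => x)) (pI n K (dp n (fun x : E n => x)) g) g :=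
    fun g => pI_hasF hc continuous_id g
  have hV'e : ∀ g e e', inner ℝ ((pI n K (dp n (fun x : E n => x)) g) e) e'
      = ∫ x in K, w n g x * (inner ℝ x e * inner ℝ x e') := by
    intro g e e'
    unfold pI
    rw [ContinuousLinearMap.integral_apply (pI_int hc (dp_cont (p := fun x : E n => x) continuous_id) g),
      real_inner_comm, ← integral_inner]
    · refine integral_congr_ae (Filter.Eventually.of_forall fun x => ?_)
      simp [dp, inner_smul_right, real_inner_comm]
    · exact ((ContinuousLinearMap.apply ℝ (E n) e).integrable_comp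
        (pI_int hc (dp_cont (p := fun x : E n => x) continuous_id) g))
  refine ⟨hJ2, ?_, ?_, ?_⟩
  · rw [hbareq]
    exact (hJ1.inv fun g => (hJpos g).ne').smul hV1
  · intro g e
    have h1 : HasDerivAt (fun t : ℝ => g + t • e) e 0 := by
      have h2 : HasDerivAt (fun t : ℝ => t • e) ((1:ℝ) • e) 0 := (hasDerivAt_id (0:ℝ)).smul_const e
      rw [one_smul] at h2
      exact h2.const_add g
    have h3 : HasFDerivAt (J n K) (pI n K (dp n (fun _ => (1:ℝ))) g) (g + (0:ℝ) • e) := by
      rw [zero_smul, add_zero]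
      exact hJ' g
    have h4 := h3.comp_hasDerivAt (0:ℝ) h1
    have h5 : (J n K ∘ fun t : ℝ => g + t • e) 0 ≠ 0 := (hJpos _).ne'
    have h6 := h4.log h5
    have h7 : (pI n K (dp n (fun _ => (1:ℝ))) g) e / (J n K ∘ fun t : ℝ => g + t • e) 0
        = inner ℝ (bar n K g) e := by
      rw [hJ'e, hbareq]
      simp only [Function.comp_apply, zero_smul, add_zero]
      rw [real_inner_smul_left, div_eq_inv_mul]
    rw [h7] at h6
    exact h6
  · intro g e e'
    have h1 : HasFDerivAt (fun g => (J n K g)⁻¹)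
        ((-((J n K g) ^ 2)⁻¹) • (pI n K (dp n (fun _ => (1:ℝ))) g)) g :=
      (hasDerivAt_inv (hJpos g).ne').comp_hasFDerivAt g (hJ' g)
    have h2 := h1.smul (hV' g)
    have h3 : fderiv ℝ (bar n K) g = (J n K g)⁻¹ • (pI n K (dp n (fun x : E n => x)) g) +
        ((-((J n K g) ^ 2)⁻¹) • (pI n K (dp n (fun _ => (1:ℝ))) g)).smulRight
          (pI n K (fun x : E n => x) g) := by
      rw [hbareq]
      exact h2.fderiv
    rw [h3, hbareq]
    simp only [ContinuousLinearMap.add_apply, ContinuousLinearMap.smul_apply,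
      ContinuousLinearMap.smulRight_apply, inner_add_left, real_inner_smul_left, hV'e, hJ'e,
      smul_eq_mul]
    have hne := (hJpos g).ne'
    field_simp
    ring

end Pool.Agent.PZ871.M_barsm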