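import Mathlib
import Pool.Agent.PZ871.Defs
import Pool.Agent.PZ871.Pl
set_option autoImplicit false
set_option maxHeartbeats 1000000
namespace Pool.Agent.PZ871.M_Jmid
open Pool.Agent.PZ871.M_pl (pl)
open MeasureTheory Set
open scoped RealInnerProductSpace ENNReal






theorem w_cont (n : ℕ) (g : E n) : Continuous (w n g) := by
  unfold w
  fun_prop

theorem w_exp (n : ℕ) (g h x y : E n) :
    -‖x‖^2/2 + inner ℝ x g + (-‖y‖^2/2 + inner ℝ y h) ≤
      2 * (-‖(1/2:ℝ) • (x + y)‖^2/2 + inner ℝ ((1/2:ℝ) • (x + y)) ((1/2:ℝ) • (g + h)) +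
        ‖g - h‖^2/8) := by
  have key : 0 ≤ ‖(x - y) - (g - h)‖^2 := sq_nonneg _
  rw [norm_sub_sq_real (x - y) (g - h), norm_sub_sq_real x y] at key
  have h1 : ‖(1/2:ℝ) • (x + y)‖^2 = (1/4) * (‖x‖^2 + 2 * inner ℝ x y + ‖y‖^2) := by
    rw [norm_smul, mul_pow, norm_add_sq_real]
    norm_num
  have h2 : inner ℝ ((1/2:ℝ) • (x + y)) ((1/2:ℝ) • (g + h)) =
      (1/4) * (inner ℝ x g + inner ℝ x h + inner ℝ y g + inner ℝ y h : ℝ) := by
    rw [real_inner_smul_left, real_inner_smul_right, inner_add_left, inner_add_right,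
      inner_add_right]
    ring
  have h3 : inner ℝ (x - y) (g - h) =
      (inner ℝ x g - inner ℝ x h - (inner ℝ y g - inner ℝ y h) : ℝ) := by
    rw [inner_sub_left, inner_sub_right, inner_sub_right]
  rw [h3] at key
  rw [h1, h2]
  linarith

theorem J_of (n : ℕ) (K : Set (E n)) (hK : Body n K) (g : E n) :
    ENNReal.ofReal (J n K g) = ∫⁻ x, K.indicator (fun x => ENNReal.ofReal (w n g x)) x := by
  rw [lintegral_indicator hK.cpt.measurableSet]
  exact ofReal_integral_eq_lintegral_ofReal
    ((w_cont n g).continuousOn.integrableOn_compact hK.cpt)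
    (Filter.Eventually.of_forall (fun x => (Real.exp_pos _).le))

/- TO PROVE -/
theorem Jmid (n : ℕ) (K : Set (E n)) (hK : Body n K) (g h : E n) :
    J n K g * J n K h ≤ J n K ((1/2:ℝ) • (g + h)) ^ 2 * Real.exp (‖g - h‖^2/4) := by
  have hmeas : ∀ g : E n, Measurable (K.indicator (fun x => ENNReal.ofReal (w n g x))) :=
    fun g => (ENNReal.measurable_ofReal.comp (w_cont n g).measurable).indicator
      hK.cpt.measurableSet
  have hJ0 : ∀ g, 0 ≤ J n K g := fun g => integral_nonneg (fun x => (Real.exp_pos _).le)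
  set c : ℝ := Real.exp (‖g - h‖^2/8) with hc
  have hc0 : 0 < c := Real.exp_pos _
  have := pl n _ _ (fun x => ENNReal.ofReal c *
      K.indicator (fun x => ENNReal.ofReal (w n ((1/2:ℝ) • (g + h)) x)) x)
    (hmeas g) (hmeas h) ((hmeas _).const_mul _) (by
      intro x y
      by_cases hx : x ∈ K
      · by_cases hy : y ∈ K
        · have hz : (1/2:ℝ) • (x + y) ∈ K := by
            rw [smul_add]
            exact hK.cvx hx hy (by norm_num) (by norm_num) (by norm_num)
          rw [indicator_of_mem hx, indicator_of_mem hy, indicator_of_mem hz,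
            ← ENNReal.ofReal_mul (show 0 ≤ w n g x from (Real.exp_pos _).le), ← ENNReal.ofReal_mul hc0.le,
            ← ENNReal.ofReal_pow (show 0 ≤ c * w n ((1/2:ℝ) • (g + h)) ((1/2:ℝ) • (x + y)) from
              mul_nonneg hc0.le (Real.exp_pos _).le)]
          refine ENNReal.ofReal_le_ofReal ?_
          unfold w
          rw [hc, ← Real.exp_add, ← Real.exp_add, ← Real.exp_nat_mul]
          refine Real.exp_le_exp.2 ?_
          have := w_exp n g h x y
          push_cast
          linarith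
        · rw [indicator_of_notMem hy, mul_zero]; exact zero_le
      · rw [indicator_of_notMem hx, zero_mul]; exact zero_le)
  rw [lintegral_const_mul _ (hmeas _), ← J_of n K hK, ← J_of n K hK, ← J_of n K hK,
    ← ENNReal.ofReal_mul (hJ0 g), ← ENNReal.ofReal_mul hc0.le,
    ← ENNReal.ofReal_pow (mul_nonneg hc0.le (hJ0 _)),
    ENNReal.ofReal_le_ofReal_iff (by positivity)] at this
  have hcc : c ^ 2 = Real.exp (‖g - h‖^2/4) := by
    rw [hc, ← Real.exp_nat_mul]
    congr 1
    push_cast
    ring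
  rw [mul_pow, hcc] at this
  linarith

end Pool.Agent.PZ871.M_Jmid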