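import Mathlib
import Pool.Agent.PZ871.Defs
import Pool.Agent.PZ871.Jpos
import Pool.Agent.PZ871.Jmid
import Pool.Agent.PZ871.Barsm
set_option autoImplicit false
set_option maxHeartbeats 1000000
namespace Pool.Agent.PZ871.M_dat
open Pool.Agent.PZ871.M_Jpos (Jpos)
open Pool.Agent.PZ871.M_Jmid (Jmid)
open Pool.Agent.PZ871.M_barsm (barsm)
open MeasureTheory Set
open scoped RealInnerProductSpace ENNReal









theorem wcont (n : ℕ) (g : E n) : Continuous (w n g) := by
  unfold w
  fun_prop

theorem wpos (n : ℕ) (g x : E n) : 0 < w n g x := Real.exp_pos _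

theorem inner_bar35159 (n : ℕ) (K : Set (E n)) (hK : Body n K) (g x : E n) :
    inner ℝ (bar n K g) x = (J n K g)⁻¹ * ∫ y in K, w n g y * inner ℝ y x := by
  unfold bar
  rw [real_inner_smul_left, real_inner_comm]
  congr 1
  have hint : Integrable (fun y => w n g y • y) (volume.restrict K) := by
    have hc : Continuous (fun y => w n g y • y) := (wcont n g).smul continuous_id
    exact hc.continuousOn.integrableOn_compact hK.cpt
  rw [← integral_inner hint x]
  apply integral_congr_ae
  apply Filter.Eventually.of_forall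
  intro y
  show inner ℝ x (w n g y • y) = w n g y * inner ℝ y x
  rw [real_inner_smul_right, real_inner_comm]

theorem pos35159 (n : ℕ) (K : Set (E n)) (hK : Body n K) (g x : E n) (hx : x ≠ 0) :
    0 < (J n K g)⁻¹ * (∫ y in K, w n g y * (inner ℝ y x * inner ℝ y x)) -
        inner ℝ (bar n K g) x * inner ℝ (bar n K g) x := by
  have hJ : 0 < J n K g := (Jpos n K hK g).1
  have hm := inner_bar35159 n K hK g x
  set m := inner ℝ (bar n K g) x with hmdef
  have hi0 : IntegrableOn (fun y => w n g y) K := (wcont n g).continuousOn.integrableOn_compact hK.cpt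
  have hi1 : IntegrableOn (fun y => w n g y * inner ℝ y x) K := by
    have hc : Continuous (fun y : E n => w n g y * inner ℝ y x) := by
      have := wcont n g
      fun_prop
    exact hc.continuousOn.integrableOn_compact hK.cpt
  have hi2 : IntegrableOn (fun y => w n g y * (inner ℝ y x * inner ℝ y x)) K := by
    have hc : Continuous (fun y : E n => w n g y * (inner ℝ y x * inner ℝ y x)) := by
      have := wcont n g
      fun_prop
    exact hc.continuousOn.integrableOn_compact hK.cpt
  have hi3 : IntegrableOn (fun y => w n g y * (inner ℝ y x - m)^2) K := by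
    have hc : Continuous (fun y : E n => w n g y * (inner ℝ y x - m)^2) := by
      have := wcont n g
      fun_prop
    exact hc.continuousOn.integrableOn_compact hK.cpt
  have hexp : ∫ y in K, w n g y * (inner ℝ y x - m)^2 =
      (∫ y in K, w n g y * (inner ℝ y x * inner ℝ y x)) - 2 * m * (∫ y in K, w n g y * inner ℝ y x)
        + m^2 * J n K g := by
    have e : (fun y => w n g y * (inner ℝ y x - m)^2) = fun y =>
        (w n g y * (inner ℝ y x * inner ℝ y x) - 2 * m * (w n g y * inner ℝ y x)) + m^2 * w n g y := by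
      funext y; ring
    have hs1 : IntegrableOn (fun y => w n g y * (inner ℝ y x * inner ℝ y x) -
        2 * m * (w n g y * inner ℝ y x)) K := hi2.sub (hi1.const_mul (2 * m))
    have hs2 : IntegrableOn (fun y => 2 * m * (w n g y * inner ℝ y x)) K := hi1.const_mul (2 * m)
    have hs3 : IntegrableOn (fun y => m^2 * w n g y) K := hi0.const_mul (m^2)
    rw [e, integral_add hs1 hs3, integral_sub hi2 hs2, integral_const_mul, integral_const_mul]
    rfl
  have hm' : ∫ y in K, w n g y * inner ℝ y x = m * J n K g := by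
    rw [hm]; field_simp
  have hpos : 0 < ∫ y in K, w n g y * (inner ℝ y x - m)^2 := by
    rw [setIntegral_pos_iff_support_of_nonneg_ae
      (Filter.Eventually.of_forall (fun y => mul_nonneg (wpos n g y).le (sq_nonneg _))) hi3]
    obtain ⟨r, hr, hball⟩ := hK.int
    have hopen : IsOpen (Metric.ball (0 : E n) r ∩ {y | inner ℝ y x ≠ m}) := by
      apply Metric.isOpen_ball.inter
      exact isOpen_ne_fun (by fun_prop) continuous_const
    have hne : (Metric.ball (0 : E n) r ∩ {y | inner ℝ y x ≠ m}).Nonempty := by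
      have hxn : 0 < ‖x‖ := norm_pos_iff.mpr hx
      by_cases h0 : m = 0
      · refine ⟨(r / (2 * ‖x‖)) • x, ?_, ?_⟩
        · rw [mem_ball_zero_iff, norm_smul, Real.norm_of_nonneg (by positivity)]
          rw [div_mul_eq_mul_div, div_lt_iff₀ (by positivity)]
          nlinarith
        · show inner ℝ ((r / (2 * ‖x‖)) • x) x ≠ m
          rw [h0, real_inner_smul_left, real_inner_self_eq_norm_sq]
          positivity
      · refine ⟨0, by simpa using hr, ?_⟩
        show inner ℝ (0 : E n) x ≠ m
        rw [inner_zero_left]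
        exact fun h => h0 h.symm
    refine lt_of_lt_of_le (hopen.measure_pos volume hne) (measure_mono ?_)
    rintro y ⟨hy1, hy2⟩
    refine ⟨?_, hball hy1⟩
    show w n g y * (inner ℝ y x - m)^2 ≠ 0
    have : inner ℝ y x - m ≠ 0 := sub_ne_zero.mpr hy2
    have := wpos n g y
    positivity
  rw [hexp, hm'] at hpos
  have h1 : (J n K g)⁻¹ * (∫ y in K, w n g y * (inner ℝ y x * inner ℝ y x)) - m * m =
      (J n K g)⁻¹ * ((∫ y in K, w n g y * (inner ℝ y x * inner ℝ y x)) - 2 * m * (m * J n K g)
        + m^2 * J n K g) := by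
    field_simp
    ring
  rw [h1]
  positivity

theorem le35159 (n : ℕ) (K : Set (E n)) (hK : Body n K) (g x : E n) :
    inner ℝ (fderiv ℝ (bar n K) g x) x ≤ ‖x‖^2 := by
  obtain ⟨-, hb, hlog, -⟩ := barsm n K hK
  -- first derivative of `log J` along the line
  have hφ : ∀ s : ℝ, HasDerivAt (fun t : ℝ => Real.log (J n K (g + t • x)))
      (inner ℝ (bar n K (g + s • x)) x) s := by
    intro s
    have h1 := hlog (g + s • x) x
    have h2 : HasDerivAt (fun t : ℝ => t - s) 1 s := (hasDerivAt_id s).sub_const s
    have h1' : HasDerivAt (fun t : ℝ => Real.log (J n K (g + s • x + t • x)))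
      (inner ℝ (bar n K (g + s • x)) x) (s - s) := by rw [sub_self]; exact h1
    have h3 := HasDerivAt.comp (h := fun t : ℝ => t - s) s h1' h2
    rw [mul_one] at h3
    refine h3.congr_of_eventuallyEq (Filter.Eventually.of_forall (fun t => ?_))
    show Real.log (J n K (g + t • x)) = Real.log (J n K (g + s • x + (t - s) • x))
    congr 2
    rw [sub_smul]; abel
  have hφ' : ∀ s : ℝ, HasDerivAt (fun t : ℝ => Real.log (J n K (g + (-t) • x)))
      (-(inner ℝ (bar n K (g + (-s) • x)) x)) s := by
    intro s
    have h3 := HasDerivAt.comp s (hφ (-s)) (hasDerivAt_neg s)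
    rw [mul_neg_one] at h3
    exact h3
  set F : ℝ → ℝ := fun s => s^2 * ‖x‖^2 + 2 * Real.log (J n K g) -
    Real.log (J n K (g + s • x)) - Real.log (J n K (g + (-s) • x)) with hF
  have hF1 : ∀ s, HasDerivAt F (2 * s * ‖x‖^2 - inner ℝ (bar n K (g + s • x)) x
      + inner ℝ (bar n K (g + (-s) • x)) x) s := by
    intro s
    have h1 : HasDerivAt (fun s : ℝ => s^2 * ‖x‖^2 + 2 * Real.log (J n K g)) (2 * s * ‖x‖^2) s := by
      have := ((hasDerivAt_pow 2 s).mul_const (‖x‖^2)).add_const (2 * Real.log (J n K g))
      simpa using this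
    have h2 := (h1.sub (hφ s)).sub (hφ' s)
    rw [sub_neg_eq_add] at h2
    exact h2
  have hdF : deriv F = fun s => 2 * s * ‖x‖^2 - inner ℝ (bar n K (g + s • x)) x
      + inner ℝ (bar n K (g + (-s) • x)) x := funext (fun s => (hF1 s).deriv)
  have hbd : HasFDerivAt (bar n K) (fderiv ℝ (bar n K) g) g :=
    (hb.differentiable (by norm_num)).differentiableAt.hasFDerivAt
  have hline : ∀ e : E n, HasDerivAt (fun s : ℝ => inner ℝ (bar n K (g + s • e)) x)
      (inner ℝ (fderiv ℝ (bar n K) g e) x) 0 := by
    intro e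
    have h1 : HasDerivAt (fun s : ℝ => g + s • e) e 0 := by
      have := ((hasDerivAt_id (0:ℝ)).smul_const e).const_add g
      simpa using this
    have h2 : HasFDerivAt (bar n K) (fderiv ℝ (bar n K) g) (g + (0:ℝ) • e) := by
      rw [zero_smul, add_zero]; exact hbd
    have h3 : HasDerivAt (fun s : ℝ => bar n K (g + s • e)) (fderiv ℝ (bar n K) g e) 0 := by
      have := HasFDerivAt.comp_hasDerivAt (f := fun s : ℝ => g + s • e) (0:ℝ) h2 h1
      exact this
    have h4 := h3.inner ℝ (hasDerivAt_const (0:ℝ) x)
    simpa using h4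
  have hF2 : HasDerivAt (deriv F) (2 * ‖x‖^2 - 2 * inner ℝ (fderiv ℝ (bar n K) g x) x) 0 := by
    rw [hdF]
    have h1 : HasDerivAt (fun s : ℝ => 2 * s * ‖x‖^2) (2 * ‖x‖^2) 0 := by
      have := ((hasDerivAt_id (0:ℝ)).const_mul 2).mul_const (‖x‖^2)
      simpa using this
    have h2 := hline (-x)
    have h3 : (fun s : ℝ => inner ℝ (bar n K (g + s • (-x))) x) =
        fun s : ℝ => inner ℝ (bar n K (g + (-s) • x)) x := by
      funext s; rw [smul_neg, neg_smul]
    rw [h3, map_neg, inner_neg_left] at h2
    have h4 := (h1.sub (hline x)).add h2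
    have e : 2 * ‖x‖^2 - 2 * inner ℝ (fderiv ℝ (bar n K) g x) x =
      2 * ‖x‖^2 - inner ℝ (fderiv ℝ (bar n K) g x) x + -(inner ℝ (fderiv ℝ (bar n K) g x) x) := by ring
    rw [e]
    exact h4
  have hF0 : F 0 = 0 := by
    simp only [hF]
    simp
    ring
  have hFnn : ∀ s, 0 ≤ F s := by
    intro s
    have hj := Jmid n K hK (g + s • x) (g + (-s) • x)
    have e1 : (1/2:ℝ) • ((g + s • x) + (g + (-s) • x)) = g := by
      rw [neg_smul]
      have : (g + s • x) + (g + -(s • x)) = (2:ℝ) • g := by rw [two_smul]; abel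
      rw [this, smul_smul]; norm_num
    have e2 : ‖(g + s • x) - (g + (-s) • x)‖^2 / 4 = s^2 * ‖x‖^2 := by
      have : (g + s • x) - (g + (-s) • x) = (2 * s) • x := by
        rw [neg_smul, mul_smul, two_smul]; abel
      rw [this, norm_smul, mul_pow, Real.norm_eq_abs, sq_abs]; ring
    rw [e1, e2] at hj
    have p1 := (Jpos n K hK (g + s • x)).1
    have p2 := (Jpos n K hK (g + (-s) • x)).1
    have p0 := (Jpos n K hK g).1
    have hl := Real.log_le_log (mul_pos p1 p2) hj
    rw [Real.log_mul p1.ne' p2.ne', Real.log_mul (by positivity) (Real.exp_pos _).ne', Real.log_exp,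
      Real.log_pow] at hl
    simp only [hF]
    push_cast at hl
    linarith
  by_contra hcon
  push Not at hcon
  have hneg : deriv (deriv F) 0 < 0 := by
    rw [hF2.deriv]; linarith
  have hd0 : deriv F 0 = 0 := by
    rw [hdF]; simp
  have hmax := isLocalMax_of_deriv_deriv_neg hneg hd0 (hF1 0).continuousAt
  have hev : F =ᶠ[nhds 0] fun _ => 0 := by
    filter_upwards [hmax] with s hs
    rw [hF0] at hs
    exact le_antisymm hs (hFnn s)
  have hev2 := hev.deriv
  have h0 : deriv (deriv F) 0 = 0 := by
    rw [hev2.deriv_eq]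
    simp
  linarith

theorem odd_int35159 {F : Type*} [NormedAddCommGroup F] [NormedSpace ℝ F] (n : ℕ) (K : Set (E n))
    (hK : Body n K) (f : E n → F) : ∫ x in K, f (-x) = ∫ x in K, f x := by
  have hm := hK.cpt.measurableSet
  rw [← integral_indicator hm, ← integral_indicator hm, ← integral_neg_eq_self (K.indicator f) volume]
  congr 1
  funext x
  have hiff : x ∈ K ↔ -x ∈ K := ⟨fun h => hK.sym x h, fun h => by simpa using hK.sym _ h⟩
  by_cases hx : x ∈ K
  · rw [Set.indicator_of_mem hx, Set.indicator_of_mem (hiff.mp hx)]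
  · rw [Set.indicator_of_notMem hx, Set.indicator_of_notMem (fun h => hx (hiff.mpr h))]

theorem odd35159 (n : ℕ) (K : Set (E n)) (hK : Body n K) (g : E n) :
    bar n K (-g) = - bar n K g := by
  have hw : ∀ x, w n (-g) x = w n g (-x) := by
    intro x
    unfold w
    rw [norm_neg, inner_neg_right, inner_neg_left]
  have h1 : J n K (-g) = J n K g := by
    unfold J
    rw [← odd_int35159 n K hK (w n g)]
    simp only [hw]
  have h2 : ∫ x in K, w n (-g) x • x = - ∫ x in K, w n g x • x := by
    rw [← odd_int35159 n K hK (fun x => w n g x • x), ← integral_neg]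
    apply integral_congr_ae
    apply Filter.Eventually.of_forall
    intro x
    show w n (-g) x • x = -(w n g (-x) • (-x))
    rw [hw, smul_neg, neg_neg]
  unfold bar
  rw [h1, h2, smul_neg]

theorem mem35159 (n : ℕ) (K : Set (E n)) (hK : Body n K) (g : E n) : bar n K g ∈ K := by
  by_contra hcon
  obtain ⟨f, u, hf1, hf2⟩ := geometric_hahn_banach_closed_point hK.cvx hK.cpt.isClosed hcon
  have hJ : 0 < J n K g := (Jpos n K hK g).1
  have hint : Integrable (fun y => w n g y • y) (volume.restrict K) := by
    have hc : Continuous (fun y => w n g y • y) := (wcont n g).smul continuous_id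
    exact hc.continuousOn.integrableOn_compact hK.cpt
  have hi0 : IntegrableOn (fun y => w n g y) K := (wcont n g).continuousOn.integrableOn_compact hK.cpt
  have h1 : f (bar n K g) = (J n K g)⁻¹ * ∫ y in K, w n g y * f y := by
    unfold bar
    rw [map_smul, smul_eq_mul, ← ContinuousLinearMap.integral_comp_comm f hint]
    congr 2
    funext y
    rw [map_smul, smul_eq_mul]
  have h2 : ∫ y in K, w n g y * f y ≤ ∫ y in K, w n g y * u := by
    apply setIntegral_mono_on _ (hi0.mul_const u) hK.cpt.measurableSet
    · intro y hy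
      exact mul_le_mul_of_nonneg_left (hf1 y hy).le (wpos n g y).le
    · have hc : Continuous (fun y => w n g y * f y) := (wcont n g).mul f.continuous
      exact hc.continuousOn.integrableOn_compact hK.cpt
  rw [integral_mul_const] at h2
  have h3 : f (bar n K g) ≤ u := by
    rw [h1, inv_mul_le_iff₀ hJ]
    exact h2
  linarith

/- TO PROVE -/
theorem dat (n : ℕ) (K : Set (E n)) (hK : Body n K) : Dat n K (bar n K) := by
  obtain ⟨h1, h2, h3, h4⟩ := barsm n K hK
  refine ⟨h2, ?_, ?_, fun g x => le35159 n K hK g x, fun g => odd35159 n K hK g,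
    fun g => mem35159 n K hK g⟩
  · intro g x y
    rw [real_inner_comm (fderiv ℝ (bar n K) g y) x, h4, h4]
    congr 1
    · congr 1
      apply integral_congr_ae
      apply Filter.Eventually.of_forall
      intro z
      show w n g z * (inner ℝ z x * inner ℝ z y) = w n g z * (inner ℝ z y * inner ℝ z x)
      ring
    · ring
  · intro g x hx
    rw [h4]
    exact pos35159 n K hK g x hx

end Pool.Agent.PZ871.M_dat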