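import Mathlib
import Pool.Agent.PZ871.Defs
set_option autoImplicit false
set_option maxHeartbeats 1000000
namespace Pool.Agent.PZ871.M_lin1
open MeasureTheory Set
open scoped RealInnerProductSpace ENNReal



/- TO PROVE -/
/-- a positive semidefinite contraction satisfies `|A e|^2 ≤ ⟨A e, e⟩` -/
theorem lin1 (n : ℕ) (A : E n →L[ℝ] E n) (hs : ∀ x y, inner ℝ (A x) y = inner ℝ x (A y))
    (h0 : ∀ x, 0 ≤ inner ℝ (A x) x) (h1 : ∀ x, inner ℝ (A x) x ≤ ‖x‖^2) :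
    (∀ x, ‖A x‖^2 ≤ inner ℝ (A x) x) ∧ ‖A‖ ≤ 1 := by
  have key : ∀ x, ‖A x‖^2 ≤ inner ℝ (A x) x := by
    intro x
    have h2 := h0 (x - A x)
    rw [map_sub, inner_sub_left, inner_sub_right, inner_sub_right] at h2
    have h3 := h1 (A x)
    have h4 : inner ℝ (A (A x)) x = inner ℝ (A x) (A x) := hs (A x) x
    have h5 : inner ℝ (A x) (A x) = ‖A x‖^2 := real_inner_self_eq_norm_sq (A x)
    rw [h4, h5] at h2
    linarith
  refine ⟨key, ContinuousLinearMap.opNorm_le_bound _ zero_le_one ?_⟩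
  intro x
  rw [one_mul]
  have h6 : ‖A x‖^2 ≤ ‖x‖^2 := (key x).trans (h1 x)
  exact (pow_le_pow_iff_left₀ (norm_nonneg _) (norm_nonneg _) two_ne_zero).1 h6

end Pool.Agent.PZ871.M_lin1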