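import Mathlib
import Pool.Agent.PZ871.Defs
set_option autoImplicit false
set_option maxHeartbeats 1000000
namespace Pool.Agent.PZ871.M_gsq
open MeasureTheory Set
open scoped RealInnerProductSpace ENNReal



/- TO PROVE -/
theorem gsq (n : ℕ) : Integrable (fun x : E n => ‖x‖^2) (gm n) ∧ ∫ x, ‖x‖^2 ∂(gm n) = n := by
  have hm : MemLp (fun x : E n => x) 2 (gm n) := by
    unfold gm
    exact ProbabilityTheory.IsGaussian.memLp_two_id
  have hi : Integrable (fun x : E n => ‖x‖^2) (gm n) := hm.norm.integrable_sq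
  refine ⟨hi, ?_⟩
  have hL : ∀ L : StrongDual ℝ (E n), Integrable (fun x => (L x) ^ 2) (gm n) ∧
      ∫ x, (L x) ^ 2 ∂(gm n) = ‖L‖ ^ 2 := by
    intro L
    have h1 : MemLp (fun x : E n => L x) 2 (gm n) := L.comp_memLp' hm
    refine ⟨h1.integrable_sq, ?_⟩
    have h2 := ProbabilityTheory.variance_dual_stdGaussian (E := E n) L
    rw [ProbabilityTheory.variance_of_integral_eq_zero L.continuous.aemeasurable
      (ProbabilityTheory.integral_strongDual_stdGaussian L)] at h2
    exact h2
  have hc : ∀ i : Fin n, Integrable (fun x : E n => (x i) ^ 2) (gm n) ∧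
      ∫ x : E n, (x i) ^ 2 ∂(gm n) = 1 := by
    intro i
    have h := hL (innerSL ℝ (EuclideanSpace.single i (1 : ℝ)))
    have h1 : ∀ x : E n, (innerSL ℝ (EuclideanSpace.single i (1 : ℝ)) : StrongDual ℝ (E n)) x = x i := by
      intro x
      rw [innerSL_apply_apply, EuclideanSpace.inner_single_left]
      simp
    simp only [h1] at h
    rw [innerSL_apply_norm] at h
    simpa using h
  have hs : ∀ x : E n, ‖x‖ ^ 2 = ∑ i : Fin n, (x i) ^ 2 := by
    intro x
    rw [EuclideanSpace.norm_sq_eq]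
    simp
  simp only [hs]
  rw [integral_finsetSum _ fun i _ => (hc i).1]
  simp [hc]

end Pool.Agent.PZ871.M_gsq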