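import Mathlib
import Pool.Agent.PZ871.Defs
import Pool.Agent.PZ871.Gint
set_option autoImplicit false
set_option maxHeartbeats 1000000
namespace Pool.Agent.PZ871.M_stein
open Pool.Agent.PZ871.M_gint (gint)
open MeasureTheory Set
open scoped RealInnerProductSpace ENNReal





theorem stein_int0 (n : ℕ) : Integrable (fun x : E n => Real.exp (-(1/4) * ‖x‖^2)) := by
  have h := GaussianFourier.integrable_cexp_neg_mul_sq_norm_add (V := E n) (b := ((1/4 : ℝ) : ℂ))
    (by norm_num) 0 0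
  have h2 := h.norm
  refine h2.congr (Filter.Eventually.of_forall fun x => ?_)
  simp only
  rw [Complex.norm_exp]
  congr 1
  have : (-((1/4 : ℝ) : ℂ) * (‖x‖ : ℂ) ^ 2 + 0 * ((inner ℝ (0 : E n) x : ℝ) : ℂ)) =
      ((-(1/4) * ‖x‖^2 : ℝ) : ℂ) := by
    push_cast
    ring
  rw [this, Complex.ofReal_re]

theorem stein_int (n : ℕ) (h : E n → ℝ) (hm : Continuous h) (A B : ℝ)
    (hb : ∀ x, |h x| ≤ A + B * ‖x‖ ^ 2) :
    Integrable (fun x : E n => Real.exp (-‖x‖^2/2) * h x) := by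
  have h0 := (stein_int0 n).const_mul (|A| + 4 * |B|)
  refine h0.mono' ?_ (Filter.Eventually.of_forall fun x => ?_)
  · have : Continuous (fun x : E n => Real.exp (-‖x‖^2/2) * h x) := by fun_prop
    exact this.aestronglyMeasurable
  · rw [Real.norm_eq_abs, abs_mul, abs_of_pos (Real.exp_pos _)]
    have e1 : Real.exp (-‖x‖^2/2) = Real.exp (-(1/4) * ‖x‖^2) * Real.exp (-(1/4) * ‖x‖^2) := by
      rw [← Real.exp_add]
      congr 1
      ring
    have h1 := hb x
    have h2 : Real.exp (-(1/4) * ‖x‖^2) * |h x| ≤ |A| + 4 * |B| := by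
      have h3 : Real.exp (-(1/4) * ‖x‖^2) ≤ 1 := by
        apply Real.exp_le_one_iff.2
        nlinarith [sq_nonneg ‖x‖]
      have h4 : Real.exp (-(1/4) * ‖x‖^2) * ‖x‖^2 ≤ 4 := by
        have h5 : (1/4) * ‖x‖^2 ≤ Real.exp ((1/4) * ‖x‖^2) := by
          have := Real.add_one_le_exp ((1/4) * ‖x‖^2)
          linarith
        have h6 : Real.exp (-(1/4) * ‖x‖^2) * Real.exp ((1/4) * ‖x‖^2) = 1 := by
          rw [← Real.exp_add]
          simp
        have h7 := mul_le_mul_of_nonneg_left h5 (Real.exp_pos (-(1/4) * ‖x‖^2)).le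
        rw [h6] at h7
        linarith
      have h8 : 0 < Real.exp (-(1/4) * ‖x‖^2) := Real.exp_pos _
      have h9 : |h x| ≤ |A| + |B| * ‖x‖^2 := by
        have a1 := le_abs_self A
        have a2 : B * ‖x‖^2 ≤ |B| * ‖x‖^2 := mul_le_mul_of_nonneg_right (le_abs_self B) (sq_nonneg _)
        linarith
      calc Real.exp (-(1/4) * ‖x‖^2) * |h x| ≤
            Real.exp (-(1/4) * ‖x‖^2) * (|A| + |B| * ‖x‖^2) := mul_le_mul_of_nonneg_left h9 h8.le
        _ = Real.exp (-(1/4) * ‖x‖^2) * |A| + |B| * (Real.exp (-(1/4) * ‖x‖^2) * ‖x‖^2) := by ring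
        _ ≤ 1 * |A| + |B| * 4 := by
            apply add_le_add
            · exact mul_le_mul_of_nonneg_right h3 (abs_nonneg A)
            · exact mul_le_mul_of_nonneg_left h4 (abs_nonneg B)
        _ = |A| + 4 * |B| := by ring
    rw [e1, mul_assoc]
    calc Real.exp (-(1/4) * ‖x‖^2) * (Real.exp (-(1/4) * ‖x‖^2) * |h x|) ≤
          Real.exp (-(1/4) * ‖x‖^2) * (|A| + 4 * |B|) :=
            mul_le_mul_of_nonneg_left h2 (Real.exp_pos _).le
      _ = (|A| + 4 * |B|) * Real.exp (-(1/4) * ‖x‖^2) := by ring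

theorem stein_deriv (n : ℕ) (e x : E n) :
    fderiv ℝ (fun x : E n => Real.exp (-‖x‖^2/2)) x e = -(Real.exp (-‖x‖^2/2) * inner ℝ x e) := by
  have h1 : HasFDerivAt (fun x : E n => ‖x‖^2) (2 • (innerSL ℝ x)) x :=
    (hasStrictFDerivAt_norm_sq x).hasFDerivAt
  have h2 := ((h1.neg).const_mul (1/2 : ℝ)).exp
  have h3 : (fun x : E n => Real.exp (-‖x‖^2/2)) = fun x : E n => Real.exp (1/2 * -‖x‖^2) := by
    funext x
    congr 1
    ring
  rw [h3]
  have h4 := h2.fderiv
  have h5 : fderiv ℝ (fun x : E n => Real.exp (1/2 * -‖x‖^2)) x =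
      Real.exp (1/2 * -‖x‖^2) • ((1/2 : ℝ) • -(2 • (innerSL ℝ x))) := h4
  have h6 : Real.exp (1/2 * -‖x‖^2) = Real.exp (-‖x‖^2/2) := by
    congr 1
    ring
  rw [h5, h6]
  simp only [smul_apply, neg_apply, innerSL_apply_apply,
    smul_eq_mul, nsmul_eq_mul]
  push_cast
  ring

/- TO PROVE -/
theorem stein (n : ℕ) (f : E n → ℝ) (e : E n) (hf : ContDiff ℝ 1 f) (C : ℝ)
    (hC : ∀ x, ‖fderiv ℝ f x‖ ≤ C) :
    ∫ x, f x * inner ℝ x e ∂(gm n) = ∫ x, fderiv ℝ f x e ∂(gm n) := by
  rw [gint, gint]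
  congr 1
  have hC0 : 0 ≤ C := (norm_nonneg _).trans (hC 0)
  have hfb : ∀ x, |f x| ≤ |f 0| + C * ‖x‖ := by
    intro x
    have h1 := Convex.norm_image_sub_le_of_norm_fderiv_le (𝕜 := ℝ) (f := f) (C := C)
      (s := Set.univ) (fun y _ => (hf.differentiable (by norm_num)) y) (fun y _ => hC y)
      convex_univ (Set.mem_univ 0) (Set.mem_univ x)
    rw [sub_zero, Real.norm_eq_abs] at h1
    have h2 := abs_sub_abs_le_abs_sub (f x) (f 0)
    linarith
  have hfd : Continuous (fun x => fderiv ℝ f x e) :=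
    (hf.continuous_fderiv (by norm_num)).clm_apply continuous_const
  have hin : Continuous (fun x : E n => (inner ℝ x e : ℝ)) := by fun_prop
  have I1 : Integrable (fun x : E n => Real.exp (-‖x‖^2/2) * (f x * inner ℝ x e)) := by
    refine stein_int n (fun x => f x * inner ℝ x e) (hf.continuous.mul hin)
      (|f 0| * ‖e‖) ((|f 0| + C) * ‖e‖) ?_ |>.congr (Filter.Eventually.of_forall fun x => rfl)
    intro x
    rw [abs_mul]
    have h1 := abs_real_inner_le_norm x e
    have h2 := hfb x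
    have h3 : |f x| * |inner ℝ x e| ≤ (|f 0| + C * ‖x‖) * (‖x‖ * ‖e‖) :=
      mul_le_mul h2 h1 (abs_nonneg _) (by positivity)
    have h4 : ‖x‖ ≤ 1 + ‖x‖^2 := by nlinarith [sq_nonneg (‖x‖ - 1), norm_nonneg x]
    have h5 : |f 0| * ‖e‖ * ‖x‖ ≤ |f 0| * ‖e‖ * (1 + ‖x‖^2) :=
      mul_le_mul_of_nonneg_left h4 (by positivity)
    nlinarith
  have I2 : Integrable (fun x : E n => Real.exp (-‖x‖^2/2) * (fderiv ℝ f x e)) := by
    refine stein_int n (fun x => fderiv ℝ f x e) hfd (C * ‖e‖) 0 ?_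
    intro x
    rw [zero_mul, add_zero]
    have h1 := (fderiv ℝ f x).le_opNorm e
    rw [Real.norm_eq_abs] at h1
    exact h1.trans (mul_le_mul_of_nonneg_right (hC x) (norm_nonneg e))
  have I3 : Integrable (fun x : E n => Real.exp (-‖x‖^2/2) * f x) := by
    refine stein_int n f hf.continuous (|f 0| + C) C ?_
    intro x
    have h4 : ‖x‖ ≤ 1 + ‖x‖^2 := by nlinarith [sq_nonneg (‖x‖ - 1), norm_nonneg x]
    have h5 := mul_le_mul_of_nonneg_left h4 hC0
    have := hfb x
    linarith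
  have hG : Differentiable ℝ (fun x : E n => Real.exp (-‖x‖^2/2)) := by
    intro x
    have h1 : HasFDerivAt (fun x : E n => ‖x‖^2) (2 • (innerSL ℝ x)) x :=
      (hasStrictFDerivAt_norm_sq x).hasFDerivAt
    have h2 := ((h1.neg).const_mul (1/2 : ℝ)).exp.differentiableAt
    have h3 : (fun x : E n => Real.exp (-‖x‖^2/2)) = fun x : E n => Real.exp (1/2 * -‖x‖^2) := by
      funext x
      congr 1
      ring
    rw [h3]
    exact h2
  have key := integral_mul_fderiv_eq_neg_fderiv_mul_of_integrable (μ := (volume : Measure (E n)))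
    (f := f) (g := fun x : E n => Real.exp (-‖x‖^2/2)) (v := e)
    (I2.congr (Filter.Eventually.of_forall fun x => mul_comm _ _))
    ((I1.neg).congr (Filter.Eventually.of_forall fun x => by
      simp only [Pi.neg_apply]
      rw [stein_deriv]
      ring))
    (I3.congr (Filter.Eventually.of_forall fun x => mul_comm _ _))
    (fun x _ => (hf.differentiable (by norm_num)) x) (fun x _ => hG x)
  have e1 : ∫ x : E n, Real.exp (-‖x‖^2/2) * (f x * inner ℝ x e) =
      -∫ x : E n, f x * fderiv ℝ (fun x : E n => Real.exp (-‖x‖^2/2)) x e := by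
    rw [← integral_neg]
    refine integral_congr_ae (Filter.Eventually.of_forall fun x => ?_)
    simp only
    rw [stein_deriv]
    ring
  have e2 : ∫ x : E n, Real.exp (-‖x‖^2/2) * (fderiv ℝ f x e) =
      ∫ x : E n, fderiv ℝ f x e * Real.exp (-‖x‖^2/2) := by
    refine integral_congr_ae (Filter.Eventually.of_forall fun x => ?_)
    exact mul_comm _ _
  rw [e1, key, neg_neg, e2]

end Pool.Agent.PZ871.M_stein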