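import Mathlib
import Pool.Agent.PZ871.Defs
import Pool.Agent.PZ871.Jpos
import Pool.Agent.PZ871.Barsm
import Pool.Agent.PZ871.Dat
import Pool.Agent.PZ871.Lin1
import Pool.Agent.PZ871.Stein
import Pool.Agent.PZ871.Gsq
set_option autoImplicit false
set_option maxHeartbeats 1000000
namespace Pool.Agent.PZ871.M_opt1
open Pool.Agent.PZ871.M_Jpos (Jpos)
open Pool.Agent.PZ871.M_barsm (barsm)
open Pool.Agent.PZ871.M_dat (dat)
open Pool.Agent.PZ871.M_lin1 (lin1)
open Pool.Agent.PZ871.M_stein (stein)
open Pool.Agent.PZ871.M_gsq (gsq)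
open MeasureTheory Set
open scoped RealInnerProductSpace ENNReal















theorem opt1_bd (n : ℕ) (K : Set (E n)) (hK : Body n K) :
    ∃ R : ℝ, 0 < R ∧ ∀ x ∈ K, ‖x‖ ≤ R := hK.cpt.isBounded.exists_pos_norm_le

theorem opt1_vol (n : ℕ) (K : Set (E n)) (hK : Body n K) : 0 < (volume : Measure (E n)).real K := by
  obtain ⟨r, hr, hb⟩ := hK.int
  rw [Measure.real, ENNReal.toReal_pos_iff]
  exact ⟨(Metric.measure_ball_pos volume 0 hr).trans_le (measure_mono hb),
    hK.cpt.measure_lt_top⟩

theorem opt1_cont (n : ℕ) (T : E n →L[ℝ] E n) :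
    Continuous (fun p : E n × E n => w n p.1 (T p.2)) := by
  unfold w
  fun_prop

theorem opt1_cont' (n : ℕ) (T : E n →L[ℝ] E n) (g : E n) :
    Continuous (fun x : E n => w n g (T x)) := by
  unfold w
  fun_prop

theorem opt1_int (n : ℕ) (K : Set (E n)) (hK : Body n K) (f : E n → ℝ) (hf : Continuous f) :
    IntegrableOn f K volume := hf.continuousOn.integrableOn_compact hK.cpt

theorem opt1_norm (n : ℕ) : Integrable (fun x : E n => ‖x‖) (gm n) := by
  haveI : IsProbabilityMeasure (gm n) := by unfold gm; infer_instance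
  have h1 : Integrable (fun x : E n => 1 + ‖x‖ ^ 2) (gm n) :=
    (integrable_const (1 : ℝ)).add (gsq n).1
  refine h1.mono' (by fun_prop) (Filter.Eventually.of_forall fun x => ?_)
  rw [Real.norm_of_nonneg (norm_nonneg x)]
  nlinarith [sq_nonneg (‖x‖ - 1), norm_nonneg x]

theorem opt1_logint (n : ℕ) (K : Set (E n)) (hK : Body n K) (T : E n →L[ℝ] E n) :
    Integrable (fun g => Real.log (∫ x in K, w n g (T x))) (gm n) := by
  haveI : IsProbabilityMeasure (gm n) := by unfold gm; infer_instance
  obtain ⟨R, hR, hKR⟩ := opt1_bd n K hK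
  have hV := opt1_vol n K hK
  set V := (volume : Measure (E n)).real K with hVdef
  set R' := ‖T‖ * R with hR'
  have hR'0 : 0 ≤ R' := by positivity
  have hT : ∀ x ∈ K, ‖T x‖ ≤ R' := fun x hx =>
    (T.le_opNorm x).trans (mul_le_mul_of_nonneg_left (hKR x hx) (norm_nonneg T))
  have hmeas : AEStronglyMeasurable (fun g => Real.log (∫ x in K, w n g (T x))) (gm n) := by
    have h1 : StronglyMeasurable (fun g : E n => ∫ x in K, w n g (T x)) :=
      StronglyMeasurable.integral_prod_right (opt1_cont n T).stronglyMeasurable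
    exact (Real.measurable_log.comp h1.measurable).aestronglyMeasurable
  have hbound : Integrable (fun g : E n => |Real.log V| + R' ^ 2 / 2 + R' * ‖g‖) (gm n) :=
    (integrable_const _).add ((opt1_norm n).const_mul R')
  refine hbound.mono' hmeas (Filter.Eventually.of_forall fun g => ?_)
  have hin : ∀ x ∈ K, |inner ℝ (T x) g| ≤ R' * ‖g‖ := fun x hx =>
    (abs_real_inner_le_norm _ _).trans (mul_le_mul_of_nonneg_right (hT x hx) (norm_nonneg g))
  have hlow : Real.exp (-(R' ^ 2 / 2) - R' * ‖g‖) * V ≤ ∫ x in K, w n g (T x) := by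
    have h1 : ∫ x in K, Real.exp (-(R' ^ 2 / 2) - R' * ‖g‖) ∂(volume : Measure (E n)) ≤
        ∫ x in K, w n g (T x) := by
      apply setIntegral_mono_on (opt1_int n K hK _ continuous_const)
        (opt1_int n K hK _ (opt1_cont' n T g)) hK.cpt.measurableSet
      intro x hx
      unfold w
      apply Real.exp_le_exp.2
      have h2 := (abs_le.1 (hin x hx)).1
      have h3 : ‖T x‖ ^ 2 ≤ R' ^ 2 := pow_le_pow_left₀ (norm_nonneg _) (hT x hx) 2
      linarith
    rw [setIntegral_const, smul_eq_mul, mul_comm] at h1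
    exact h1
  have hup : ∫ x in K, w n g (T x) ≤ Real.exp (R' * ‖g‖) * V := by
    have h1 : ∫ x in K, w n g (T x) ≤
        ∫ x in K, Real.exp (R' * ‖g‖) ∂(volume : Measure (E n)) := by
      apply setIntegral_mono_on (opt1_int n K hK _ (opt1_cont' n T g))
        (opt1_int n K hK _ continuous_const) hK.cpt.measurableSet
      intro x hx
      unfold w
      apply Real.exp_le_exp.2
      have h2 := (abs_le.1 (hin x hx)).2
      have h3 : 0 ≤ ‖T x‖ ^ 2 := by positivity
      linarith
    rw [setIntegral_const, smul_eq_mul, mul_comm] at h1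
    exact h1
  have hpos : 0 < ∫ x in K, w n g (T x) := lt_of_lt_of_le (by positivity) hlow
  have l1 := Real.log_le_log (by positivity) hlow
  have l2 := Real.log_le_log hpos hup
  rw [Real.log_mul (Real.exp_pos _).ne' hV.ne', Real.log_exp] at l1 l2
  rw [Real.norm_eq_abs, abs_le]
  have l3 := neg_abs_le (Real.log V)
  have l4 := le_abs_self (Real.log V)
  constructor
  · linarith
  · have : 0 ≤ R' ^ 2 / 2 := by positivity
    linarith

noncomputable def opT (n : ℕ) (s : ℝ) (e : E n) : E n →L[ℝ] E n :=
  ContinuousLinearMap.id ℝ (E n) + (innerSL ℝ e).smulRight (s • e)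

theorem opT_apply (n : ℕ) (s : ℝ) (e x : E n) : opT n s e x = x + (s * inner ℝ x e) • e := by
  unfold opT
  rw [ContinuousLinearMap.add_apply, ContinuousLinearMap.id_apply,
    ContinuousLinearMap.smulRight_apply, innerSL_apply_apply, smul_smul, real_inner_comm, mul_comm]

theorem opT_det (n : ℕ) (s : ℝ) (e : E n) (he : ‖e‖ = 1) :
    LinearMap.det (opT n s e : E n →ₗ[ℝ] E n) = 1 + s := by
  have h : ((opT n s e : E n →L[ℝ] E n) : E n →ₗ[ℝ] E n) =
      LinearMap.transvection ((innerSL ℝ e : E n →L[ℝ] ℝ) : E n →ₗ[ℝ] ℝ) (s • e) := by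
    apply LinearMap.ext
    intro x
    rw [LinearMap.transvection.apply]
    rfl
  rw [h, LinearMap.transvection.det]
  congr 1
  show inner ℝ e (s • e) = s
  rw [inner_smul_right, real_inner_self_eq_norm_sq, he]
  ring

theorem opt1_jensen (n : ℕ) (K : Set (E n)) (hK : Body n K) (s : ℝ) (e : E n) (he : ‖e‖ = 1)
    (g : E n) :
    -(s + s ^ 2 / 2) * (inner ℝ (fderiv ℝ (bar n K) g e) e + (inner ℝ (bar n K g) e) ^ 2) +
      s * (inner ℝ (bar n K g) e * inner ℝ g e) ≤
    Real.log (∫ x in K, w n g (opT n s e x)) - Real.log (J n K g) := by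
  have hJ := (Jpos n K hK g).1
  set h : E n → ℝ := fun x => -(s + s ^ 2 / 2) * (inner ℝ x e) ^ 2 +
    s * (inner ℝ x e * inner ℝ g e) with hh
  have hw : ∀ x, w n g (opT n s e x) = w n g x * Real.exp (h x) := by
    intro x
    unfold w
    rw [← Real.exp_add, opT_apply]
    congr 1
    have h1 : ‖x + (s * inner ℝ x e) • e‖ ^ 2 = ‖x‖ ^ 2 + (2 * s + s ^ 2) * (inner ℝ x e) ^ 2 := by
      rw [norm_add_sq_real, inner_smul_right, norm_smul, he, Real.norm_eq_abs, mul_one, sq_abs]
      ring
    have h2 : inner ℝ (x + (s * inner ℝ x e) • e) g =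
        inner ℝ x g + s * inner ℝ x e * inner ℝ g e := by
      rw [inner_add_left, inner_smul_left, real_inner_comm e g]
      simp
    rw [h1, h2, hh]
    ring
  have hhc : Continuous h := by
    rw [hh]
    fun_prop
  have hwc : Continuous (fun x => w n g x) := by
    unfold w
    fun_prop
  -- the mean
  have hmean1 : ∫ x in K, w n g x * h x = J n K g *
      (-(s + s ^ 2 / 2) * (inner ℝ (fderiv ℝ (bar n K) g e) e + (inner ℝ (bar n K g) e) ^ 2) +
      s * (inner ℝ (bar n K g) e * inner ℝ g e)) := by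
    have h1 := (barsm n K hK).2.2.2 g e e
    have h2 : ∫ x in K, w n g x * (inner ℝ x e * inner ℝ x e) =
        J n K g * (inner ℝ (fderiv ℝ (bar n K) g e) e + (inner ℝ (bar n K g) e) ^ 2) := by
      rw [h1]
      field_simp
      ring
    have h3 : ∫ x in K, w n g x * inner ℝ x e = J n K g * inner ℝ (bar n K g) e := by
      unfold bar
      have h4 : Integrable (fun x => w n g x • x) (volume.restrict K) :=
        (Continuous.continuousOn (by fun_prop)).integrableOn_compact hK.cpt
      rw [inner_smul_left, real_inner_comm, ← integral_inner h4]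
      simp only [inner_smul_right, conj_trivial]
      rw [← mul_assoc, mul_inv_cancel₀ hJ.ne', one_mul]
      refine integral_congr_ae (Filter.Eventually.of_forall fun x => ?_)
      show w n g x * inner ℝ x e = w n g x * inner ℝ e x
      rw [real_inner_comm]
    have h5 : ∀ x, w n g x * h x = -(s + s ^ 2 / 2) * (w n g x * (inner ℝ x e * inner ℝ x e)) +
        (s * inner ℝ g e) * (w n g x * inner ℝ x e) := by
      intro x
      rw [hh]
      ring
    simp only [h5]
    rw [integral_add, integral_const_mul, integral_const_mul, h2, h3]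
    · ring
    · exact (opt1_int n K hK _ (by fun_prop))
    · exact (opt1_int n K hK _ (by fun_prop))
  set m := -(s + s ^ 2 / 2) * (inner ℝ (fderiv ℝ (bar n K) g e) e + (inner ℝ (bar n K g) e) ^ 2) +
      s * (inner ℝ (bar n K g) e * inner ℝ g e) with hm
  have hge : Real.exp m * J n K g ≤ ∫ x in K, w n g (opT n s e x) := by
    have h1 : ∫ x in K, Real.exp m * (w n g x + (w n g x * h x - m * w n g x)) ≤
        ∫ x in K, w n g (opT n s e x) := by
      apply setIntegral_mono_on (opt1_int n K hK _ (by fun_prop))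
        (opt1_int n K hK _ (opt1_cont' n (opT n s e) g)) hK.cpt.measurableSet
      intro x _
      rw [hw]
      have h2 := Real.add_one_le_exp (h x - m)
      have h3 : Real.exp (h x) = Real.exp m * Real.exp (h x - m) := by
        rw [← Real.exp_add]
        congr 1
        ring
      have h4 : 0 < w n g x := Real.exp_pos _
      rw [h3]
      calc Real.exp m * (w n g x + (w n g x * h x - m * w n g x)) =
            (Real.exp m * w n g x) * (h x - m + 1) := by ring
        _ ≤ (Real.exp m * w n g x) * Real.exp (h x - m) :=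
            mul_le_mul_of_nonneg_left h2 (by positivity)
        _ = _ := by ring
    have h5 : ∫ x in K, Real.exp m * (w n g x + (w n g x * h x - m * w n g x)) =
        Real.exp m * J n K g := by
      rw [integral_const_mul, integral_add, integral_sub, integral_const_mul, hmean1]
      · unfold J
        ring
      · exact (opt1_int n K hK _ (by fun_prop))
      · exact (opt1_int n K hK _ (by fun_prop))
      · exact (opt1_int n K hK _ (by fun_prop))
      · exact (opt1_int n K hK _ (by fun_prop))
    rw [h5] at h1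
    exact h1
  have hlog := Real.log_le_log (by positivity) hge
  rw [Real.log_mul (Real.exp_pos _).ne' hJ.ne', Real.log_exp] at hlog
  linarith

/- TO PROVE -/
theorem opt1 (n : ℕ) (K : Set (E n)) (hK : Body n K) (ho : NearOpt n K) (e : E n)
    (he : ‖e‖ = 1) :
    (9/10) * Real.log (1 + 1/50) ≤ 1/10000 + (1/50) * (∫ g, (inner ℝ (bar n K g) e)^2 ∂(gm n))
      + ((1/50)^2/2) * ((∫ g, inner ℝ (fderiv ℝ (bar n K) g e) e ∂(gm n)) +
        ∫ g, (inner ℝ (bar n K g) e)^2 ∂(gm n)) := by
  haveI : IsProbabilityMeasure (gm n) := by unfold gm; infer_instance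
  have hd := dat n K hK
  obtain ⟨R, hR, hKR⟩ := opt1_bd n K hK
  have hb : ∀ g, ‖bar n K g‖ ≤ R := fun g => hKR _ (hd.mem g)
  have hbe : ∀ g, |inner ℝ (bar n K g) e| ≤ R := fun g =>
    (abs_real_inner_le_norm _ _).trans (by rw [he, mul_one]; exact hb g)
  have hbc : Continuous (bar n K) := hd.smooth.continuous
  have hfc : Continuous (fun g => fderiv ℝ (bar n K) g) := hd.smooth.continuous_fderiv one_ne_zero
  have hlin : ∀ g, ‖fderiv ℝ (bar n K) g‖ ≤ 1 := by
    intro g
    apply (lin1 n (fderiv ℝ (bar n K) g) (hd.symm g) ?_ (hd.le1 g)).2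
    intro x
    by_cases hx : x = 0
    · rw [hx, map_zero, inner_zero_left]
    · exact (hd.pos g x hx).le
  have hA : ∀ g, |inner ℝ (fderiv ℝ (bar n K) g e) e| ≤ 1 := by
    intro g
    refine (abs_real_inner_le_norm _ _).trans ?_
    rw [he, mul_one]
    exact ((fderiv ℝ (bar n K) g).le_opNorm e).trans (by rw [he, mul_one]; exact hlin g)
  have i1 : Integrable (fun g => (inner ℝ (bar n K g) e) ^ 2) (gm n) := by
    refine (integrable_const (R ^ 2)).mono' (by fun_prop) (Filter.Eventually.of_forall fun g => ?_)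
    rw [Real.norm_eq_abs, abs_pow]
    exact pow_le_pow_left₀ (abs_nonneg _) (hbe g) 2
  have i2 : Integrable (fun g => inner ℝ (fderiv ℝ (bar n K) g e) e) (gm n) := by
    refine (integrable_const (1 : ℝ)).mono' ?_ (Filter.Eventually.of_forall fun g => ?_)
    · have : Continuous (fun g => inner ℝ (fderiv ℝ (bar n K) g e) e) := by
        have h1 : Continuous (fun g => fderiv ℝ (bar n K) g e) :=
          hfc.clm_apply continuous_const
        exact h1.inner continuous_const
      exact this.aestronglyMeasurable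
    · rw [Real.norm_eq_abs]
      exact hA g
  have i3 : Integrable (fun g => inner ℝ (bar n K g) e * inner ℝ g e) (gm n) := by
    refine ((opt1_norm n).const_mul R).mono' (by fun_prop) (Filter.Eventually.of_forall fun g => ?_)
    rw [Real.norm_eq_abs, abs_mul]
    refine mul_le_mul (hbe g) ?_ (abs_nonneg _) hR.le
    exact (abs_real_inner_le_norm _ _).trans (by rw [he, mul_one])
  have hst : ∫ g, inner ℝ (bar n K g) e * inner ℝ g e ∂(gm n) =
      ∫ g, inner ℝ (fderiv ℝ (bar n K) g e) e ∂(gm n) := by
    have hder : ∀ g, HasFDerivAt (fun g => inner ℝ (bar n K g) e)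
        ((innerSL ℝ e).comp (fderiv ℝ (bar n K) g)) g := by
      intro g
      have h1 : HasFDerivAt (bar n K) (fderiv ℝ (bar n K) g) g :=
        (hd.smooth.differentiable one_ne_zero g).hasFDerivAt
      have h2 := (innerSL ℝ e).hasFDerivAt.comp g h1
      refine h2.congr_of_eventuallyEq (Filter.Eventually.of_forall fun x => ?_)
      show inner ℝ (bar n K x) e = inner ℝ e (bar n K x)
      rw [real_inner_comm]
    have hfd : ∀ g, fderiv ℝ (fun g => inner ℝ (bar n K g) e) g =
        (innerSL ℝ e).comp (fderiv ℝ (bar n K) g) := fun g => (hder g).fderiv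
    have h1 := stein n (fun g => inner ℝ (bar n K g) e) e
      (hd.smooth.inner ℝ contDiff_const) 1 (by
        intro g
        rw [hfd]
        refine (ContinuousLinearMap.opNorm_comp_le _ _).trans ?_
        rw [innerSL_apply_norm, he, one_mul]
        exact hlin g)
    rw [h1]
    refine integral_congr_ae (Filter.Eventually.of_forall fun g => ?_)
    show fderiv ℝ (fun g => inner ℝ (bar n K g) e) g e = inner ℝ (fderiv ℝ (bar n K) g e) e
    rw [hfd]
    show inner ℝ e (fderiv ℝ (bar n K) g e) = _
    rw [real_inner_comm]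
  have hT := ho (opT n (1/50) e) (by rw [opT_det n _ e he]; norm_num)
  unfold Phi at hT
  rw [opT_det n _ e he] at hT
  have hid : Real.log |LinearMap.det ((ContinuousLinearMap.id ℝ (E n) : E n →L[ℝ] E n) :
      E n →ₗ[ℝ] E n)| = 0 := by
    have : ((ContinuousLinearMap.id ℝ (E n) : E n →L[ℝ] E n) : E n →ₗ[ℝ] E n) = LinearMap.id := rfl
    rw [this, LinearMap.det_id, abs_one, Real.log_one]
  rw [hid] at hT
  have hJi : Integrable (fun g => Real.log (J n K g)) (gm n) :=
    opt1_logint n K hK (ContinuousLinearMap.id ℝ (E n))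
  have hTi := opt1_logint n K hK (opT n (1/50) e)
  have hJe : ∫ g, Real.log (∫ x in K, w n g ((ContinuousLinearMap.id ℝ (E n)) x)) ∂(gm n) =
      ∫ g, Real.log (J n K g) ∂(gm n) := rfl
  rw [hJe] at hT
  have hmono : ∫ g, (-((1/50:ℝ) + (1/50) ^ 2 / 2) * (inner ℝ (fderiv ℝ (bar n K) g e) e +
      (inner ℝ (bar n K g) e) ^ 2) + (1/50) * (inner ℝ (bar n K g) e * inner ℝ g e)) ∂(gm n) ≤
      ∫ g, (Real.log (∫ x in K, w n g (opT n (1/50) e x)) - Real.log (J n K g)) ∂(gm n) :=
    integral_mono (((i2.add i1).const_mul _).add (i3.const_mul _)) (hTi.sub hJi)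
      (fun g => opt1_jensen n K hK (1/50) e he g)
  have e1 : Integrable (fun g => -((1/50:ℝ) + (1/50) ^ 2 / 2) *
      (inner ℝ (fderiv ℝ (bar n K) g e) e + (inner ℝ (bar n K g) e) ^ 2)) (gm n) :=
    (i2.add i1).const_mul _
  have e2 : Integrable (fun g => (1/50:ℝ) * (inner ℝ (bar n K g) e * inner ℝ g e)) (gm n) :=
    i3.const_mul _
  rw [integral_sub hTi hJi, integral_add e1 e2,
    integral_const_mul, integral_const_mul, integral_add i2 i1, hst] at hmono
  have habs : |(1:ℝ) + 1/50| = 1 + 1/50 := by norm_num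
  rw [habs] at hT
  linarith

end Pool.Agent.PZ871.M_opt1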