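import Mathlib
import Pool.Agent.PZ871.Defs
set_option autoImplicit false
set_option maxHeartbeats 1000000
namespace Pool.Agent.PZ871.M_grot
open MeasureTheory Set
open scoped RealInnerProductSpace ENNReal



/- TO PROVE -/
theorem grot (n : ℕ) (a c : ℝ) (h : a^2 + c^2 = 1) :
    MeasurePreserving (fun p : E n × E n => (a • p.1 + c • p.2, c • p.1 - a • p.2))
      ((gm n).prod (gm n)) ((gm n).prod (gm n)) := by
  obtain ⟨θ, hθ1, hθ2⟩ : ∃ θ : ℝ, Real.cos θ = a ∧ Real.sin θ = c := by
    have hn : ‖(⟨a, c⟩ : ℂ)‖ = 1 := by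
      rw [Complex.norm_def, Complex.normSq_mk]
      rw [show a * a + c * c = 1 by nlinarith, Real.sqrt_one]
    have h0 : (⟨a, c⟩ : ℂ) ≠ 0 := by
      intro hh
      rw [hh] at hn
      simp at hn
    refine ⟨Complex.arg ⟨a, c⟩, ?_, ?_⟩
    · rw [Complex.cos_arg h0, hn]
      simp
    · rw [Complex.sin_arg, hn]
      simp
  haveI : ProbabilityTheory.IsGaussian (gm n) := by
    unfold gm
    infer_instance
  haveI : IsProbabilityMeasure (gm n) := by
    unfold gm
    infer_instance
  have hmean : ∫ x, id x ∂(gm n) = 0 := by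
    have := ProbabilityTheory.integral_id_stdGaussian (E := E n)
    exact this
  have h1 : MeasurePreserving (ContinuousLinearMap.rotation (E := E n) θ)
      ((gm n).prod (gm n)) ((gm n).prod (gm n)) :=
    ⟨(ContinuousLinearMap.rotation (E := E n) θ).continuous.measurable,
      ProbabilityTheory.IsGaussian.map_rotation_eq_self hmean θ⟩
  have h2 : MeasurePreserving (fun x : E n => -x) (gm n) (gm n) := by
    refine ⟨measurable_neg, ?_⟩
    have := ProbabilityTheory.stdGaussian_map (E := E n) (LinearIsometryEquiv.neg ℝ (E := E n))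
    exact this
  have h3 : MeasurePreserving (Prod.map (id : E n → E n) (fun x : E n => -x))
      ((gm n).prod (gm n)) ((gm n).prod (gm n)) :=
    (MeasurePreserving.id (gm n)).prod h2
  have h4 := h3.comp h1
  have h5 : (fun p : E n × E n => (a • p.1 + c • p.2, c • p.1 - a • p.2)) =
      (Prod.map (id : E n → E n) (fun x : E n => -x)) ∘
        (ContinuousLinearMap.rotation (E := E n) θ) := by
    funext p
    simp only [Function.comp_apply, ContinuousLinearMap.rotation_apply, Prod.map_apply, id_eq, hθ1,
      hθ2]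
    congr 1
    rw [neg_smul]
    abel
  rw [h5]
  exact h4

end Pool.Agent.PZ871.M_grot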