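import Mathlib
import Pool.Agent.PZ871.Defs
import Pool.Agent.PZ871.Grot
import Pool.Agent.PZ871.Gsq
set_option autoImplicit false
set_option maxHeartbeats 1000000
namespace Pool.Agent.PZ871.M_poinc
open Pool.Agent.PZ871.M_grot (grot)
open Pool.Agent.PZ871.M_gsq (gsq)
open MeasureTheory Set
open scoped RealInnerProductSpace ENNReal








theorem ftc871_pc (n : ℕ) (f : E n → ℝ) (hf : ContDiff ℝ 1 f) (x y : E n) :
    f x - f y = ∫ t in (0:ℝ)..(Real.pi/2),
      fderiv ℝ f (Real.sin t • x + Real.cos t • y) (Real.cos t • x - Real.sin t • y) := by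
  have hD : Continuous (fderiv ℝ f) := hf.continuous_fderiv (by norm_num)
  have hder : ∀ t ∈ uIcc (0:ℝ) (Real.pi/2), HasDerivAt (fun t : ℝ => f (Real.sin t • x + Real.cos t • y))
      (fderiv ℝ f (Real.sin t • x + Real.cos t • y) (Real.cos t • x - Real.sin t • y)) t := by
    intro t _
    have h1 : HasFDerivAt f (fderiv ℝ f (Real.sin t • x + Real.cos t • y)) (Real.sin t • x + Real.cos t • y) :=
      (hf.differentiable (by norm_num) _).hasFDerivAt
    have h2 : HasDerivAt (fun t : ℝ => Real.sin t • x + Real.cos t • y) (Real.cos t • x - Real.sin t • y) t := by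
      have a1 := (Real.hasDerivAt_sin t).smul_const x
      have a2 := (Real.hasDerivAt_cos t).smul_const y
      have a3 := a1.add a2
      have e : Real.cos t • x - Real.sin t • y = Real.cos t • x + (-Real.sin t) • y := by
        rw [neg_smul, sub_eq_add_neg]
      rw [e]
      exact a3
    exact h1.comp_hasDerivAt t h2
  have hcont : Continuous (fun t : ℝ =>
      fderiv ℝ f (Real.sin t • x + Real.cos t • y) (Real.cos t • x - Real.sin t • y)) := by
    have h1 : Continuous (fun t : ℝ => fderiv ℝ f (Real.sin t • x + Real.cos t • y)) := hD.comp (by fun_prop)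
    have h2 : Continuous (fun t : ℝ => Real.cos t • x - Real.sin t • y) := by fun_prop
    exact h1.clm_apply h2
  have := intervalIntegral.integral_eq_sub_of_hasDerivAt hder (hcont.intervalIntegrable _ _)
  rw [this]
  simp

theorem cs871_pc (g : ℝ → ℝ) (hg : Continuous g) (b : ℝ) (hb : 0 < b) :
    (∫ t in (0:ℝ)..b, g t)^2 ≤ b * ∫ t in (0:ℝ)..b, (g t)^2 := by
  set I := ∫ t in (0:ℝ)..b, g t with hI
  have h0 : 0 ≤ ∫ t in (0:ℝ)..b, (g t - I / b)^2 :=
    intervalIntegral.integral_nonneg hb.le (fun t _ => sq_nonneg _)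
  have h1 : ∫ t in (0:ℝ)..b, (g t - I / b)^2 =
      (∫ t in (0:ℝ)..b, (g t)^2) - (2 * (I/b)) * I + (I/b)^2 * b := by
    have e : ∀ t, (g t - I / b)^2 = (g t)^2 - (2 * (I/b)) * g t + (I/b)^2 := fun t => by ring
    simp_rw [e]
    rw [intervalIntegral.integral_add, intervalIntegral.integral_sub,
      intervalIntegral.integral_const_mul, intervalIntegral.integral_const]
    · simp only [sub_zero, smul_eq_mul]
      ring
    · exact (hg.pow 2).intervalIntegrable _ _
    · exact (hg.const_mul _).intervalIntegrable _ _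
    · exact ((hg.pow 2).sub (hg.const_mul _)).intervalIntegrable _ _
    · exact continuous_const.intervalIntegrable _ _
  rw [h1] at h0
  have h2 : (2 * (I/b)) * I = 2 * (I^2 / b) := by ring
  have h3 : (I/b)^2 * b = I^2 / b := by field_simp
  rw [h2, h3] at h0
  have h4 : I^2 / b ≤ ∫ t in (0:ℝ)..b, (g t)^2 := by linarith
  rw [div_le_iff₀ hb] at h4
  linarith

noncomputable def Ff_pc (n : ℕ) (f : E n → ℝ) (p : E n × E n) (t : ℝ) : ℝ :=
  (fderiv ℝ f (Real.sin t • p.1 + Real.cos t • p.2) (Real.cos t • p.1 - Real.sin t • p.2))^2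

theorem Ff_cont_pc (n : ℕ) (f : E n → ℝ) (hf : ContDiff ℝ 1 f) :
    Continuous (fun q : (E n × E n) × ℝ => Ff_pc n f q.1 q.2) := by
  have hD : Continuous (fderiv ℝ f) := hf.continuous_fderiv (by norm_num)
  unfold Ff_pc
  have h1 : Continuous (fun q : (E n × E n) × ℝ =>
    fderiv ℝ f (Real.sin q.2 • q.1.1 + Real.cos q.2 • q.1.2)) := hD.comp (by fun_prop)
  have h2 : Continuous (fun q : (E n × E n) × ℝ => (Real.cos q.2 • q.1.1 - Real.sin q.2 • q.1.2)) := by
    fun_prop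
  exact (h1.clm_apply h2).pow 2

theorem Ff_bound_pc (n : ℕ) (f : E n → ℝ) (hC : ∀ x, ‖fderiv ℝ f x‖ ≤ 1) (p : E n × E n) (t : ℝ) :
    Ff_pc n f p t ≤ 2*‖p.1‖^2 + 2*‖p.2‖^2 := by
  unfold Ff_pc
  set L := fderiv ℝ f (Real.sin t • p.1 + Real.cos t • p.2) with hL
  set v := Real.cos t • p.1 - Real.sin t • p.2 with hv
  have h1 : |L v| ≤ ‖v‖ := by
    have := L.le_opNorm v
    rw [Real.norm_eq_abs] at this
    have h := hC (Real.sin t • p.1 + Real.cos t • p.2)
    nlinarith [norm_nonneg v]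
  have h2 : ‖v‖ ≤ ‖p.1‖ + ‖p.2‖ := by
    have a1 : ‖v‖ ≤ ‖Real.cos t • p.1‖ + ‖Real.sin t • p.2‖ := norm_sub_le _ _
    rw [norm_smul, norm_smul, Real.norm_eq_abs, Real.norm_eq_abs] at a1
    have a2 := Real.abs_cos_le_one t
    have a3 := Real.abs_sin_le_one t
    nlinarith [norm_nonneg p.1, norm_nonneg p.2]
  have h3 : (L v)^2 ≤ (‖p.1‖ + ‖p.2‖)^2 := by
    rw [← sq_abs (L v)]
    exact pow_le_pow_left₀ (abs_nonneg _) (h1.trans h2) 2
  nlinarith [sq_nonneg (‖p.1‖ - ‖p.2‖)]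

theorem glin_pc (n : ℕ) (L : E n →L[ℝ] ℝ) : ∫ y, (L y)^2 ∂(gm n) = ‖L‖^2 := by
  have h1 := ProbabilityTheory.variance_dual_stdGaussian (E := E n) L
  have h2 := ProbabilityTheory.integral_strongDual_stdGaussian (E := E n) L
  rw [ProbabilityTheory.variance_of_integral_eq_zero L.continuous.aemeasurable h2] at h1
  exact h1

instance gmprob_pc (n : ℕ) : IsProbabilityMeasure (gm n) := by unfold gm; infer_instance

theorem bnd_int_pc (n : ℕ) : Integrable (fun p : E n × E n => 2*‖p.1‖^2 + 2*‖p.2‖^2) ((gm n).prod (gm n)) := by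
  have h := (gsq n).1
  have h1 : Integrable (fun p : E n × E n => ‖p.1‖^2) ((gm n).prod (gm n)) := h.comp_fst (gm n)
  have h2 : Integrable (fun p : E n × E n => ‖p.2‖^2) ((gm n).prod (gm n)) := h.comp_snd (gm n)
  exact (h1.const_mul 2).add (h2.const_mul 2)

theorem Ff_int_pc (n : ℕ) (f : E n → ℝ) (hf : ContDiff ℝ 1 f) (hC : ∀ x, ‖fderiv ℝ f x‖ ≤ 1) :
    Integrable (fun q : (E n × E n) × ℝ => Ff_pc n f q.1 q.2)
      (((gm n).prod (gm n)).prod (volume.restrict (Ioc (0:ℝ) (Real.pi/2)))) := by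
  have hb : Integrable (fun q : (E n × E n) × ℝ => 2*‖q.1.1‖^2 + 2*‖q.1.2‖^2)
      (((gm n).prod (gm n)).prod (volume.restrict (Ioc (0:ℝ) (Real.pi/2)))) :=
    (bnd_int_pc n).comp_fst _
  refine hb.mono' (Ff_cont_pc n f hf).aestronglyMeasurable ?_
  refine Filter.Eventually.of_forall fun q => ?_
  rw [Real.norm_eq_abs, abs_of_nonneg (by unfold Ff_pc; positivity)]
  exact Ff_bound_pc n f hC q.1 q.2

theorem Ff_slice_pc (n : ℕ) (f : E n → ℝ) (hf : ContDiff ℝ 1 f) (t : ℝ) :
    ∫ p, Ff_pc n f p t ∂((gm n).prod (gm n)) = ∫ p : E n × E n, (fderiv ℝ f p.1 p.2)^2 ∂((gm n).prod (gm n)) := by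
  have hD : Continuous (fderiv ℝ f) := hf.continuous_fderiv (by norm_num)
  have hm := grot n (Real.sin t) (Real.cos t) (Real.sin_sq_add_cos_sq t)
  have hc : Continuous (fun p : E n × E n => (fderiv ℝ f p.1 p.2)^2) :=
    ((hD.comp continuous_fst).clm_apply continuous_snd).pow 2
  have h1 := integral_map (μ := (gm n).prod (gm n)) (φ := fun p : E n × E n => (Real.sin t • p.1 + Real.cos t • p.2, Real.cos t • p.1 - Real.sin t • p.2))
    (f := fun p : E n × E n => (fderiv ℝ f p.1 p.2)^2) hm.measurable.aemeasurable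
    (hc.aestronglyMeasurable)
  rw [hm.map_eq] at h1
  rw [h1]
  rfl

theorem G_eq_pc (n : ℕ) (f : E n → ℝ) (hf : ContDiff ℝ 1 f) (hC : ∀ x, ‖fderiv ℝ f x‖ ≤ 1) :
    ∫ p : E n × E n, (fderiv ℝ f p.1 p.2)^2 ∂((gm n).prod (gm n)) = ∫ x, ‖fderiv ℝ f x‖^2 ∂(gm n) := by
  have hD : Continuous (fderiv ℝ f) := hf.continuous_fderiv (by norm_num)
  have hc : Continuous (fun p : E n × E n => (fderiv ℝ f p.1 p.2)^2) :=
    ((hD.comp continuous_fst).clm_apply continuous_snd).pow 2
  have hi : Integrable (fun p : E n × E n => (fderiv ℝ f p.1 p.2)^2) ((gm n).prod (gm n)) := by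
    refine (bnd_int_pc n).mono' hc.aestronglyMeasurable ?_
    refine Filter.Eventually.of_forall fun p => ?_
    rw [Real.norm_eq_abs, abs_of_nonneg (by positivity)]
    have h1 : |fderiv ℝ f p.1 p.2| ≤ ‖p.2‖ := by
      have := (fderiv ℝ f p.1).le_opNorm p.2
      rw [Real.norm_eq_abs] at this
      have h := hC p.1
      nlinarith [norm_nonneg p.2]
    have h3 : (fderiv ℝ f p.1 p.2)^2 ≤ (‖p.2‖)^2 := by
      rw [← sq_abs (fderiv ℝ f p.1 p.2)]
      exact pow_le_pow_left₀ (abs_nonneg _) h1 2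
    nlinarith [sq_nonneg ‖p.1‖, sq_nonneg ‖p.2‖]
  rw [integral_prod _ hi]
  refine integral_congr_ae (Filter.Eventually.of_forall fun x => ?_)
  exact glin_pc n (fderiv ℝ f x)

theorem mid871_pc (n : ℕ) (f : E n → ℝ) (hf : ContDiff ℝ 1 f) (hC : ∀ x, ‖fderiv ℝ f x‖ ≤ 1) :
    ∫ p : E n × E n, (f p.1 - f p.2)^2 ∂((gm n).prod (gm n)) ≤
      Real.pi^2/4 * ∫ x, ‖fderiv ℝ f x‖^2 ∂(gm n) := by
  have hpi := Real.pi_pos
  have hI := Ff_int_pc n f hf hC
  have h1 : ∀ p : E n × E n, (f p.1 - f p.2)^2 ≤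
      Real.pi/2 * ∫ t in Ioc (0:ℝ) (Real.pi/2), Ff_pc n f p t := by
    intro p
    have hc : Continuous (fun t : ℝ =>
      fderiv ℝ f (Real.sin t • p.1 + Real.cos t • p.2) (Real.cos t • p.1 - Real.sin t • p.2)) := by
      have hD : Continuous (fderiv ℝ f) := hf.continuous_fderiv (by norm_num)
      have h1 : Continuous (fun t : ℝ => fderiv ℝ f (Real.sin t • p.1 + Real.cos t • p.2)) :=
        hD.comp (by fun_prop)
      have h2 : Continuous (fun t : ℝ => Real.cos t • p.1 - Real.sin t • p.2) := by fun_prop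
      exact h1.clm_apply h2
    have := cs871_pc _ hc (Real.pi/2) (by positivity)
    rw [← ftc871_pc n f hf p.1 p.2] at this
    rw [← intervalIntegral.integral_of_le (by positivity)]
    exact this
  have h2 : ∫ p : E n × E n, (f p.1 - f p.2)^2 ∂((gm n).prod (gm n)) ≤
      ∫ p : E n × E n, (Real.pi/2 * ∫ t in Ioc (0:ℝ) (Real.pi/2), Ff_pc n f p t) ∂((gm n).prod (gm n)) := by
    refine integral_mono_of_nonneg (Filter.Eventually.of_forall fun p => sq_nonneg _) ?_
      (Filter.Eventually.of_forall h1)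
    exact hI.integral_prod_left.const_mul _
  refine h2.trans ?_
  rw [integral_const_mul, integral_integral_swap hI]
  have h3 : ∀ t, ∫ p, Ff_pc n f p t ∂((gm n).prod (gm n)) = ∫ x, ‖fderiv ℝ f x‖^2 ∂(gm n) := fun t => by
    rw [Ff_slice_pc n f hf t, G_eq_pc n f hf hC]
  simp_rw [h3]
  rw [setIntegral_const]
  simp only [measureReal_def, Real.volume_Ioc, sub_zero, smul_eq_mul]
  rw [ENNReal.toReal_ofReal (by positivity)]
  apply le_of_eq
  ring

theorem zero871_pc (n : ℕ) (f : E n → ℝ) (hf : Continuous f) (hodd : ∀ x, f (-x) = - f x) :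
    ∫ x, f x ∂(gm n) = 0 := by
  have h := ProbabilityTheory.stdGaussian_map (E := E n) (F := E n) (LinearIsometryEquiv.neg ℝ)
  have h1 := integral_map (μ := gm n) (φ := (LinearIsometryEquiv.neg ℝ : E n ≃ₗᵢ[ℝ] E n)) (f := f)
    (LinearIsometryEquiv.neg ℝ : E n ≃ₗᵢ[ℝ] E n).continuous.aemeasurable hf.aestronglyMeasurable
  have h2 : (gm n).map (LinearIsometryEquiv.neg ℝ : E n ≃ₗᵢ[ℝ] E n) = gm n := h
  rw [h2] at h1
  have h3 : ∫ x, f ((LinearIsometryEquiv.neg ℝ : E n ≃ₗᵢ[ℝ] E n) x) ∂(gm n) = - ∫ x, f x ∂(gm n) := by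
    rw [← integral_neg]
    refine integral_congr_ae (Filter.Eventually.of_forall fun x => ?_)
    simp [hodd]
  rw [h3] at h1
  linarith

theorem poinc (n : ℕ) (f : E n → ℝ) (hf : ContDiff ℝ 1 f) (hodd : ∀ x, f (-x) = - f x)
    (hC : ∀ x, ‖fderiv ℝ f x‖ ≤ 1) :
    ∫ x, (f x)^2 ∂(gm n) ≤ Real.pi^2/8 * ∫ x, ‖fderiv ℝ f x‖^2 ∂(gm n) := by
  have hmid := mid871_pc n f hf hC
  have hz := zero871_pc n f hf.continuous hodd
  have hf0 : f 0 = 0 := by
    have := hodd 0
    simp at this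
    linarith
  have hlip : ∀ x, |f x| ≤ ‖x‖ := by
    intro x
    have := Convex.norm_image_sub_le_of_norm_fderiv_le (𝕜 := ℝ) (f := f) (C := 1) (s := univ)
      (fun z _ => hf.differentiable (by norm_num) z) (fun z _ => hC z) convex_univ
      (mem_univ 0) (mem_univ x)
    simpa [hf0, Real.norm_eq_abs] using this
  have hsqi : Integrable (fun x => (f x)^2) (gm n) := by
    refine (gsq n).1.mono' (hf.continuous.pow 2).aestronglyMeasurable ?_
    refine Filter.Eventually.of_forall fun x => ?_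
    rw [Real.norm_eq_abs, abs_of_nonneg (by positivity), ← sq_abs (f x)]
    exact pow_le_pow_left₀ (abs_nonneg _) (hlip x) 2
  have hfi : Integrable f (gm n) := by
    have h1 : Integrable (fun x : E n => 1 + ‖x‖^2) (gm n) := (integrable_const 1).add (gsq n).1
    refine h1.mono' hf.continuous.aestronglyMeasurable ?_
    refine Filter.Eventually.of_forall fun x => ?_
    rw [Real.norm_eq_abs]
    have := hlip x
    nlinarith [sq_nonneg (‖x‖ - 1), sq_nonneg ‖x‖]
  have i1 : Integrable (fun p : E n × E n => (f p.1)^2) ((gm n).prod (gm n)) := hsqi.comp_fst (gm n)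
  have i2 : Integrable (fun p : E n × E n => (f p.2)^2) ((gm n).prod (gm n)) := hsqi.comp_snd (gm n)
  have i3 : Integrable (fun p : E n × E n => f p.1 * f p.2) ((gm n).prod (gm n)) := hfi.mul_prod hfi
  have e1 : ∫ p : E n × E n, (f p.1)^2 ∂((gm n).prod (gm n)) = ∫ x, (f x)^2 ∂(gm n) := by
    have := integral_fun_fst (μ := gm n) (ν := gm n) (fun x => (f x)^2)
    simpa using this
  have e2 : ∫ p : E n × E n, (f p.2)^2 ∂((gm n).prod (gm n)) = ∫ x, (f x)^2 ∂(gm n) := by
    have := integral_fun_snd (μ := gm n) (ν := gm n) (fun x => (f x)^2)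
    simpa using this
  have e3 : ∫ p : E n × E n, f p.1 * f p.2 ∂((gm n).prod (gm n)) = 0 := by
    rw [integral_prod_mul, hz]
    simp
  have e4 : ∫ p : E n × E n, (f p.1 - f p.2)^2 ∂((gm n).prod (gm n)) = 2 * ∫ x, (f x)^2 ∂(gm n) := by
    have e : ∀ p : E n × E n, (f p.1 - f p.2)^2 = ((f p.1)^2 + (f p.2)^2) - 2 * (f p.1 * f p.2) :=
      fun p => by ring
    simp_rw [e]
    have i12 : Integrable (fun p : E n × E n => (f p.1)^2 + (f p.2)^2) ((gm n).prod (gm n)) := i1.add i2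
    have i33 : Integrable (fun p : E n × E n => 2 * (f p.1 * f p.2)) ((gm n).prod (gm n)) := i3.const_mul 2
    rw [integral_sub i12 i33, integral_add i1 i2, integral_const_mul, e1, e2, e3]
    ring
  rw [e4] at hmid
  linarith

end Pool.Agent.PZ871.M_poinc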