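import Mathlib
import Pool.Agent.PZ871.Defs
import Pool.Agent.PZ871.Dat
import Pool.Agent.PZ871.Lin1
import Pool.Agent.PZ871.Poinc
import Pool.Agent.PZ871.Opt1
set_option autoImplicit false
set_option maxHeartbeats 1000000
namespace Pool.Agent.PZ871.M_beta
open Pool.Agent.PZ871.M_dat (dat)
open Pool.Agent.PZ871.M_lin1 (lin1)
open Pool.Agent.PZ871.M_poinc (poinc)
open Pool.Agent.PZ871.M_opt1 (opt1)
open MeasureTheory Set
open scoped RealInnerProductSpace ENNReal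











/- TO PROVE -/
theorem beta (n : ℕ) (K : Set (E n)) (hK : Body n K) (ho : NearOpt n K) (e : E n)
    (he : ‖e‖ = 1) :
    69/100 ≤ ∫ g, inner ℝ (fderiv ℝ (bar n K) g e) e ∂(gm n) := by
  have hD := dat n K hK
  haveI : IsProbabilityMeasure (gm n) := by unfold gm; infer_instance
  have hcd : ContDiff ℝ 1 (bar n K) := hD.smooth
  have hdiff : Differentiable ℝ (bar n K) := hcd.differentiable (by norm_num)
  have hcf : Continuous (fderiv ℝ (bar n K)) := hcd.continuous_fderiv (by norm_num)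
  set f : E n → ℝ := fun g => inner ℝ (bar n K g) e with hf
  have hfc : ContDiff ℝ 1 f := hcd.inner ℝ contDiff_const
  have hfd : ∀ g y, fderiv ℝ f g y = inner ℝ (fderiv ℝ (bar n K) g y) e := by
    intro g y
    have h := (hdiff g).hasFDerivAt.inner ℝ (hasFDerivAt_const e g)
    rw [h.fderiv]
    simp [ContinuousLinearMap.comp_apply, fderivInnerCLM_apply]
  have hnn : ∀ g x, 0 ≤ inner ℝ (fderiv ℝ (bar n K) g x) x := by
    intro g x
    rcases eq_or_ne x 0 with rfl | hx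
    · simp
    · exact (hD.pos g x hx).le
  have hAe : ∀ g, ‖fderiv ℝ (bar n K) g e‖ ^ 2 ≤ inner ℝ (fderiv ℝ (bar n K) g e) e := fun g =>
    (lin1 n (fderiv ℝ (bar n K) g) (hD.symm g) (hnn g) (hD.le1 g)).1 e
  have hle1 : ∀ g, inner ℝ (fderiv ℝ (bar n K) g e) e ≤ 1 := by
    intro g
    have := hD.le1 g e
    rw [he] at this
    linarith
  have hnf : ∀ g, ‖fderiv ℝ f g‖ ≤ ‖fderiv ℝ (bar n K) g e‖ := by
    intro g
    refine ContinuousLinearMap.opNorm_le_bound _ (norm_nonneg _) (fun y => ?_)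
    rw [hfd, hD.symm g y e, real_inner_comm]
    exact norm_inner_le_norm _ _
  have hnf2 : ∀ g, ‖fderiv ℝ f g‖ ^ 2 ≤ inner ℝ (fderiv ℝ (bar n K) g e) e := fun g =>
    (pow_le_pow_left₀ (norm_nonneg _) (hnf g) 2).trans (hAe g)
  have hC : ∀ g, ‖fderiv ℝ f g‖ ≤ 1 := by
    intro g
    have h1 : ‖fderiv ℝ f g‖ ^ 2 ≤ 1 := (hnf2 g).trans (hle1 g)
    have h2 := norm_nonneg (fderiv ℝ f g)
    nlinarith
  have hodd : ∀ g, f (-g) = - f g := by
    intro g
    simp only [hf]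
    rw [hD.odd g, inner_neg_left]
  have hp := poinc n f hfc hodd hC
  have hcont1 : Continuous (fun g => ‖fderiv ℝ f g‖ ^ 2) :=
    (hfc.continuous_fderiv (by norm_num)).norm.pow 2
  have hcont2 : Continuous (fun g => (inner ℝ (fderiv ℝ (bar n K) g e) e : ℝ)) :=
    (hcf.clm_apply continuous_const).inner continuous_const
  have hint1 : Integrable (fun g => ‖fderiv ℝ f g‖ ^ 2) (gm n) := by
    refine Integrable.of_bound hcont1.aestronglyMeasurable 1 (Filter.Eventually.of_forall fun g => ?_)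
    rw [Real.norm_of_nonneg (by positivity)]
    exact (hnf2 g).trans (hle1 g)
  have hint2 : Integrable (fun g => (inner ℝ (fderiv ℝ (bar n K) g e) e : ℝ)) (gm n) := by
    refine Integrable.of_bound hcont2.aestronglyMeasurable 1 (Filter.Eventually.of_forall fun g => ?_)
    rw [Real.norm_of_nonneg (hnn g e)]
    exact hle1 g
  have hmono : ∫ g, ‖fderiv ℝ f g‖ ^ 2 ∂(gm n) ≤ ∫ g, inner ℝ (fderiv ℝ (bar n K) g e) e ∂(gm n) :=
    integral_mono hint1 hint2 hnf2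
  have ha0 : 0 ≤ ∫ g, inner ℝ (fderiv ℝ (bar n K) g e) e ∂(gm n) := integral_nonneg fun g => hnn g e
  have hopt := opt1 n K hK ho e he
  obtain ⟨a, haeq⟩ : ∃ a : ℝ, a = ∫ g, inner ℝ (fderiv ℝ (bar n K) g e) e ∂(gm n) := ⟨_, rfl⟩
  obtain ⟨B, hBeq⟩ : ∃ B : ℝ, B = ∫ g, (inner ℝ (bar n K g) e)^2 ∂(gm n) := ⟨_, rfl⟩
  have hBp : B ≤ Real.pi^2/8 * ∫ g, ‖fderiv ℝ f g‖ ^ 2 ∂(gm n) := by rw [hBeq]; exact hp
  rw [← haeq, ← hBeq] at hopt
  rw [← haeq] at hmono ha0 ⊢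
  have hpi : Real.pi ^ 2 / 8 ≤ 12338 / 10000 := by
    have h1 := Real.pi_lt_d4
    have h2 := Real.pi_pos
    nlinarith
  have hB2 : B ≤ 12338 / 10000 * a := by
    refine hBp.trans ?_
    calc Real.pi^2/8 * ∫ g, ‖fderiv ℝ f g‖ ^ 2 ∂(gm n) ≤ Real.pi^2/8 * a :=
          mul_le_mul_of_nonneg_left hmono (by positivity)
      _ ≤ 12338 / 10000 * a := mul_le_mul_of_nonneg_right hpi ha0
  have hlog : 1 - (1 + 1/50 : ℝ)⁻¹ ≤ Real.log (1 + 1/50) := Real.one_sub_inv_le_log_of_pos (by norm_num)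
  have hlog2 : (0.0196 : ℝ) ≤ Real.log (1 + 1/50) := by
    refine le_trans ?_ hlog
    norm_num
  norm_num at hopt hlog2 ⊢
  nlinarith

end Pool.Agent.PZ871.M_beta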