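import Mathlib
import Pool.Agent.PZ871.Defs
import Pool.Agent.PZ871.Gdens
set_option autoImplicit false
set_option maxHeartbeats 1000000
namespace Pool.Agent.PZ871.M_gshift
open Pool.Agent.PZ871.M_gdens (gdens)
open MeasureTheory Set
open scoped RealInnerProductSpace ENNReal





theorem gshift_real (n : ℕ) (A : Set (E n)) (hA : MeasurableSet A) :
    (gm n).real A = ∫ x in A, ((2 * Real.pi) ^ (-(n:ℝ)/2) * Real.exp (-‖x‖^2/2)) := by
  have hc : 0 ≤ (2 * Real.pi) ^ (-(n:ℝ)/2) := by positivity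
  rw [measureReal_def, gdens, withDensity_apply _ hA, integral_eq_lintegral_of_nonneg_ae]
  · exact Filter.Eventually.of_forall (fun x => mul_nonneg hc (Real.exp_pos _).le)
  · apply Continuous.aestronglyMeasurable
    fun_prop

/- TO PROVE -/
theorem gshift (n : ℕ) (K : Set (E n)) (hK : IsCompact K) (hs : ∀ x ∈ K, -x ∈ K) (v : E n) :
    Real.exp (-‖v‖^2/2) * (gm n).real K ≤ (gm n).real ((fun x => v + x) '' K) := by
  have hc : 0 ≤ (2 * Real.pi) ^ (-(n:ℝ)/2) := by positivity
  set c : ℝ := (2 * Real.pi) ^ (-(n:ℝ)/2) with hcdef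
  have hmeas : MeasurableSet K := hK.measurableSet
  have himg : MeasurableSet ((fun x => v + x) '' K) :=
    (hK.image (by fun_prop)).measurableSet
  rw [gshift_real n K hmeas, gshift_real n _ himg]
  rw [← hcdef]
  have e1 : ∫ x in (fun x => v + x) '' K, c * Real.exp (-‖x‖^2/2) =
      ∫ x in K, c * Real.exp (-‖v + x‖^2/2) :=
    (measurePreserving_add_left (volume : Measure (E n)) v).setIntegral_image_emb
      (measurableEmbedding_addLeft v) _ _
  have hneg : (fun x : E n => -x) '' K = K := by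
    ext x
    constructor
    · rintro ⟨y, hy, rfl⟩
      exact hs y hy
    · intro hx
      exact ⟨-x, hs x hx, by simp⟩
  have e2 : ∫ x in K, c * Real.exp (-‖v + x‖^2/2) = ∫ x in K, c * Real.exp (-‖v + -x‖^2/2) := by
    have := (Measure.measurePreserving_neg (volume : Measure (E n))).setIntegral_image_emb
      (MeasurableEquiv.neg (E n)).measurableEmbedding (fun x => c * Real.exp (-‖v + x‖^2/2)) K
    rw [← this]
    congr 2
    exact hneg.symm
  have i1 : IntegrableOn (fun x : E n => c * Real.exp (-‖v + x‖^2/2)) K :=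
    ContinuousOn.integrableOn_compact hK (by fun_prop)
  have i2 : IntegrableOn (fun x : E n => c * Real.exp (-‖v + -x‖^2/2)) K :=
    ContinuousOn.integrableOn_compact hK (by fun_prop)
  have i3 : IntegrableOn (fun x : E n => Real.exp (-‖v‖^2/2) * (c * Real.exp (-‖x‖^2/2))) K :=
    ContinuousOn.integrableOn_compact hK (by fun_prop)
  have e3 : 2 * ∫ x in K, Real.exp (-‖v‖^2/2) * (c * Real.exp (-‖x‖^2/2)) ≤
      ∫ x in K, (c * Real.exp (-‖v + x‖^2/2) + c * Real.exp (-‖v + -x‖^2/2)) := by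
    rw [← integral_const_mul]
    apply setIntegral_mono (i3.const_mul 2) (i1.add i2)
    intro x
    show 2 * (Real.exp (-‖v‖^2/2) * (c * Real.exp (-‖x‖^2/2))) ≤
      c * Real.exp (-‖v + x‖^2/2) + c * Real.exp (-‖v + -x‖^2/2)
    have a1 : -‖v + x‖^2/2 = -‖v‖^2/2 + -‖x‖^2/2 + -(inner ℝ v x : ℝ) := by
      rw [norm_add_sq_real]; ring
    have a2 : -‖v + -x‖^2/2 = -‖v‖^2/2 + -‖x‖^2/2 + (inner ℝ v x : ℝ) := by
      rw [norm_add_sq_real, norm_neg, inner_neg_right]; ring
    rw [a1, a2]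
    simp only [Real.exp_add]
    have h1 : 2 ≤ Real.exp (-(inner ℝ v x : ℝ)) + Real.exp (inner ℝ v x : ℝ) := by
      have := Real.one_le_cosh (inner ℝ v x : ℝ)
      rw [Real.cosh_eq] at this
      linarith
    have h2 : 0 ≤ c * (Real.exp (-‖v‖^2/2) * Real.exp (-‖x‖^2/2)) := by positivity
    nlinarith [mul_le_mul_of_nonneg_left h1 h2]
  rw [integral_add i1 i2, ← e2] at e3
  rw [e1, ← integral_const_mul]
  linarith

end Pool.Agent.PZ871.M_gshift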