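import Mathlib
import Pool.Agent.PZ871.Defs
import Pool.Agent.PZ871.Gshift
set_option autoImplicit false
set_option maxHeartbeats 1000000
namespace Pool.Agent.PZ871.M_sep
open Pool.Agent.PZ871.M_gshift (gshift)
open MeasureTheory Set
open scoped RealInnerProductSpace ENNReal





/- TO PROVE -/
theorem sep (n : ℕ) (K : Set (E n)) (hK : Body n K) (η lam R : ℝ) (hη : 0 < η) (hη1 : η ≤ 1)
    (hlam : 0 < lam) (S : Finset (E n)) (hS : ∀ x ∈ S, (∃ y ∈ K, x = (2:ℝ) • y) ∧ ‖x‖^2 ≤ R)
    (hsep : ∀ x ∈ S, ∀ y ∈ S, x ≠ y → ¬ ∃ z ∈ K, x - y = η • z) :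
    (S.card : ℝ) * (Real.exp (-(lam^2 * R / 2)) *
      (gm n).real ((fun x => (lam * (η/2)) • x) '' K)) ≤
      (gm n).real ((fun x => (lam * (5/2)) • x) '' K) := by
  have h0 : (0 : E n) ∈ K := by
    obtain ⟨r, hr, hb⟩ := hK.int
    exact hb (Metric.mem_ball_self hr)
  set K' : Set (E n) := (fun x => (lam * (η/2)) • x) '' K with hK'
  have hK'c : IsCompact K' := hK.cpt.image (continuous_const_smul _)
  have hK's : ∀ x ∈ K', -x ∈ K' := by
    rintro _ ⟨x, hx, rfl⟩
    exact ⟨-x, hK.sym x hx, by simp⟩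
  set A : E n → Set (E n) := fun x => (fun u => lam • x + u) '' K' with hA
  have hAc : ∀ x, IsCompact (A x) := fun x => hK'c.image (continuous_const.add continuous_id)
  have hAm : ∀ x, MeasurableSet (A x) := fun x => (hAc x).measurableSet
  have hfin : IsFiniteMeasure (gm n) := by unfold gm; infer_instance
  have hge : ∀ x ∈ S, Real.exp (-(lam^2 * R / 2)) * (gm n).real K' ≤ (gm n).real (A x) := by
    intro x hx
    refine le_trans ?_ (gshift n K' hK'c hK's (lam • x))
    refine mul_le_mul_of_nonneg_right ?_ measureReal_nonneg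
    apply Real.exp_le_exp.mpr
    have h1 := (hS x hx).2
    have h2 : ‖lam • x‖^2 = lam^2 * ‖x‖^2 := by
      rw [norm_smul, mul_pow, Real.norm_eq_abs, sq_abs]
    rw [h2]
    have h3 : lam^2 * ‖x‖^2 ≤ lam^2 * R := mul_le_mul_of_nonneg_left h1 (sq_nonneg _)
    linarith
  have hdisj : Set.PairwiseDisjoint (↑S : Set (E n)) A := by
    intro x hx y hy hxy
    rw [Function.onFun, Set.disjoint_left]
    rintro _ ⟨_, ⟨z, hz, rfl⟩, rfl⟩ ⟨_, ⟨z', hz', rfl⟩, he⟩
    simp only at he
    apply hsep x hx y hy hxy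
    refine ⟨(1/2 : ℝ) • z' + (1/2 : ℝ) • (-z), ?_, ?_⟩
    · exact hK.cvx hz' (hK.sym z hz) (by norm_num) (by norm_num) (by norm_num)
    · have h1 : lam • (x - y) = lam • (η • ((1/2 : ℝ) • z' + (1/2 : ℝ) • (-z))) := by
        have : lam • (x - y) = (lam * (η/2)) • z' - (lam * (η/2)) • z := by
          rw [smul_sub, sub_eq_sub_iff_add_eq_add, ← he, add_comm]
        rw [this]
        simp only [smul_add, smul_neg, smul_smul]
        rw [sub_eq_add_neg]
        congr 2
        · ring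
        · congr 1
          ring
      exact smul_right_injective _ (ne_of_gt hlam) h1
  have hsub : (⋃ x ∈ S, A x) ⊆ (fun x => (lam * (5/2)) • x) '' K := by
    intro u hu
    simp only [Set.mem_iUnion] at hu
    obtain ⟨x, hx, _, ⟨z, hz, rfl⟩, rfl⟩ := hu
    obtain ⟨⟨y, hy, rfl⟩, -⟩ := hS x hx
    have hz1 : η • z ∈ K := by
      have := hK.cvx hz h0 (le_of_lt hη) (by linarith : (0:ℝ) ≤ 1 - η) (by ring)
      simpa using this
    refine ⟨(4/5 : ℝ) • y + (1/5 : ℝ) • (η • z), hK.cvx hy hz1 (by norm_num) (by norm_num)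
      (by norm_num), ?_⟩
    simp only [smul_add, smul_smul]
    congr 2
    · ring
    · ring
  calc (S.card : ℝ) * (Real.exp (-(lam^2 * R / 2)) * (gm n).real K')
      = ∑ _x ∈ S, Real.exp (-(lam^2 * R / 2)) * (gm n).real K' := by
        rw [Finset.sum_const, nsmul_eq_mul]
    _ ≤ ∑ x ∈ S, (gm n).real (A x) := Finset.sum_le_sum hge
    _ = (gm n).real (⋃ x ∈ S, A x) := by
        rw [measureReal_biUnion_finset hdisj (fun x _ => hAm x)]
    _ ≤ _ := measureReal_mono hsub

end Pool.Agent.PZ871.M_sep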