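import Mathlib
import Pool.Agent.PZ871.Defs
import Pool.Agent.PZ871.Sep
set_option autoImplicit false
set_option maxHeartbeats 1000000
namespace Pool.Agent.PZ871.M_cover
open Pool.Agent.PZ871.M_sep (sep)
open MeasureTheory Set
open scoped RealInnerProductSpace ENNReal





/- TO PROVE -/
theorem cover (n : ℕ) (K : Set (E n)) (hK : Body n K) (hlow : Real.exp (-(6 * n)) ≤ (gm n).real K)
    (η : ℝ) (hη : 0 < η) (hη1 : η ≤ 1) (m : ℕ) (hm : 1 ≤ m)
    (S : Finset (E n)) (hS : ∀ x ∈ S, (∃ y ∈ K, x = (2:ℝ) • y) ∧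
      ‖x‖^2 ≤ (2 * (η/5)^(2*m) / m) * n)
    (hsep : ∀ x ∈ S, ∀ y ∈ S, x ≠ y → ¬ ∃ z ∈ K, x - y = η • z) :
    (S.card : ℝ) ≤ Real.exp (7 * n / m) := by
  haveI : IsProbabilityMeasure (gm n) := by unfold gm; infer_instance
  set q : ℝ := 5 / η with hq
  have hq1 : 1 ≤ q := by rw [hq, le_div_iff₀ hη]; linarith
  have hq0 : 0 < q := lt_of_lt_of_le one_pos hq1
  have hm0 : (0 : ℝ) < m := by exact_mod_cast hm
  set μ : ℕ → ℝ := fun j => (gm n).real ((fun x => (q ^ j) • x) '' K) with hμ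
  have h0K : (0 : E n) ∈ K := by
    obtain ⟨r, hr, hb⟩ := hK.int
    exact hb (Metric.mem_ball_self hr)
  have hsub : ∀ c : ℝ, 1 ≤ c → K ⊆ (fun x => c • x) '' K := by
    intro c hc x hx
    have hc0 : 0 < c := lt_of_lt_of_le one_pos hc
    refine ⟨c⁻¹ • x, ?_, ?_⟩
    · have h := hK.cvx hx h0K (inv_nonneg.2 hc0.le) (sub_nonneg.2 (inv_le_one_of_one_le₀ hc))
        (by ring)
      simpa using h
    · show c • c⁻¹ • x = x
      rw [smul_smul, mul_inv_cancel₀ hc0.ne', one_smul]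
  have hμge : ∀ j, (gm n).real K ≤ μ j := by
    intro j
    exact measureReal_mono (hsub _ (one_le_pow₀ hq1))
  have hKpos : 0 < (gm n).real K := lt_of_lt_of_le (Real.exp_pos _) hlow
  have hμpos : ∀ j, 0 < μ j := fun j => lt_of_lt_of_le hKpos (hμge j)
  have hμle : ∀ j, μ j ≤ 1 := fun j => measureReal_le_one
  have hex : ∃ j < m, μ (j + 1) ≤ Real.exp (6 * n / m) * μ j := by
    by_contra hcon
    push Not at hcon
    have hind : ∀ j, j ≤ m → Real.exp (6 * n / m) ^ j * μ 0 ≤ μ j := by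
      intro j
      induction j with
      | zero => intro _; simp
      | succ j ih =>
        intro hj
        have h1 := ih (Nat.le_of_succ_le hj)
        have h2 := hcon j hj
        calc Real.exp (6 * n / m) ^ (j + 1) * μ 0
            = Real.exp (6 * n / m) * (Real.exp (6 * n / m) ^ j * μ 0) := by ring
          _ ≤ Real.exp (6 * n / m) * μ j := mul_le_mul_of_nonneg_left h1 (Real.exp_pos _).le
          _ ≤ μ (j + 1) := h2.le
    obtain ⟨k, rfl⟩ : ∃ k, m = k + 1 := ⟨m - 1, by omega⟩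
    have h1 := hind k (Nat.le_succ k)
    have h2 := hcon k (Nat.lt_succ_self k)
    have h3 : Real.exp (6 * n / ((k + 1 : ℕ) : ℝ)) ^ (k + 1) * μ 0 < μ (k + 1) := by
      calc Real.exp (6 * n / ((k + 1 : ℕ) : ℝ)) ^ (k + 1) * μ 0
          = Real.exp (6 * n / ((k + 1 : ℕ) : ℝ)) * (Real.exp (6 * n / ((k + 1 : ℕ) : ℝ)) ^ k * μ 0) := by
            ring
        _ ≤ Real.exp (6 * n / ((k + 1 : ℕ) : ℝ)) * μ k :=
            mul_le_mul_of_nonneg_left h1 (Real.exp_pos _).le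
        _ < μ (k + 1) := h2
    have h4 : Real.exp (6 * n / ((k + 1 : ℕ) : ℝ)) ^ (k + 1) = Real.exp (6 * n) := by
      rw [← Real.exp_nat_mul]
      congr 1
      field_simp
    have h5 : Real.exp (-(6 * n)) ≤ μ 0 := le_trans hlow (hμge 0)
    have h6 : (1 : ℝ) ≤ Real.exp (6 * n) * μ 0 := by
      calc (1 : ℝ) = Real.exp (6 * n) * Real.exp (-(6 * n)) := by
            rw [← Real.exp_add]; simp
        _ ≤ Real.exp (6 * n) * μ 0 := mul_le_mul_of_nonneg_left h5 (Real.exp_pos _).le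
    rw [h4] at h3
    linarith [hμle (k + 1)]
  obtain ⟨j, hj, hj2⟩ := hex
  have hlam : 0 < (2 / 5) * q ^ (j + 1) := by positivity
  have H := sep n K hK η ((2 / 5) * q ^ (j + 1)) ((2 * (η/5)^(2*m) / m) * n) hη hη1 hlam S hS hsep
  have e1 : (2 / 5) * q ^ (j + 1) * (η / 2) = q ^ j := by
    rw [pow_succ, hq]
    field_simp
  have e2 : (2 / 5) * q ^ (j + 1) * (5 / 2) = q ^ (j + 1) := by ring
  rw [e1, e2] at H
  have e3 : ((2 / 5) * q ^ (j + 1)) ^ 2 * ((2 * (η/5)^(2*m) / m) * n) / 2 ≤ n / m := by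
    have h1 : q ^ (2 * (j + 1)) * (η / 5) ^ (2 * m) ≤ 1 := by
      have h2 : q ^ (2 * (j + 1)) ≤ q ^ (2 * m) := pow_le_pow_right₀ hq1 (by omega)
      have h3 : q ^ (2 * m) * (η / 5) ^ (2 * m) = 1 := by
        rw [← mul_pow, hq]
        have : 5 / η * (η / 5) = 1 := by field_simp
        rw [this, one_pow]
      calc q ^ (2 * (j + 1)) * (η / 5) ^ (2 * m) ≤ q ^ (2 * m) * (η / 5) ^ (2 * m) :=
            mul_le_mul_of_nonneg_right h2 (by positivity)
        _ = 1 := h3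
    have h4 : ((2 / 5) * q ^ (j + 1)) ^ 2 * ((2 * (η/5)^(2*m) / m) * n) / 2
        = (4 / 25) * (q ^ (2 * (j + 1)) * (η / 5) ^ (2 * m)) * (n / m) := by
      have : (q ^ (j + 1)) ^ 2 = q ^ (2 * (j + 1)) := by rw [← pow_mul, mul_comm]
      rw [mul_pow, this]
      ring
    rw [h4]
    have h5 : (0 : ℝ) ≤ n / m := by positivity
    have h6 : (4 / 25) * (q ^ (2 * (j + 1)) * (η / 5) ^ (2 * m)) ≤ 1 := by linarith
    calc (4 / 25) * (q ^ (2 * (j + 1)) * (η / 5) ^ (2 * m)) * (n / m) ≤ 1 * (n / m) :=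
          mul_le_mul_of_nonneg_right h6 h5
      _ = n / m := one_mul _
  have e4 : Real.exp (-(n / m)) ≤
      Real.exp (-(((2 / 5) * q ^ (j + 1)) ^ 2 * ((2 * (η/5)^(2*m) / m) * n) / 2)) :=
    Real.exp_le_exp.2 (neg_le_neg e3)
  have hμj : (gm n).real ((fun x => (q ^ j) • x) '' K) = μ j := rfl
  have hμj1 : (gm n).real ((fun x => (q ^ (j + 1)) • x) '' K) = μ (j + 1) := rfl
  rw [hμj, hμj1] at H
  have c0 : (0 : ℝ) ≤ S.card := Nat.cast_nonneg _
  have H2 : (S.card : ℝ) * Real.exp (-(n / m)) * μ j ≤ Real.exp (6 * n / m) * μ j := by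
    calc (S.card : ℝ) * Real.exp (-(n / m)) * μ j
        = (S.card : ℝ) * (Real.exp (-(n / m)) * μ j) := by ring
      _ ≤ _ := mul_le_mul_of_nonneg_left (mul_le_mul_of_nonneg_right e4 (hμpos j).le) c0
      _ ≤ μ (j + 1) := H
      _ ≤ _ := hj2
  have H3 : (S.card : ℝ) * Real.exp (-(n / m)) ≤ Real.exp (6 * n / m) :=
    le_of_mul_le_mul_right H2 (hμpos j)
  calc (S.card : ℝ) = ((S.card : ℝ) * Real.exp (-(n / m))) * Real.exp (n / m) := by
        rw [mul_assoc, ← Real.exp_add]; simp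
    _ ≤ Real.exp (6 * n / m) * Real.exp (n / m) :=
        mul_le_mul_of_nonneg_right H3 (Real.exp_pos _).le
    _ = Real.exp (7 * n / m) := by
        rw [← Real.exp_add]; congr 1; ring

end Pool.Agent.PZ871.M_cover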