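import Mathlib
import Pool.Agent.PZ871.Defs
import Pool.Agent.PZ871.Gdens
set_option autoImplicit false
set_option maxHeartbeats 1000000
namespace Pool.Agent.PZ871.M_gscale
open Pool.Agent.PZ871.M_gdens (gdens)
open MeasureTheory Set
open scoped RealInnerProductSpace ENNReal





/- TO PROVE -/
theorem gscale (n : ℕ) (K : Set (E n)) (hK : IsCompact K) (t : ℝ) (ht : 1 ≤ t) :
    (gm n).real ((fun x => t • x) '' K) ≤ t ^ n * (gm n).real K := by
  have ht0 : 0 < t := by linarith
  have hKm : MeasurableSet K := hK.isClosed.measurableSet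
  have hTm : MeasurableSet ((fun x : E n => t • x) '' K) :=
    (hK.image (continuous_const_smul t)).isClosed.measurableSet
  have hprob : IsProbabilityMeasure (gm n) := by unfold gm; infer_instance
  have key : (gm n) ((fun x : E n => t • x) '' K) ≤ ENNReal.ofReal (t ^ n) * (gm n) K := by
    rw [gdens n, withDensity_apply _ hTm, withDensity_apply _ hKm]
    have hinj : Set.InjOn (fun x : E n => t • x) K := fun x _ y _ hxy => smul_right_injective (E n) ht0.ne' hxy
    have hder : ∀ x ∈ K, HasFDerivWithinAt (fun x : E n => t • x)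
        (t • ContinuousLinearMap.id ℝ (E n)) K x := fun x _ =>
      ((hasFDerivAt_id x).const_smul t).hasFDerivWithinAt
    rw [lintegral_image_eq_lintegral_abs_det_fderiv_mul volume hKm hder hinj]
    have hdet : ∀ x : E n, ((fun _ : E n => t • ContinuousLinearMap.id ℝ (E n)) x).det = t ^ n := by
      intro x
      have h1 : (t • ContinuousLinearMap.id ℝ (E n)).det =
          LinearMap.det (t • (LinearMap.id : E n →ₗ[ℝ] E n)) := rfl
      show (t • ContinuousLinearMap.id ℝ (E n)).det = t ^ n
      rw [h1, LinearMap.det_smul, LinearMap.det_id, mul_one, finrank_euclideanSpace_fin]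
    have hdet' : (t • ContinuousLinearMap.id ℝ (E n)).det = t ^ n := hdet 0
    rw [hdet', abs_of_pos (by positivity),
      lintegral_const_mul' _ _ ENNReal.ofReal_ne_top]
    refine mul_le_mul' le_rfl (setLIntegral_mono' hKm fun x _ => ?_)
    apply ENNReal.ofReal_le_ofReal
    refine mul_le_mul_of_nonneg_left ?_ (by positivity)
    rw [Real.exp_le_exp, norm_smul, Real.norm_eq_abs, abs_of_pos ht0]
    have h2 : ‖x‖ ^ 2 ≤ (t * ‖x‖) ^ 2 := by
      apply pow_le_pow_left₀ (norm_nonneg x)
      exact le_mul_of_one_le_left (norm_nonneg x) ht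
    linarith
  unfold Measure.real
  have h3 : (ENNReal.ofReal (t ^ n) * (gm n) K).toReal = t ^ n * ((gm n) K).toReal := by
    rw [ENNReal.toReal_mul, ENNReal.toReal_ofReal (by positivity)]
  rw [← h3]
  exact ENNReal.toReal_mono (ENNReal.mul_ne_top ENNReal.ofReal_ne_top (measure_ne_top _ _)) key

end Pool.Agent.PZ871.M_gscale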