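import Mathlib
import Pool.Agent.PZ871.Defs
import Pool.Agent.PZ871.Gdens
import Pool.Agent.PZ871.Gint
import Pool.Agent.PZ871.Lin1
set_option autoImplicit false
set_option maxHeartbeats 1000000
namespace Pool.Agent.PZ871.M_cv
open Pool.Agent.PZ871.M_gdens (gdens)
open Pool.Agent.PZ871.M_gint (gint)
open Pool.Agent.PZ871.M_lin1 (lin1)
open MeasureTheory Set
open scoped RealInnerProductSpace ENNReal









/-- the map of the change of variables -/
noncomputable def cvT (n : ℕ) (b : E n → E n) (u x : E n) : E n :=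
  (Real.sqrt 2)⁻¹ • (b ((Real.sqrt 2)⁻¹ • (x + u)) + b ((Real.sqrt 2)⁻¹ • (x - u)))

/-- its derivative -/
noncomputable def cvD (n : ℕ) (b : E n → E n) (u x : E n) : E n →L[ℝ] E n :=
  (1/2:ℝ) • (fderiv ℝ b ((Real.sqrt 2)⁻¹ • (x + u)) + fderiv ℝ b ((Real.sqrt 2)⁻¹ • (x - u)))

theorem cv_der (n : ℕ) (b : E n → E n) (hb : ContDiff ℝ 1 b) (u x : E n) :
    HasFDerivAt (cvT n b u) (cvD n b u x) x := by
  have hd : ∀ y, HasFDerivAt b (fderiv ℝ b y) y := fun y =>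
    (hb.differentiable (by norm_num) y).hasFDerivAt
  have h1 : HasFDerivAt (fun x : E n => (Real.sqrt 2)⁻¹ • (x + u))
      ((Real.sqrt 2)⁻¹ • ContinuousLinearMap.id ℝ (E n)) x :=
    HasFDerivAt.const_smul (f := fun x : E n => x + u) ((hasFDerivAt_id x).add_const u)
      ((Real.sqrt 2)⁻¹)
  have h2 : HasFDerivAt (fun x : E n => (Real.sqrt 2)⁻¹ • (x - u))
      ((Real.sqrt 2)⁻¹ • ContinuousLinearMap.id ℝ (E n)) x :=
    HasFDerivAt.const_smul (f := fun x : E n => x - u) ((hasFDerivAt_id x).sub_const u)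
      ((Real.sqrt 2)⁻¹)
  have h3 : HasFDerivAt (fun x : E n => b ((Real.sqrt 2)⁻¹ • (x + u))) _ x :=
    HasFDerivAt.comp x (hd ((Real.sqrt 2)⁻¹ • (x + u))) h1
  have h4 : HasFDerivAt (fun x : E n => b ((Real.sqrt 2)⁻¹ • (x - u))) _ x :=
    HasFDerivAt.comp x (hd ((Real.sqrt 2)⁻¹ • (x - u))) h2
  have h5 := (h3.add h4).const_smul ((Real.sqrt 2)⁻¹)
  refine HasFDerivAt.congr_fderiv (f := cvT n b u) h5 ?_
  have hs : (Real.sqrt 2)⁻¹ * (Real.sqrt 2)⁻¹ = 1/2 := by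
    rw [← mul_inv, Real.mul_self_sqrt (by norm_num)]
    norm_num
  refine ContinuousLinearMap.ext fun y => ?_
  show (Real.sqrt 2)⁻¹ • (fderiv ℝ b ((Real.sqrt 2)⁻¹ • (x + u)) ((Real.sqrt 2)⁻¹ • y) +
    fderiv ℝ b ((Real.sqrt 2)⁻¹ • (x - u)) ((Real.sqrt 2)⁻¹ • y)) =
    (1/2:ℝ) • (fderiv ℝ b ((Real.sqrt 2)⁻¹ • (x + u)) y + fderiv ℝ b ((Real.sqrt 2)⁻¹ • (x - u)) y)
  rw [map_smul, map_smul, ← smul_add, smul_smul, hs]

theorem cv_pos (n : ℕ) (K : Set (E n)) (b : E n → E n) (hb : Dat n K b) (u x v : E n)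
    (hv : v ≠ 0) : 0 < inner ℝ (cvD n b u x v) v := by
  have h1 := hb.pos ((Real.sqrt 2)⁻¹ • (x + u)) v hv
  have h2 := hb.pos ((Real.sqrt 2)⁻¹ • (x - u)) v hv
  have h3 : inner ℝ (cvD n b u x v) v = (1/2:ℝ) *
      (inner ℝ (fderiv ℝ b ((Real.sqrt 2)⁻¹ • (x + u)) v) v +
        inner ℝ (fderiv ℝ b ((Real.sqrt 2)⁻¹ • (x - u)) v) v) := by
    show inner ℝ ((1/2:ℝ) • (fderiv ℝ b ((Real.sqrt 2)⁻¹ • (x + u)) v +
      fderiv ℝ b ((Real.sqrt 2)⁻¹ • (x - u)) v)) v = _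
    rw [real_inner_smul_left, inner_add_left]
  rw [h3]
  linarith

theorem cv_inj (n : ℕ) (K : Set (E n)) (b : E n → E n) (hb : Dat n K b) (u : E n) :
    Function.Injective (cvT n b u) := by
  intro x y hxy
  by_contra hne
  set v : E n := x - y with hv
  have hv0 : v ≠ 0 := sub_ne_zero.2 hne
  have hder : ∀ t : ℝ, HasDerivAt (fun t : ℝ => inner ℝ (cvT n b u (y + t • v)) v)
      (inner ℝ (cvD n b u (y + t • v) v) v) t := by
    intro t
    have h1 : HasDerivAt (fun t : ℝ => y + t • v) v t := by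
      simpa using ((hasDerivAt_id t).smul_const v).const_add y
    have h2 : HasDerivAt (fun t : ℝ => cvT n b u (y + t • v)) (cvD n b u (y + t • v) v) t :=
      HasFDerivAt.comp_hasDerivAt (l := cvT n b u) (f := fun t : ℝ => y + t • v) t
        (cv_der n b hb.smooth u (y + t • v)) h1
    have h3 := h2.inner ℝ (hasDerivAt_const t v)
    simpa using h3
  have hmono : StrictMono (fun t : ℝ => inner ℝ (cvT n b u (y + t • v)) v) := by
    apply strictMono_of_deriv_pos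
    intro t
    rw [(hder t).deriv]
    exact cv_pos n K b hb u _ v hv0
  have h01 := hmono (zero_lt_one (α := ℝ))
  simp only [zero_smul, add_zero, one_smul] at h01
  rw [show y + v = x by rw [hv]; abel, hxy] at h01
  exact lt_irrefl _ h01

theorem cv_norm (n : ℕ) (K : Set (E n)) (b : E n → E n) (hb : Dat n K b) (u x : E n) :
    ‖cvT n b u x‖ ≤ ‖x‖ := by
  have hA : ∀ g, ‖fderiv ℝ b g‖ ≤ 1 := by
    intro g
    refine (lin1 n (fderiv ℝ b g) (hb.symm g) ?_ (hb.le1 g)).2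
    intro z
    by_cases hz : z = 0
    · rw [hz, map_zero, inner_zero_left]
    · exact (hb.pos g z hz).le
  have hD : ∀ z, ‖cvD n b u z‖ ≤ 1 := by
    intro z
    unfold cvD
    rw [norm_smul]
    have h1 := norm_add_le (fderiv ℝ b ((Real.sqrt 2)⁻¹ • (z + u)))
      (fderiv ℝ b ((Real.sqrt 2)⁻¹ • (z - u)))
    have h2 := hA ((Real.sqrt 2)⁻¹ • (z + u))
    have h3 := hA ((Real.sqrt 2)⁻¹ • (z - u))
    have h4 : ‖(1/2:ℝ)‖ = 1/2 := by norm_num
    rw [h4]
    linarith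
  have h0 : cvT n b u 0 = 0 := by
    unfold cvT
    rw [zero_add, zero_sub, smul_neg, hb.odd, add_neg_cancel, smul_zero]
  have h := (convex_univ (𝕜 := ℝ) (E := E n)).norm_image_sub_le_of_norm_hasFDerivWithin_le
    (f := cvT n b u) (f' := cvD n b u) (C := 1)
    (fun z _ => (cv_der n b hb.smooth u z).hasFDerivWithinAt) (fun z _ => hD z)
    (mem_univ (0 : E n)) (mem_univ x)
  rw [h0, sub_zero, sub_zero, one_mul] at h
  exact h

theorem cv_mem (n : ℕ) (K : Set (E n)) (hK : Body n K) (b : E n → E n) (hb : Dat n K b)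
    (u x : E n) : cvT n b u x ∈ (fun x => (Real.sqrt 2) • x) '' K := by
  refine ⟨(1/2:ℝ) • b ((Real.sqrt 2)⁻¹ • (x + u)) + (1/2:ℝ) • b ((Real.sqrt 2)⁻¹ • (x - u)),
    hK.cvx (hb.mem _) (hb.mem _) (by norm_num) (by norm_num) (by norm_num), ?_⟩
  have hs : Real.sqrt 2 * (1/2) = (Real.sqrt 2)⁻¹ := by
    have h1 : Real.sqrt 2 * Real.sqrt 2 = 2 := Real.mul_self_sqrt (by norm_num)
    have h2 : Real.sqrt 2 ≠ 0 := by positivity
    field_simp
    nlinarith
  show Real.sqrt 2 • ((1/2:ℝ) • b ((Real.sqrt 2)⁻¹ • (x + u)) +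
    (1/2:ℝ) • b ((Real.sqrt 2)⁻¹ • (x - u))) = cvT n b u x
  unfold cvT
  rw [← smul_add, smul_smul, hs]

theorem cv_meas (n : ℕ) (b : E n → E n) (hb : ContDiff ℝ 1 b) (u : E n) :
    Measurable (fun x => ENNReal.ofReal ((cvD n b u x).det)) := by
  have hc : Continuous (fderiv ℝ b) := hb.continuous_fderiv (by norm_num)
  have h1 : Continuous (cvD n b u) := by
    have c1 : Continuous (fun x : E n => (Real.sqrt 2)⁻¹ • (x + u)) := by fun_prop
    have c2 : Continuous (fun x : E n => (Real.sqrt 2)⁻¹ • (x - u)) := by fun_prop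
    exact ((hc.comp c1).add (hc.comp c2)).const_smul (1/2:ℝ)
  exact (ContinuousLinearMap.continuous_det.comp h1).measurable.ennreal_ofReal

/- TO PROVE -/
theorem cv (n : ℕ) (K : Set (E n)) (hK : Body n K) (b : E n → E n) (hb : Dat n K b) (u : E n) :
    ∫⁻ x, ENNReal.ofReal (LinearMap.det (((1/2:ℝ) •
      (fderiv ℝ b ((Real.sqrt 2)⁻¹ • (x + u)) + fderiv ℝ b ((Real.sqrt 2)⁻¹ • (x - u))) :
        E n →L[ℝ] E n) : E n →ₗ[ℝ] E n)) ∂(gm n)
      ≤ (gm n) ((fun x => (Real.sqrt 2) • x) '' K) := by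
  show ∫⁻ x, ENNReal.ofReal ((cvD n b u x).det) ∂(gm n) ≤ _
  set ρ : E n → ℝ≥0∞ := fun x =>
    ENNReal.ofReal ((2 * Real.pi) ^ (-(n:ℝ)/2) * Real.exp (-‖x‖^2/2)) with hρ
  have hρm : Measurable ρ := by
    have : Continuous (fun x : E n => (2 * Real.pi) ^ (-(n:ℝ)/2) * Real.exp (-‖x‖^2/2)) := by
      fun_prop
    exact this.measurable.ennreal_ofReal
  have hg : gm n = (volume : Measure (E n)).withDensity ρ := gdens n
  have hρT : ∀ x, ρ x ≤ ρ (cvT n b u x) := by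
    intro x
    have h1 := cv_norm n K b hb u x
    refine ENNReal.ofReal_le_ofReal ?_
    refine mul_le_mul_of_nonneg_left (Real.exp_le_exp.2 ?_) (by positivity)
    have h2 : ‖cvT n b u x‖ ^ 2 ≤ ‖x‖ ^ 2 := pow_le_pow_left₀ (norm_nonneg _) h1 2
    linarith
  have hcv := lintegral_image_eq_lintegral_abs_det_fderiv_mul (volume : Measure (E n))
    MeasurableSet.univ (f := cvT n b u) (f' := cvD n b u)
    (fun x _ => (cv_der n b hb.smooth u x).hasFDerivWithinAt)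
    ((cv_inj n K b hb u).injOn) ρ
  calc ∫⁻ x, ENNReal.ofReal ((cvD n b u x).det) ∂(gm n)
      = ∫⁻ x, (ρ * fun x => ENNReal.ofReal ((cvD n b u x).det)) x := by
        rw [hg, lintegral_withDensity_eq_lintegral_mul _ hρm (cv_meas n b hb.smooth u)]
    _ ≤ ∫⁻ x, ENNReal.ofReal |(cvD n b u x).det| * ρ (cvT n b u x) := by
        refine lintegral_mono fun x => ?_
        show ρ x * ENNReal.ofReal ((cvD n b u x).det) ≤ _
        rw [mul_comm]
        exact mul_le_mul' (ENNReal.ofReal_le_ofReal (le_abs_self _)) (hρT x)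
    _ = ∫⁻ x in cvT n b u '' univ, ρ x := by
        rw [hcv, Measure.restrict_univ]
    _ = (gm n) (cvT n b u '' univ) := by
        rw [hg, withDensity_apply']
    _ ≤ (gm n) ((fun x => (Real.sqrt 2) • x) '' K) := by
        refine measure_mono ?_
        rintro _ ⟨x, -, rfl⟩
        exact cv_mem n K hK b hb u x

end Pool.Agent.PZ871.M_cv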