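import Mathlib
import Pool.Agent.PZ871.Defs
import Pool.Agent.PZ871.Cv
import Pool.Agent.PZ871.Grot
set_option autoImplicit false
set_option maxHeartbeats 1000000
namespace Pool.Agent.PZ871.M_cv2
open Pool.Agent.PZ871.M_cv (cv)
open Pool.Agent.PZ871.M_grot (grot)
open MeasureTheory Set
open scoped RealInnerProductSpace ENNReal







/- TO PROVE -/
theorem cv2 (n : ℕ) (K : Set (E n)) (hK : Body n K) (b : E n → E n) (hb : Dat n K b) :
    ∫⁻ x, ∫⁻ y, ENNReal.ofReal (LinearMap.det (((1/2:ℝ) •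
      (fderiv ℝ b x + fderiv ℝ b y) : E n →L[ℝ] E n) : E n →ₗ[ℝ] E n)) ∂(gm n) ∂(gm n)
      ≤ (gm n) ((fun x => (Real.sqrt 2) • x) '' K) := by
  haveI : IsProbabilityMeasure (gm n) := by unfold gm; infer_instance
  set F : E n × E n → ℝ≥0∞ := fun p => ENNReal.ofReal (LinearMap.det (((1/2:ℝ) •
      (fderiv ℝ b p.1 + fderiv ℝ b p.2) : E n →L[ℝ] E n) : E n →ₗ[ℝ] E n)) with hF
  have hfd : Continuous (fderiv ℝ b) := hb.smooth.continuous_fderiv (by norm_num)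
  have hdet : Continuous (fun f : E n →L[ℝ] E n => LinearMap.det (f : E n →ₗ[ℝ] E n)) :=
    ContinuousLinearMap.continuous_det
  have hFc : Continuous F := by
    rw [hF]
    apply ENNReal.continuous_ofReal.comp
    apply hdet.comp
    exact ((hfd.comp continuous_fst).add (hfd.comp continuous_snd)).const_smul (1/2 : ℝ)
  have hFm : Measurable F := hFc.measurable
  have hs : ((Real.sqrt 2)⁻¹)^2 + ((Real.sqrt 2)⁻¹)^2 = 1 := by
    rw [inv_pow, Real.sq_sqrt (by norm_num)]; norm_num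
  have hg := grot n (Real.sqrt 2)⁻¹ (Real.sqrt 2)⁻¹ hs
  have e1 : ∫⁻ x, ∫⁻ y, F (x, y) ∂(gm n) ∂(gm n) = ∫⁻ p, F p ∂((gm n).prod (gm n)) :=
    (lintegral_prod F hFm.aemeasurable).symm
  have e2 := hg.lintegral_comp hFm
  have e3 : ∫⁻ p, F ((fun p : E n × E n => ((Real.sqrt 2)⁻¹ • p.1 + (Real.sqrt 2)⁻¹ • p.2,
      (Real.sqrt 2)⁻¹ • p.1 - (Real.sqrt 2)⁻¹ • p.2)) p) ∂((gm n).prod (gm n)) =
      ∫⁻ u, ∫⁻ x, F ((fun p : E n × E n => ((Real.sqrt 2)⁻¹ • p.1 + (Real.sqrt 2)⁻¹ • p.2,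
      (Real.sqrt 2)⁻¹ • p.1 - (Real.sqrt 2)⁻¹ • p.2)) (x, u)) ∂(gm n) ∂(gm n) := by
    apply lintegral_prod_symm
    exact (hFm.comp hg.measurable).aemeasurable
  show ∫⁻ x, ∫⁻ y, F (x, y) ∂(gm n) ∂(gm n) ≤ _
  rw [e1, ← e2, e3]
  calc _ ≤ ∫⁻ _u : E n, (gm n) ((fun x => (Real.sqrt 2) • x) '' K) ∂(gm n) := by
        apply lintegral_mono
        intro u
        refine le_trans (le_of_eq ?_) (cv n K hK b hb u)
        apply lintegral_congr
        intro x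
        simp only [hF, smul_add, smul_sub]
    _ = _ := by simp

end Pool.Agent.PZ871.M_cv2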