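import Mathlib
import Pool.Agent.PZ871.Defs
set_option autoImplicit false
set_option maxHeartbeats 1000000
namespace Pool.Agent.PZ871.M_trj

open Matrix in
open scoped MatrixOrder in
theorem trj_sqrt (n : ℕ) (B : Matrix (Fin n) (Fin n) ℝ) (hB : B.PosSemidef) :
    ∃ R : Matrix (Fin n) (Fin n) ℝ, Rᵀ = R ∧ R * R = B := by
  obtain ⟨X, hX, -, hXX⟩ :=
    CFC.exists_sqrt_of_isSelfAdjoint_of_quasispectrumRestricts hB.isHermitian
      (QuasispectrumRestricts.nnreal_of_nonneg hB.nonneg)
  refine ⟨X, ?_, hXX⟩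
  have := hX.star_eq
  rw [Matrix.star_eq_conjTranspose] at this
  simpa using this

open Matrix in
/-- spectral theorem in the form used -/
theorem trj_spec (n : ℕ) (N : Matrix (Fin n) (Fin n) ℝ) (hN : N.IsHermitian) :
    ∃ (U : Matrix (Fin n) (Fin n) ℝ) (μ : Fin n → ℝ), Uᵀ * U = 1 ∧ U * Uᵀ = 1 ∧
      Uᵀ * N * U = diagonal μ ∧ (1 + N).det = ∏ j, (1 + μ j) := by
  classical
  have h := hN.spectral_theorem
  rw [Unitary.conjStarAlgAut_apply] at h
  set U : Matrix (Fin n) (Fin n) ℝ := (hN.eigenvectorUnitary : Matrix (Fin n) (Fin n) ℝ) with hU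
  have h1 : Uᵀ * U = 1 := by
    have := Unitary.coe_star_mul_self hN.eigenvectorUnitary
    simpa [Matrix.star_eq_conjTranspose] using this
  have h2 : U * Uᵀ = 1 := by
    have := Unitary.coe_mul_star_self hN.eigenvectorUnitary
    simpa [Matrix.star_eq_conjTranspose] using this
  have h3 : N = U * diagonal hN.eigenvalues * Uᵀ := by
    have e : (star hN.eigenvectorUnitary : Matrix (Fin n) (Fin n) ℝ) = Uᵀ := by
      simp [Matrix.star_eq_conjTranspose, hU]
    rw [e] at h
    exact h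
  refine ⟨U, hN.eigenvalues, h1, h2, ?_, ?_⟩
  · calc Uᵀ * N * U = Uᵀ * (U * diagonal hN.eigenvalues * Uᵀ) * U :=
          congrArg (fun M => Uᵀ * M * U) h3
      _ = (Uᵀ * U) * diagonal hN.eigenvalues * (Uᵀ * U) := by simp only [Matrix.mul_assoc]
      _ = _ := by rw [h1]; simp
  · have h4 : 1 + N = U * diagonal (fun j => 1 + hN.eigenvalues j) * Uᵀ := by
      have e1 : diagonal (fun j => 1 + hN.eigenvalues j) = 1 + diagonal hN.eigenvalues := by
        rw [← Matrix.diagonal_one, Matrix.diagonal_add]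
      rw [e1, Matrix.mul_add, Matrix.add_mul, Matrix.mul_one, h2, ← h3]
    rw [h4, Matrix.det_mul, Matrix.det_mul, mul_right_comm, ← Matrix.det_mul, h2,
      Matrix.det_one, one_mul, Matrix.det_diagonal]

open Matrix in
theorem trj_core (n : ℕ) (a : Fin n → ℝ) (ha : ∀ i, 0 < a i) (B : Matrix (Fin n) (Fin n) ℝ)
    (hB : B.PosSemidef) (hB1 : ∀ x : Fin n → ℝ, x ⬝ᵥ (B *ᵥ x) ≤ x ⬝ᵥ x) :
    0 < (diagonal a + B).det ∧
      ∑ i, Real.log (a i) - ∑ i, B i i * Real.log (a i) ≤ Real.log (diagonal a + B).det := by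
  classical
  obtain ⟨R, hRt, hRR⟩ := trj_sqrt n B hB
  set D : Matrix (Fin n) (Fin n) ℝ := diagonal a with hD
  set Di : Matrix (Fin n) (Fin n) ℝ := diagonal (fun i => (a i)⁻¹) with hDi
  have hDDi : D * Di = 1 := by
    rw [hD, hDi, Matrix.diagonal_mul_diagonal]
    rw [← Matrix.diagonal_one]; congr 1; funext i; exact mul_inv_cancel₀ (ha i).ne'
  have hfac : D + B = D * (1 + Di * R * R) := by
    rw [Matrix.mul_add, Matrix.mul_one, ← Matrix.mul_assoc, ← Matrix.mul_assoc, hDDi,
      Matrix.one_mul, hRR]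
  have hN : (R * (Di * R)).IsHermitian := by
    rw [Matrix.IsHermitian, Matrix.conjTranspose_mul, Matrix.conjTranspose_mul]
    simp only [Matrix.conjTranspose_eq_transpose_of_trivial, hRt, hDi, Matrix.diagonal_transpose]
    rw [Matrix.mul_assoc]
  obtain ⟨U, μ, hUU, hUU', hdiag, hdet⟩ := trj_spec n _ hN
  have hdetD : D.det = ∏ i, a i := Matrix.det_diagonal
  have hdet2 : (D + B).det = (∏ i, a i) * ∏ j, (1 + μ j) := by
    rw [hfac, Matrix.det_mul, Matrix.det_one_add_mul_comm, hdetD, hdet]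
  -- p i j = (R U)_{ij}^2
  set P : Matrix (Fin n) (Fin n) ℝ := R * U with hP
  have hμ : ∀ j, μ j = ∑ i, (P i j)^2 * (a i)⁻¹ := by
    intro j
    have h1 : Uᵀ * (R * (Di * R)) * U = Pᵀ * (Di * P) := by
      rw [hP, Matrix.transpose_mul, hRt]; simp only [Matrix.mul_assoc]
    have h2 : μ j = (Pᵀ * (Di * P)) j j := by
      rw [← h1, hdiag, Matrix.diagonal_apply_eq]
    rw [h2, Matrix.mul_apply]
    refine Finset.sum_congr rfl fun i _ => ?_
    rw [hDi, Matrix.diagonal_mul, Matrix.transpose_apply]; ring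
  have hrow : ∀ i, ∑ j, (P i j)^2 = B i i := by
    intro i
    have h1 : P * Pᵀ = B := by
      rw [hP, Matrix.transpose_mul, hRt]
      calc R * U * (Uᵀ * R) = R * (U * Uᵀ) * R := by simp only [Matrix.mul_assoc]
        _ = B := by rw [hUU', Matrix.mul_one, hRR]
    rw [← h1, Matrix.mul_apply]
    refine Finset.sum_congr rfl fun j _ => ?_
    rw [Matrix.transpose_apply]; ring
  have hcol : ∀ j, ∑ i, (P i j)^2 ≤ 1 := by
    intro j
    have h1 : Pᵀ * P = Uᵀ * (B * U) := by
      rw [hP, Matrix.transpose_mul, hRt]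
      calc Uᵀ * R * (R * U) = Uᵀ * ((R * R) * U) := by simp only [Matrix.mul_assoc]
        _ = _ := by rw [hRR]
    have h2 : ∑ i, (P i j)^2 = (Pᵀ * P) j j := by
      rw [Matrix.mul_apply]
      refine Finset.sum_congr rfl fun i _ => ?_
      rw [Matrix.transpose_apply]; ring
    have h3 : (Uᵀ * (B * U)) j j = (fun k => U k j) ⬝ᵥ (B *ᵥ (fun k => U k j)) := by
      rw [Matrix.mul_apply]
      rfl
    have h4 : (fun k => U k j) ⬝ᵥ (fun k => U k j) = 1 := by
      have : (Uᵀ * U) j j = 1 := by rw [hUU]; exact Matrix.one_apply_eq j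
      rw [Matrix.mul_apply] at this
      exact this
    rw [h2, h1, h3, ← h4]
    exact hB1 _
  have hμ0 : ∀ j, 0 ≤ μ j := fun j => by
    rw [hμ j]
    exact Finset.sum_nonneg fun i _ => mul_nonneg (sq_nonneg _) (inv_nonneg.mpr (ha i).le)
  have hlog : ∀ j, ∑ i, (P i j)^2 * (-Real.log (a i)) ≤ Real.log (1 + μ j) := by
    intro j
    have hpos : (0:ℝ) < 1 + μ j := by linarith [hμ0 j]
    -- exp both sides by weighted AM-GM
    have key : Real.exp (∑ i, (P i j)^2 * (-Real.log (a i))) ≤ 1 + μ j := by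
      have hs := hcol j
      set s := ∑ i, (P i j)^2 with hsdef
      have hc := convexOn_exp.map_sum_le (t := (Finset.univ : Finset (Option (Fin n))))
        (w := fun o => o.elim (1 - s) (fun i => (P i j)^2))
        (p := fun o => o.elim 0 (fun i => -Real.log (a i)))
        (by rintro (_ | i) _
            · simpa using hs
            · exact sq_nonneg _)
        (by rw [Fintype.sum_option]; simp [hsdef])
        (fun _ _ => Set.mem_univ _)
      rw [Fintype.sum_option, Fintype.sum_option] at hc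
      simp only [Option.elim, smul_eq_mul, mul_zero, zero_add, Real.exp_zero, mul_one] at hc
      refine hc.trans ?_
      have e : ∀ i, Real.exp (-Real.log (a i)) = (a i)⁻¹ := fun i => by
        rw [Real.exp_neg, Real.exp_log (ha i)]
      simp only [e]
      rw [hμ j]
      have : 0 ≤ s := Finset.sum_nonneg fun i _ => sq_nonneg _
      linarith
    exact (Real.le_log_iff_exp_le hpos).mpr key
  have hpa : 0 < ∏ i, a i := Finset.prod_pos fun i _ => ha i
  have hpm : 0 < ∏ j, (1 + μ j) := Finset.prod_pos fun j _ => by linarith [hμ0 j]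
  refine ⟨by rw [hdet2]; exact mul_pos hpa hpm, ?_⟩
  rw [hdet2, Real.log_mul hpa.ne' hpm.ne', Real.log_prod (fun i _ => (ha i).ne'),
    Real.log_prod (fun j _ => by linarith [hμ0 j])]
  have hsum : ∑ j, ∑ i, (P i j)^2 * (-Real.log (a i)) = - ∑ i, B i i * Real.log (a i) := by
    rw [Finset.sum_comm, ← Finset.sum_neg_distrib]
    refine Finset.sum_congr rfl fun i _ => ?_
    rw [← Finset.sum_mul, hrow i]; ring
  have := Finset.sum_le_sum (s := Finset.univ) fun j _ => hlog j
  rw [hsum] at this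
  linarith

open MeasureTheory Set
open scoped RealInnerProductSpace ENNReal




open Matrix in
/-- matrix of a symmetric form in an orthonormal basis -/
theorem trj_mat (n : ℕ) (v : OrthonormalBasis (Fin n) ℝ (E n)) (B : E n →L[ℝ] E n)
    (i j : Fin n) :
    LinearMap.toMatrix v.toBasis v.toBasis (B : E n →ₗ[ℝ] E n) i j = inner ℝ (v i) (B (v j)) := by
  rw [LinearMap.toMatrix_apply]
  simp [OrthonormalBasis.repr_apply_apply]

theorem trj (n : ℕ) (A : E n →L[ℝ] E n) (hs : ∀ x y, inner ℝ (A x) y = inner ℝ x (A y))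
    (h0 : ∀ x, x ≠ 0 → 0 < inner ℝ (A x) x) (h1 : ∀ x, inner ℝ (A x) x ≤ ‖x‖^2) :
    ∃ (v : OrthonormalBasis (Fin n) ℝ (E n)) (a : Fin n → ℝ), (∀ i, 0 < a i ∧ a i ≤ 1) ∧
      0 < LinearMap.det (A : E n →ₗ[ℝ] E n) ∧
      Real.log (LinearMap.det (A : E n →ₗ[ℝ] E n)) = ∑ i, Real.log (a i) ∧
      ∀ B : E n →L[ℝ] E n, (∀ x y, inner ℝ (B x) y = inner ℝ x (B y)) →
        (∀ x, 0 ≤ inner ℝ (B x) x) → (∀ x, inner ℝ (B x) x ≤ ‖x‖^2) →
        0 < LinearMap.det ((A + B : E n →L[ℝ] E n) : E n →ₗ[ℝ] E n) ∧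
        ∑ i, Real.log (a i) - ∑ i, inner ℝ (B (v i)) (v i) * Real.log (a i)
          ≤ Real.log (LinearMap.det ((A + B : E n →L[ℝ] E n) : E n →ₗ[ℝ] E n)) := by
  classical
  have hT : (A : E n →ₗ[ℝ] E n).IsSymmetric := fun x y => hs x y
  have hn : Module.finrank ℝ (E n) = n := by simp
  set v := hT.eigenvectorBasis hn with hv
  set a := hT.eigenvalues hn with ha
  have hav : ∀ i, A (v i) = a i • v i := fun i => by
    exact hT.apply_eigenvectorBasis hn i
  have hvn : ∀ i, ‖v i‖ = 1 := fun i => v.orthonormal.1 i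
  have hval : ∀ i, inner ℝ (A (v i)) (v i) = a i := fun i => by
    rw [hav i, inner_smul_left, real_inner_self_eq_norm_sq, hvn i]; simp
  have ha01 : ∀ i, 0 < a i ∧ a i ≤ 1 := fun i => by
    refine ⟨?_, ?_⟩
    · rw [← hval i]; refine h0 _ ?_
      intro h; have := hvn i; rw [h] at this; simp at this
    · rw [← hval i]; have := h1 (v i); rw [hvn i] at this; simpa using this
  have hMA : LinearMap.toMatrix v.toBasis v.toBasis (A : E n →ₗ[ℝ] E n) = Matrix.diagonal a := by
    ext i j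
    rw [trj_mat, hav j, inner_smul_right]
    rw [Matrix.diagonal_apply]
    have := (orthonormal_iff_ite.mp v.orthonormal) i j
    rw [this]
    by_cases h : i = j
    · subst h; simp
    · simp [h]
  have hdetA : LinearMap.det (A : E n →ₗ[ℝ] E n) = ∏ i, a i := by
    rw [← LinearMap.det_toMatrix v.toBasis, hMA, Matrix.det_diagonal]
  refine ⟨v, a, ha01, ?_, ?_, ?_⟩
  · rw [hdetA]; exact Finset.prod_pos fun i _ => (ha01 i).1
  · rw [hdetA, Real.log_prod (fun i _ => (ha01 i).1.ne')]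
  intro B hBs hB0 hB1
  set M := LinearMap.toMatrix v.toBasis v.toBasis (B : E n →ₗ[ℝ] E n) with hM
  have hMij : ∀ i j, M i j = inner ℝ (v i) (B (v j)) := fun i j => trj_mat n v B i j
  -- quadratic form
  have hq : ∀ x : Fin n → ℝ, x ⬝ᵥ (M.mulVec x) =
      inner ℝ (B (∑ i, x i • v i)) (∑ i, x i • v i) := by
    intro x
    rw [map_sum, sum_inner]
    simp only [inner_sum, map_smul, inner_smul_left, inner_smul_right]
    simp only [dotProduct, Matrix.mulVec, Finset.mul_sum]
    rw [Finset.sum_comm]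
    refine Finset.sum_congr rfl fun j _ => Finset.sum_congr rfl fun i _ => ?_
    rw [hMij i j, real_inner_comm]
    simp only [conj_trivial]
    ring
  have hnorm : ∀ x : Fin n → ℝ, ‖∑ i, x i • v i‖^2 = x ⬝ᵥ x := by
    intro x
    rw [← real_inner_self_eq_norm_sq, v.orthonormal.inner_sum]
    simp [dotProduct]
  have hherm : M.IsHermitian := by
    ext i j
    rw [Matrix.conjTranspose_apply, hMij, hMij, ← hBs, real_inner_comm]
    simp
  have hMpsd : M.PosSemidef := by
    refine Matrix.posSemidef_iff_dotProduct_mulVec.mpr ⟨hherm, fun x => ?_⟩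
    have : star x = x := by ext; simp
    rw [this, hq]
    exact hB0 _
  have hMle : ∀ x : Fin n → ℝ, x ⬝ᵥ (M.mulVec x) ≤ x ⬝ᵥ x := fun x => by
    rw [hq, ← hnorm]; exact hB1 _
  have hcore := trj_core n a (fun i => (ha01 i).1) M hMpsd hMle
  have hdet : LinearMap.det ((A + B : E n →L[ℝ] E n) : E n →ₗ[ℝ] E n) =
      (Matrix.diagonal a + M).det := by
    rw [← LinearMap.det_toMatrix v.toBasis, hM, ← hMA, ← map_add]
    rfl
  rw [hdet]
  refine ⟨hcore.1, ?_⟩
  have : ∀ i, inner ℝ (B (v i)) (v i) = M i i := fun i => by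
    rw [hMij i i, real_inner_comm]
  simp only [this]
  exact hcore.2

end Pool.Agent.PZ871.M_trj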