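import Mathlib
import Pool.Agent.PZ871.Defs
import Pool.Agent.PZ871.Cv2
import Pool.Agent.PZ871.Trj
import Pool.Agent.PZ871.Gsq
set_option autoImplicit false
set_option maxHeartbeats 1000000
namespace Pool.Agent.PZ871.M_jens
open Pool.Agent.PZ871.M_cv2 (cv2)
open Pool.Agent.PZ871.M_trj (trj)
open Pool.Agent.PZ871.M_gsq (gsq)
open MeasureTheory Set
open scoped RealInnerProductSpace ENNReal









/- TO PROVE -/
theorem jens_jl {α : Type*} [MeasurableSpace α] (μ : Measure α) [IsProbabilityMeasure μ]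
    (F : α → ℝ≥0∞) (l : α → ℝ) (hl : Integrable l μ) (t : ℝ) (ht : t ≤ ∫ y, l y ∂μ)
    (hF : ∀ y, ENNReal.ofReal (Real.exp (l y)) ≤ F y) :
    ENNReal.ofReal (Real.exp t) ≤ ∫⁻ y, F y ∂μ := by
  have hf : Integrable (fun y => Real.exp t * (1 + (l y - t))) μ :=
    ((integrable_const (1:ℝ)).add (hl.sub (integrable_const t))).const_mul _
  have h1 : ∫ y, Real.exp t * (1 + (l y - t)) ∂μ = Real.exp t * (1 + (∫ y, l y ∂μ - t)) := by
    have ha : Integrable (fun y => l y - t) μ := hl.sub (integrable_const t)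
    rw [integral_const_mul, integral_add (integrable_const _) ha,
      integral_sub hl (integrable_const t)]
    simp
  have h2 : Real.exp t ≤ ∫ y, Real.exp t * (1 + (l y - t)) ∂μ := by
    rw [h1]
    nlinarith [Real.exp_pos t]
  have h3 : ∫ y, Real.exp t * (1 + (l y - t)) ∂μ ≤
      (∫⁻ y, ENNReal.ofReal (Real.exp t * (1 + (l y - t))) ∂μ).toReal := by
    rw [integral_eq_lintegral_pos_part_sub_lintegral_neg_part hf]
    have : 0 ≤ (∫⁻ y, ENNReal.ofReal (-(Real.exp t * (1 + (l y - t)))) ∂μ).toReal :=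
      ENNReal.toReal_nonneg
    linarith
  have h4 : ENNReal.ofReal (Real.exp t) ≤
      ∫⁻ y, ENNReal.ofReal (Real.exp t * (1 + (l y - t))) ∂μ :=
    ENNReal.ofReal_le_of_le_toReal (h2.trans h3)
  refine h4.trans (lintegral_mono fun y => ?_)
  refine le_trans (ENNReal.ofReal_le_ofReal ?_) (hF y)
  have h5 := Real.add_one_le_exp (l y - t)
  calc Real.exp t * (1 + (l y - t)) ≤ Real.exp t * Real.exp (l y - t) :=
        mul_le_mul_of_nonneg_left (by linarith) (Real.exp_pos t).le
    _ = Real.exp (l y) := by rw [← Real.exp_add]; congr 1; ring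

theorem jens (n : ℕ) (K : Set (E n)) (hK : Body n K) (b : E n → E n) (hb : Dat n K b)
    (S β : ℝ) (hβ0 : 0 ≤ β) (hβ1 : β ≤ 1)
    (hlow : ∀ g, 2 * S - n - 2 * ‖g‖^2 ≤
      Real.log (LinearMap.det ((fderiv ℝ b g : E n →L[ℝ] E n) : E n →ₗ[ℝ] E n)))
    (hβ : ∀ e : E n, ‖e‖ = 1 → β ≤ ∫ g, inner ℝ (fderiv ℝ b g e) e ∂(gm n)) :
    ENNReal.ofReal (Real.exp ((1 - β) * (2 * S - 3 * n) - n * Real.log 2)) ≤
      (gm n) ((fun x => (Real.sqrt 2) • x) '' K) := by
  haveI hprob : IsProbabilityMeasure (gm n) := by unfold gm; infer_instance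
  have hnn : ∀ g x, 0 ≤ inner ℝ (fderiv ℝ b g x) x := by
    intro g x
    by_cases hx : x = 0
    · subst hx; simp
    · exact (hb.pos g x hx).le
  have hfc : Continuous (fderiv ℝ b) := hb.smooth.continuous_fderiv one_ne_zero
  refine le_trans ?_ (cv2 n K hK b hb)
  refine jens_jl (gm n) _ (fun x => (1 - β) * (2 * S - n - 2 * ‖x‖^2) - n * Real.log 2) ?_ _ ?_ ?_
  · have h := (gsq n).1
    have h1 : Integrable (fun x : E n => 2 * S - n - 2 * ‖x‖^2) (gm n) :=
      (integrable_const _).sub (h.const_mul 2)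
    exact (h1.const_mul (1 - β)).sub (integrable_const _)
  · have h := (gsq n).1
    have h1 : Integrable (fun x : E n => 2 * S - n - 2 * ‖x‖^2) (gm n) :=
      (integrable_const _).sub (h.const_mul 2)
    rw [integral_sub (h1.const_mul (1 - β)) (integrable_const _), integral_const_mul,
      integral_sub (integrable_const _) (h.const_mul 2), integral_const_mul, (gsq n).2]
    simp only [integral_const, probReal_univ, smul_eq_mul, one_mul]
    apply le_of_eq; ring
  · intro x
    obtain ⟨v, a, ha, hdet, hlog, hB⟩ := trj n (fderiv ℝ b x) (hb.symm x) (hb.pos x) (hb.le1 x)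
    have hnorm : ∀ i, ‖v i‖ = 1 := fun i => v.orthonormal.1 i
    have hq : ∀ i, Integrable (fun y => inner ℝ (fderiv ℝ b y (v i)) (v i)) (gm n) := by
      intro i
      have hc : Continuous (fun y => inner ℝ (fderiv ℝ b y (v i)) (v i)) := by
        have h1 : Continuous (fun y => fderiv ℝ b y (v i)) := hfc.clm_apply continuous_const
        exact h1.inner continuous_const
      refine Integrable.of_bound hc.aestronglyMeasurable 1 ?_
      refine Filter.Eventually.of_forall fun y => ?_
      rw [Real.norm_eq_abs, abs_of_nonneg (hnn y (v i))]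
      have := hb.le1 y (v i)
      rw [hnorm i] at this
      simpa using this
    have hlogn : ∀ i, Real.log (a i) ≤ 0 := fun i => Real.log_nonpos (ha i).1.le (ha i).2
    have hsumi : Integrable (fun y => ∑ i, inner ℝ (fderiv ℝ b y (v i)) (v i) * Real.log (a i))
        (gm n) := by
      refine integrable_finsetSum _ fun i _ => ?_
      exact (hq i).mul_const _
    refine jens_jl (gm n) _ (fun y => ∑ i, Real.log (a i)
      - ∑ i, inner ℝ (fderiv ℝ b y (v i)) (v i) * Real.log (a i) - n * Real.log 2) ?_ _ ?_ ?_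
    · exact ((integrable_const _).sub hsumi).sub (integrable_const _)
    · have hA : Integrable (fun y => ∑ i, Real.log (a i)
          - ∑ i, inner ℝ (fderiv ℝ b y (v i)) (v i) * Real.log (a i)) (gm n) :=
        (integrable_const _).sub hsumi
      rw [integral_sub hA (integrable_const _),
        integral_sub (integrable_const _) hsumi, integral_finsetSum _
          (fun i _ => (hq i).mul_const _)]
      simp only [integral_const, probReal_univ, smul_eq_mul, one_mul, integral_mul_const]
      have h1 : ∑ i, (∫ y, inner ℝ (fderiv ℝ b y (v i)) (v i) ∂(gm n)) * Real.log (a i) ≤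
          ∑ i, β * Real.log (a i) := by
        refine Finset.sum_le_sum fun i _ => ?_
        exact mul_le_mul_of_nonpos_right (hβ (v i) (hnorm i)) (hlogn i)
      rw [← Finset.mul_sum] at h1
      have h2 := hlow x
      rw [hlog] at h2
      nlinarith
    · intro y
      obtain ⟨hp, hle⟩ := hB (fderiv ℝ b y) (hb.symm y) (hnn y) (hb.le1 y)
      refine ENNReal.ofReal_le_ofReal ?_
      have hsm : LinearMap.det (((1/2:ℝ) • (fderiv ℝ b x + fderiv ℝ b y) : E n →L[ℝ] E n) :
          E n →ₗ[ℝ] E n) = (1/2:ℝ) ^ n * LinearMap.det ((fderiv ℝ b x + fderiv ℝ b y :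
            E n →L[ℝ] E n) : E n →ₗ[ℝ] E n) := by
        rw [ContinuousLinearMap.toLinearMap_smul, LinearMap.det_smul, finrank_euclideanSpace_fin]
      rw [hsm]
      have h2n : (1/2:ℝ) ^ n = Real.exp (-(n * Real.log 2)) := by
        rw [Real.exp_neg, ← Real.log_pow, Real.exp_log (by positivity), one_div, inv_pow]
      have hd : LinearMap.det ((fderiv ℝ b x + fderiv ℝ b y : E n →L[ℝ] E n) : E n →ₗ[ℝ] E n)
          = Real.exp (Real.log (LinearMap.det ((fderiv ℝ b x + fderiv ℝ b y :
            E n →L[ℝ] E n) : E n →ₗ[ℝ] E n))) := (Real.exp_log hp).symm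
      rw [h2n, hd, ← Real.exp_add]
      exact Real.exp_le_exp.2 (by linarith)

end Pool.Agent.PZ871.M_jens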