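import Mathlib
import Pool.Agent.PZ871.Defs
import Pool.Agent.PZ871.Jpos
import Pool.Agent.PZ871.Barsm
import Pool.Agent.PZ871.Dat
import Pool.Agent.PZ871.Lin1
set_option autoImplicit false
set_option maxHeartbeats 1000000
namespace Pool.Agent.PZ871.M_ldet
open Pool.Agent.PZ871.M_Jpos (Jpos)
open Pool.Agent.PZ871.M_barsm (barsm)
open Pool.Agent.PZ871.M_dat (dat)
open Pool.Agent.PZ871.M_lin1 (lin1)
open MeasureTheory Set
open scoped RealInnerProductSpace ENNReal











theorem ldet_gauss0 (n : ℕ) (l : Fin n → ℝ) (hl : ∀ i, 0 < l i) :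
    Integrable (fun y : Fin n → ℝ => Real.exp (-(1/2) * ∑ i, (y i)^2 / l i)) ∧
    ∫ y : Fin n → ℝ, Real.exp (-(1/2) * ∑ i, (y i)^2 / l i) =
      (2 * Real.pi) ^ ((n:ℝ)/2) * Real.sqrt (∏ i, l i) := by
  have e1 : (fun y : Fin n → ℝ => Real.exp (-(1/2) * ∑ i, (y i)^2 / l i)) =
      fun y : Fin n → ℝ => ∏ i, Real.exp (-(1 / (2 * l i)) * (y i)^2) := by
    funext y
    rw [← Real.exp_sum, Finset.mul_sum]
    congr 1
    refine Finset.sum_congr rfl fun i _ => ?_
    have := (hl i).ne'
    field_simp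
  rw [e1]
  constructor
  · exact Integrable.fintype_prod (f := fun i (t : ℝ) => Real.exp (-(1 / (2 * l i)) * t^2))
      (fun i => integrable_exp_neg_mul_sq (by have := hl i; positivity))
  · rw [integral_fintype_prod_volume_eq_prod (f := fun i (t : ℝ) => Real.exp (-(1 / (2 * l i)) * t^2))]
    have e2 : ∀ i, ∫ t : ℝ, Real.exp (-(1 / (2 * l i)) * t^2) =
        Real.sqrt (2 * Real.pi) * Real.sqrt (l i) := by
      intro i
      rw [integral_gaussian, ← Real.sqrt_mul (by positivity)]
      congr 1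
      have := (hl i).ne'
      field_simp
    rw [Finset.prod_congr rfl (fun i _ => e2 i), Finset.prod_mul_distrib]
    congr 1
    · rw [Finset.prod_const, Finset.card_univ, Fintype.card_fin, Real.sqrt_eq_rpow,
        ← Real.rpow_natCast, ← Real.rpow_mul (by positivity)]
      congr 1; ring
    · rw [Real.sqrt_prod _ (fun i _ => (hl i).le)]

theorem ldet_gauss (n : ℕ) (u : OrthonormalBasis (Fin n) ℝ (E n)) (l : Fin n → ℝ)
    (hl : ∀ i, 0 < l i) (b : E n) :
    Integrable (fun x : E n => Real.exp (-(1/2) * ∑ i, (inner ℝ (u i) (x - b))^2 / l i)) ∧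
    ∫ x : E n, Real.exp (-(1/2) * ∑ i, (inner ℝ (u i) (x - b))^2 / l i) =
      (2 * Real.pi) ^ ((n:ℝ)/2) * Real.sqrt (∏ i, l i) := by
  obtain ⟨h1, h2⟩ := ldet_gauss0 n l hl
  have hp : MeasurePreserving (fun y : Fin n → ℝ => (u.repr.symm (WithLp.toLp 2 y) : E n)) :=
    u.measurePreserving_repr_symm.comp (PiLp.volume_preserving_toLp (Fin n))
  have hemb : MeasurableEmbedding (fun y : Fin n → ℝ => (u.repr.symm (WithLp.toLp 2 y) : E n)) :=
    u.repr.symm.toHomeomorph.measurableEmbedding.comp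
      (MeasurableEquiv.toLp 2 (Fin n → ℝ)).measurableEmbedding
  have key : ∀ y : Fin n → ℝ, Real.exp (-(1/2) * ∑ i, (inner ℝ (u i)
      (u.repr.symm (WithLp.toLp 2 y) : E n))^2 / l i) =
      Real.exp (-(1/2) * ∑ i, (y i)^2 / l i) := by
    intro y
    congr 2
    refine Finset.sum_congr rfl fun i _ => ?_
    rw [← u.repr_apply_apply]
    simp
  have h3 : Integrable (fun x : E n => Real.exp (-(1/2) * ∑ i, (inner ℝ (u i) x)^2 / l i)) := by
    rw [← hp.integrable_comp_emb hemb]
    exact h1.congr (Filter.Eventually.of_forall fun y => (key y).symm)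
  constructor
  · exact h3.comp_sub_right b
  · rw [integral_sub_right_eq_self (fun x : E n => Real.exp (-(1/2) * ∑ i, (inner ℝ (u i) x)^2 / l i)) b,
      ← h2, ← hp.integral_comp hemb]
    exact integral_congr_ae (Filter.Eventually.of_forall key)


/- TO PROVE -/
theorem ldet (n : ℕ) (K : Set (E n)) (hK : Body n K) (g : E n) :
    0 < LinearMap.det ((fderiv ℝ (bar n K) g : E n →L[ℝ] E n) : E n →ₗ[ℝ] E n) ∧
    2 * Real.log ((gm n).real K) - n - 2 * ‖g‖^2 ≤
      Real.log (LinearMap.det ((fderiv ℝ (bar n K) g : E n →L[ℝ] E n) : E n →ₗ[ℝ] E n)) := by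
  have D := dat n K hK
  obtain ⟨-, hbc, -, hcov⟩ := barsm n K hK
  obtain ⟨hJ, hJ0, hJg⟩ := Jpos n K hK g
  have hJ00 := (Jpos n K hK 0).1
  have hsym : ((fderiv ℝ (bar n K) g : E n →L[ℝ] E n) : E n →ₗ[ℝ] E n).IsSymmetric :=
    fun x y => D.symm g x y
  have hn : Module.finrank ℝ (E n) = n := finrank_euclideanSpace_fin
  obtain ⟨u, hu⟩ : ∃ u, u = hsym.eigenvectorBasis hn := ⟨_, rfl⟩
  obtain ⟨l, hl'⟩ : ∃ l, l = hsym.eigenvalues hn := ⟨_, rfl⟩
  have hA : ∀ i, fderiv ℝ (bar n K) g (u i) = l i • u i := by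
    intro i
    have := hsym.apply_eigenvectorBasis hn i
    rw [hu, hl']
    exact this
  have hq : ∀ i, inner ℝ (fderiv ℝ (bar n K) g (u i)) (u i) = l i := by
    intro i
    rw [hA, real_inner_smul_left, real_inner_self_eq_norm_sq, u.norm_eq_one]; ring
  have hl : ∀ i, 0 < l i := by
    intro i
    rw [← hq i]
    refine D.pos g (u i) fun h => ?_
    have := u.norm_eq_one i
    rw [h, norm_zero] at this
    exact zero_ne_one this
  have hdet : LinearMap.det ((fderiv ℝ (bar n K) g : E n →L[ℝ] E n) : E n →ₗ[ℝ] E n) =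
      ∏ i, l i := by
    rw [hsym.det_eq_prod_eigenvalues hn, hl']
    simp
  have hdpos : 0 < ∏ i, l i := Finset.prod_pos fun i _ => hl i
  rw [hdet]
  refine ⟨hdpos, ?_⟩
  obtain ⟨b, hb⟩ : ∃ b, b = bar n K g := ⟨_, rfl⟩
  obtain ⟨Jg, hJgd⟩ : ∃ Jg, Jg = J n K g := ⟨_, rfl⟩
  rw [← hJgd] at hJ hJ0
  have hw : Continuous (w n g) := by unfold w; fun_prop
  have hwpos : ∀ x, 0 < w n g x := fun x => Real.exp_pos _
  have hint : ∀ f : E n → ℝ, Continuous f → IntegrableOn (fun x => w n g x * f x) K :=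
    fun f hf => (hw.mul hf).continuousOn.integrableOn_compact hK.cpt
  have m0 : ∫ x in K, w n g x = Jg := by rw [hJgd]; rfl
  have m1 : ∀ e, ∫ x in K, w n g x * inner ℝ x e = Jg * inner ℝ b e := by
    intro e
    have hi : IntegrableOn (fun x => w n g x • x) K :=
      ((hw.smul continuous_id).continuousOn).integrableOn_compact hK.cpt
    rw [hb, bar, real_inner_smul_left, ← mul_assoc, ← hJgd, mul_inv_cancel₀ hJ.ne', one_mul,
      real_inner_comm, ← integral_inner hi]
    refine integral_congr_ae (Filter.Eventually.of_forall fun x => ?_)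
    simp only [real_inner_smul_right]
    rw [real_inner_comm]
  have m2 : ∀ i, ∫ x in K, w n g x * (inner ℝ (u i) (x - b))^2 = Jg * l i := by
    intro i
    have hc := hcov g (u i) (u i)
    rw [hq i, ← hb, ← hJgd] at hc
    have hI : ∫ x in K, w n g x * (inner ℝ x (u i) * inner ℝ x (u i)) =
        Jg * (l i + inner ℝ b (u i) * inner ℝ b (u i)) := by
      rw [hc]; field_simp; ring
    have e1 : (fun x => w n g x * (inner ℝ (u i) (x - b))^2) = fun x =>
        (w n g x * (inner ℝ x (u i) * inner ℝ x (u i)) +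
          (-2 * inner ℝ b (u i)) * (w n g x * inner ℝ x (u i))) +
          (inner ℝ b (u i))^2 * w n g x := by
      funext x
      rw [inner_sub_right, real_inner_comm (u i) x, real_inner_comm (u i) b]
      ring
    have i1 : IntegrableOn (fun x => w n g x * (inner ℝ x (u i) * inner ℝ x (u i))) K :=
      hint (fun x => inner ℝ x (u i) * inner ℝ x (u i)) (by fun_prop)
    have i2 : IntegrableOn (fun x => (-2 * inner ℝ b (u i)) * (w n g x * inner ℝ x (u i))) K :=
      (hint (fun x => inner ℝ x (u i)) (by fun_prop)).const_mul _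
    have i3 : IntegrableOn (fun x => (inner ℝ b (u i))^2 * w n g x) K :=
      (hw.continuousOn.integrableOn_compact hK.cpt).const_mul _
    have i12 : IntegrableOn (fun x => w n g x * (inner ℝ x (u i) * inner ℝ x (u i)) +
        (-2 * inner ℝ b (u i)) * (w n g x * inner ℝ x (u i))) K := i1.add i2
    rw [e1, integral_add i12 i3, integral_add i1 i2, integral_const_mul,
      integral_const_mul, m1, m0, hI]
    ring
  obtain ⟨hG1, hG2⟩ := ldet_gauss n u l hl b
  obtain ⟨Z, hZ⟩ : ∃ Z, Z = (2 * Real.pi) ^ ((n:ℝ)/2) * Real.sqrt (∏ i, l i) := ⟨_, rfl⟩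
  rw [← hZ] at hG2
  have hZpos : 0 < Z := by rw [hZ]; positivity
  have hpt : ∀ x, w n g x * ((Real.log Jg - Real.log Z) - (1/2) * (∑ i, (inner ℝ (u i) (x - b))^2 / l i)
      - inner ℝ x g) ≤ Jg / Z * Real.exp (-(1/2) * ∑ i, (inner ℝ (u i) (x - b))^2 / l i) -
        w n g x := by
    intro x
    have hy : 0 < Jg / Z * Real.exp (-(1/2) * ∑ i, (inner ℝ (u i) (x - b))^2 / l i) / w n g x := by
      have := hwpos x
      positivity
    have h1 := Real.log_le_sub_one_of_pos hy
    have h2 : Real.log (Jg / Z * Real.exp (-(1/2) * ∑ i, (inner ℝ (u i) (x - b))^2 / l i) / w n g x)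
        = Real.log Jg - Real.log Z + (-(1/2) * ∑ i, (inner ℝ (u i) (x - b))^2 / l i) -
          (-‖x‖^2/2 + inner ℝ x g) := by
      rw [Real.log_div (by positivity) (hwpos x).ne', Real.log_mul (by positivity)
        (Real.exp_pos _).ne', Real.log_div hJ.ne' hZpos.ne', Real.log_exp, w, Real.log_exp]
    rw [h2] at h1
    have h3 : (Real.log Jg - Real.log Z) - (1/2) * (∑ i, (inner ℝ (u i) (x - b))^2 / l i)
      - inner ℝ x g ≤ Jg / Z * Real.exp (-(1/2) * ∑ i, (inner ℝ (u i) (x - b))^2 / l i) / w n g x - 1 := by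
      have := sq_nonneg ‖x‖
      linarith
    calc _ ≤ w n g x * (Jg / Z * Real.exp (-(1/2) * ∑ i, (inner ℝ (u i) (x - b))^2 / l i) /
          w n g x - 1) := mul_le_mul_of_nonneg_left h3 (hwpos x).le
      _ = _ := by
        have := (hwpos x).ne'
        field_simp
  have hI : ∫ x in K, w n g x * ((Real.log Jg - Real.log Z) -
      (1/2) * (∑ i, (inner ℝ (u i) (x - b))^2 / l i) - inner ℝ x g) ≤
      ∫ x in K, (Jg / Z * Real.exp (-(1/2) * ∑ i, (inner ℝ (u i) (x - b))^2 / l i) - w n g x) := by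
    refine setIntegral_mono (hint _ (by fun_prop)) ?_ hpt
    exact (hG1.integrableOn.const_mul _).sub (hw.continuousOn.integrableOn_compact hK.cpt)
  have hR : ∫ x in K, (Jg / Z * Real.exp (-(1/2) * ∑ i, (inner ℝ (u i) (x - b))^2 / l i) - w n g x)
      ≤ 0 := by
    rw [integral_sub (hG1.integrableOn.const_mul _) (hw.continuousOn.integrableOn_compact hK.cpt),
      integral_const_mul, m0]
    have : ∫ x in K, Real.exp (-(1/2) * ∑ i, (inner ℝ (u i) (x - b))^2 / l i) ≤ Z := by
      rw [← hG2]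
      exact setIntegral_le_integral hG1 (Filter.Eventually.of_forall fun x => (Real.exp_pos _).le)
    have h5 : Jg / Z * ∫ x in K, Real.exp (-(1/2) * ∑ i, (inner ℝ (u i) (x - b))^2 / l i) ≤
        Jg / Z * Z := mul_le_mul_of_nonneg_left this (by positivity)
    have h6 : Jg / Z * Z = Jg := by field_simp
    linarith
  have hL : ∫ x in K, w n g x * ((Real.log Jg - Real.log Z) -
      (1/2) * (∑ i, (inner ℝ (u i) (x - b))^2 / l i) - inner ℝ x g) =
      Jg * ((Real.log Jg - Real.log Z) - n / 2 - inner ℝ b g) := by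
    have e1 : (fun x => w n g x * ((Real.log Jg - Real.log Z) -
      (1/2) * (∑ i, (inner ℝ (u i) (x - b))^2 / l i) - inner ℝ x g)) = fun x =>
        ((Real.log Jg - Real.log Z) * w n g x - w n g x * inner ℝ x g) -
          ∑ i, (1 / (2 * l i)) * (w n g x * (inner ℝ (u i) (x - b))^2) := by
      funext x
      have : ∑ i, (1 / (2 * l i)) * (w n g x * (inner ℝ (u i) (x - b))^2) =
          w n g x * ((1/2) * (∑ i, (inner ℝ (u i) (x - b))^2 / l i)) := by
        rw [Finset.mul_sum, Finset.mul_sum]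
        refine Finset.sum_congr rfl fun i _ => ?_
        have := (hl i).ne'
        field_simp
      rw [this]; ring
    have i1 : IntegrableOn (fun x => (Real.log Jg - Real.log Z) * w n g x) K :=
      (hw.continuousOn.integrableOn_compact hK.cpt).const_mul _
    have i2 : IntegrableOn (fun x => w n g x * inner ℝ x g) K :=
      hint (fun x => inner ℝ x g) (by fun_prop)
    have i3 : ∀ i ∈ (Finset.univ : Finset (Fin n)), IntegrableOn (fun x => (1 / (2 * l i)) *
        (w n g x * (inner ℝ (u i) (x - b))^2)) K := fun i _ =>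
      (hint (fun x => (inner ℝ (u i) (x - b))^2) (by fun_prop)).const_mul _
    have i12 : IntegrableOn (fun x => (Real.log Jg - Real.log Z) * w n g x -
        w n g x * inner ℝ x g) K := i1.sub i2
    rw [e1, integral_sub i12 (integrable_finsetSum _ i3), integral_sub i1 i2,
      integral_const_mul, m0, m1, integral_finset_sum _ i3]
    have e2 : ∀ i ∈ (Finset.univ : Finset (Fin n)), ∫ x in K, (1 / (2 * l i)) *
        (w n g x * (inner ℝ (u i) (x - b))^2) = Jg / 2 := by
      intro i _
      rw [integral_const_mul, m2]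
      have := (hl i).ne'
      field_simp
    rw [Finset.sum_congr rfl e2, Finset.sum_const, Finset.card_univ, Fintype.card_fin,
      nsmul_eq_mul]
    ring
  have hfin : (Real.log Jg - Real.log Z) - n / 2 - inner ℝ b g ≤ 0 := by
    by_contra hcon
    push_neg at hcon
    have := mul_pos hJ hcon
    rw [hL] at hI
    linarith
  -- the barycentre bound
  have hb0 : bar n K 0 = 0 := by
    have h := D.odd 0
    rw [neg_zero] at h
    have h2 : (2:ℝ) • bar n K 0 = 0 := by
      rw [two_smul]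
      nth_rewrite 1 [h]
      exact neg_add_cancel _
    exact (smul_eq_zero.mp h2).resolve_left two_ne_zero
  have hbn : ‖b‖ ≤ ‖g‖ := by
    have h1 : ‖bar n K g - bar n K 0‖ ≤ 1 * ‖g - 0‖ := by
      refine Convex.norm_image_sub_le_of_norm_fderiv_le (𝕜 := ℝ) (s := Set.univ) (C := 1)
        (fun x _ => (D.smooth.differentiable (by norm_num)) x) (fun x _ => ?_) convex_univ
        (Set.mem_univ _) (Set.mem_univ _)
      refine (lin1 n (fderiv ℝ (bar n K) x) (D.symm x) (fun y => ?_) (D.le1 x)).2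
      by_cases hy : y = 0
      · simp [hy]
      · exact (D.pos x y hy).le
    rw [hb0, sub_zero, sub_zero, one_mul] at h1
    rw [hb]; exact h1
  have hbg : inner ℝ b g ≤ ‖g‖^2 := by
    calc inner ℝ b g ≤ ‖b‖ * ‖g‖ := real_inner_le_norm _ _
      _ ≤ ‖g‖ * ‖g‖ := mul_le_mul_of_nonneg_right hbn (norm_nonneg _)
      _ = _ := by ring
  have hgm : 0 < (gm n).real K := by
    by_contra hcon
    push_neg at hcon
    have h0 : (gm n).real K = 0 := le_antisymm hcon measureReal_nonneg
    rw [hJg, h0, mul_zero] at hJ00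
    exact lt_irrefl _ hJ00
  have hlogJ : (n:ℝ)/2 * Real.log (2 * Real.pi) + Real.log ((gm n).real K) ≤ Real.log Jg := by
    have h1 : Real.log (J n K 0) ≤ Real.log Jg := Real.log_le_log hJ00 hJ0
    rw [hJg, Real.log_mul (by positivity) hgm.ne', Real.log_rpow (by positivity)] at h1
    exact h1
  have hlogZ : Real.log Z = (n:ℝ)/2 * Real.log (2 * Real.pi) + (1/2) * Real.log (∏ i, l i) := by
    rw [hZ, Real.log_mul (by positivity) (by positivity), Real.log_rpow (by positivity),
      Real.log_sqrt hdpos.le]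
    ring
  linarith

end Pool.Agent.PZ871.M_ldet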