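import Mathlib
import Pool.Agent.PZ871.Defs
import Pool.Agent.PZ871.Ldet
import Pool.Agent.PZ871.Beta
import Pool.Agent.PZ871.Dat
import Pool.Agent.PZ871.Jens
import Pool.Agent.PZ871.Gscale
set_option autoImplicit false
set_option maxHeartbeats 1000000
namespace Pool.Agent.PZ871.M_lower
open Pool.Agent.PZ871.M_ldet (ldet)
open Pool.Agent.PZ871.M_beta (beta)
open Pool.Agent.PZ871.M_dat (dat)
open Pool.Agent.PZ871.M_jens (jens)
open Pool.Agent.PZ871.M_gscale (gscale)
open MeasureTheory Set
open scoped RealInnerProductSpace ENNReal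













/- TO PROVE -/
theorem lower (n : ℕ) (K : Set (E n)) (hK : Body n K) (ho : NearOpt n K) :
    Real.exp (-(6 * n)) ≤ (gm n).real K := by
  haveI hprob : IsProbabilityMeasure (gm n) := by unfold gm; infer_instance
  have hj := jens n K hK (bar n K) (dat n K hK) (Real.log ((gm n).real K)) (69/100)
    (by norm_num) (by norm_num) (fun g => (ldet n K hK g).2) (fun e he => beta n K hK ho e he)
  have h2 : (1:ℝ) ≤ Real.sqrt 2 := by
    rw [Real.one_le_sqrt]; norm_num
  have hg := gscale n K hK.cpt (Real.sqrt 2) h2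
  have hfin : (gm n) ((fun x => (Real.sqrt 2) • x) '' K) ≠ ⊤ := measure_ne_top _ _
  have hr : Real.exp ((1 - 69/100) * (2 * Real.log ((gm n).real K) - 3 * n) - n * Real.log 2) ≤
      (gm n).real ((fun x => (Real.sqrt 2) • x) '' K) := by
    rw [Measure.real]
    exact (ENNReal.ofReal_le_iff_le_toReal hfin).mp hj
  have hchain := hr.trans hg
  have hs : (0:ℝ) < Real.sqrt 2 := by positivity
  have hM : 0 < (gm n).real K := by
    by_contra hcon
    have h0 : (gm n).real K = 0 := le_antisymm (not_lt.mp hcon) measureReal_nonneg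
    rw [h0, mul_zero] at hchain
    exact absurd (Real.exp_pos _) (not_lt.mpr hchain)
  have hlog := Real.log_le_log (Real.exp_pos _) hchain
  rw [Real.log_exp, Real.log_mul (by positivity) hM.ne', Real.log_pow, Real.log_sqrt (by norm_num)] at hlog
  have hl2 : Real.log 2 < 0.6931471808 := Real.log_two_lt_d9
  have hn : (0:ℝ) ≤ n := Nat.cast_nonneg n
  have hfinal : -(6 * (n:ℝ)) ≤ Real.log ((gm n).real K) := by
    have h3 : (n:ℝ) * Real.log 2 ≤ n * 0.6931471808 := mul_le_mul_of_nonneg_left hl2.le hn
    nlinarith [hlog, h3, hn]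
  calc Real.exp (-(6 * n)) ≤ Real.exp (Real.log ((gm n).real K)) := Real.exp_le_exp.mpr hfinal
    _ = (gm n).real K := Real.exp_log hM


end Pool.Agent.PZ871.M_lower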