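import Mathlib
import Pool.Agent.PZ871.Defs
import Pool.Agent.PZ871.Jpos
import Pool.Agent.PZ871.Gsq
import Pool.Agent.PZ871.Gint
set_option autoImplicit false
set_option maxHeartbeats 1000000
namespace Pool.Agent.PZ871.M_posit
open Pool.Agent.PZ871.M_Jpos (Jpos)
open Pool.Agent.PZ871.M_gsq (gsq)
open Pool.Agent.PZ871.M_gint (gint)
open MeasureTheory Set
open scoped RealInnerProductSpace ENNReal









/- TO PROVE -/
noncomputable def pdt {n : ℕ} (M : E n ≃L[ℝ] E n) : ℝ :=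
  |LinearMap.det ((M : E n →L[ℝ] E n) : E n →ₗ[ℝ] E n)|

theorem pdt_pos {n : ℕ} (M : E n ≃L[ℝ] E n) : 0 < pdt M := by
  unfold pdt
  rw [abs_pos]
  exact (LinearEquiv.isUnit_det' M.toLinearEquiv).ne_zero

theorem p_cov {n : ℕ} (K : Set (E n)) (hK : Body n K) (M : E n ≃L[ℝ] E n) (f : E n → ℝ) :
    ∫ y in M '' K, f y = pdt M * ∫ x in K, f (M x) := by
  have h := integral_image_eq_integral_abs_det_fderiv_smul volume hK.cpt.measurableSet
    (f := fun x => M x) (f' := fun _ => (M : E n →L[ℝ] E n))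
    (fun x _ => (M : E n →L[ℝ] E n).hasFDerivAt.hasFDerivWithinAt) (M.injective.injOn) f
  rw [h]
  simp only [smul_eq_mul]
  rw [integral_const_mul]
  rfl

theorem p_body {n : ℕ} (K : Set (E n)) (hK : Body n K) (M : E n ≃L[ℝ] E n) : Body n (M '' K) := by
  refine ⟨hK.cpt.image M.continuous, ?_, ?_, ?_⟩
  · exact hK.cvx.linear_image (M.toLinearEquiv : E n →ₗ[ℝ] E n)
  · rintro _ ⟨x, hx, rfl⟩
    exact ⟨-x, hK.sym x hx, map_neg M x⟩
  · obtain ⟨r, hr, hb⟩ := hK.int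
    have h1 : IsOpen (M '' Metric.ball 0 r) := M.toHomeomorph.isOpenMap _ Metric.isOpen_ball
    obtain ⟨s, hs, hs'⟩ := Metric.isOpen_iff.1 h1 0 ⟨0, Metric.mem_ball_self hr, map_zero M⟩
    exact ⟨s, hs, hs'.trans (Set.image_mono hb)⟩

theorem p_w_le {n : ℕ} (g x : E n) : w n g x ≤ Real.exp (‖g‖ ^ 2 / 2) := by
  unfold w
  apply Real.exp_le_exp.2
  have h := norm_sub_sq_real x g
  nlinarith [sq_nonneg ‖x - g‖]

theorem p_w_cont (n : ℕ) : Continuous (fun p : E n × E n => w n p.1 p.2) := by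
  unfold w
  fun_prop

theorem p_J_le {n : ℕ} (L : Set (E n)) (hL : Body n L) (g : E n) :
    J n L g ≤ volume.real L * Real.exp (‖g‖ ^ 2 / 2) := by
  unfold J
  have hc : ContinuousOn (w n g) L := ((p_w_cont n).comp (continuous_const.prodMk continuous_id)).continuousOn
  have h1 := setIntegral_mono_on (hc.integrableOn_compact hL.cpt)
    (integrableOn_const (μ := volume) (C := Real.exp (‖g‖ ^ 2 / 2)) (hL.cpt.measure_lt_top.ne))
    hL.cpt.measurableSet (fun x _ => p_w_le g x)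
  refine h1.trans (le_of_eq ?_)
  rw [setIntegral_const, smul_eq_mul]

theorem p_gauss (n : ℕ) : Integrable (fun x : E n => Real.exp (-‖x‖^2/2)) ∧
    ∫ x : E n, Real.exp (-‖x‖^2/2) = (2 * Real.pi) ^ ((n:ℝ)/2) := by
  have h := gint n (fun _ => 1)
  simp only [mul_one] at h
  have h1 : ∫ _x : E n, (1:ℝ) ∂(gm n) = 1 := by
    unfold gm
    simp
  rw [h1] at h
  have h2 : 0 < (2 * Real.pi) ^ (-(n:ℝ)/2) := by positivity
  have h3 : ∫ x : E n, Real.exp (-‖x‖^2/2) = (2 * Real.pi) ^ ((n:ℝ)/2) := by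
    have h4 : (2 * Real.pi) ^ ((n:ℝ)/2) * (2 * Real.pi) ^ (-(n:ℝ)/2) = 1 := by
      rw [← Real.rpow_add (by positivity)]
      have : (n:ℝ)/2 + -(n:ℝ)/2 = 0 := by ring
      rw [this, Real.rpow_zero]
    calc ∫ x : E n, Real.exp (-‖x‖^2/2)
        = ((2 * Real.pi) ^ ((n:ℝ)/2) * (2 * Real.pi) ^ (-(n:ℝ)/2)) * ∫ x : E n, Real.exp (-‖x‖^2/2) := by
          rw [h4, one_mul]
      _ = (2 * Real.pi) ^ ((n:ℝ)/2) * ((2 * Real.pi) ^ (-(n:ℝ)/2) * ∫ x : E n, Real.exp (-‖x‖^2/2)) := by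
          ring
      _ = _ := by rw [← h, mul_one]
  refine ⟨?_, h3⟩
  by_contra hni
  rw [integral_undef hni] at h3
  have : 0 < (2 * Real.pi) ^ ((n:ℝ)/2) := by positivity
  linarith

theorem p_w_eq {n : ℕ} (g x : E n) :
    w n g x = Real.exp (‖g‖ ^ 2 / 2) * Real.exp (-‖x - g‖ ^ 2 / 2) := by
  unfold w
  rw [← Real.exp_add]
  congr 1
  have h := norm_sub_sq_real x g
  rw [h]
  ring

theorem p_J_le2 {n : ℕ} (L : Set (E n)) (_hL : Body n L) (g : E n) :
    J n L g ≤ (2 * Real.pi) ^ ((n:ℝ)/2) * Real.exp (‖g‖ ^ 2 / 2) := by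
  unfold J
  obtain ⟨hi, hv⟩ := p_gauss n
  have hi2 : Integrable (fun x : E n => Real.exp (-‖x - g‖ ^ 2 / 2)) := hi.comp_sub_right g
  have hw : w n g = fun x => Real.exp (‖g‖ ^ 2 / 2) * Real.exp (-‖x - g‖ ^ 2 / 2) := by
    funext x; exact p_w_eq g x
  have hiw : Integrable (w n g) := by rw [hw]; exact hi2.const_mul _
  have h1 : ∫ x in L, w n g x ≤ ∫ x, w n g x :=
    setIntegral_le_integral hiw (Filter.Eventually.of_forall fun x => (Real.exp_pos _).le)
  refine h1.trans (le_of_eq ?_)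
  rw [hw]
  rw [integral_const_mul, integral_sub_right_eq_self (fun x : E n => Real.exp (-‖x‖ ^ 2 / 2)) g, hv]
  ring

theorem p_logJ_int {n : ℕ} (L : Set (E n)) (hL : Body n L) :
    Integrable (fun g => Real.log (J n L g)) (gm n) := by
  have hm : StronglyMeasurable (fun g => J n L g) := by
    unfold J
    exact ((p_w_cont n).stronglyMeasurable).integral_prod_right' (ν := volume.restrict L)
  have hm2 : AEStronglyMeasurable (fun g => Real.log (J n L g)) (gm n) :=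
    (Real.measurable_log.comp hm.measurable).aestronglyMeasurable
  have hb : Integrable (fun g : E n => |Real.log (J n L 0)| +
      |Real.log ((2 * Real.pi) ^ ((n:ℝ)/2))| + ‖g‖ ^ 2 / 2) (gm n) := by
    have : IsProbabilityMeasure (gm n) := by unfold gm; infer_instance
    exact (integrable_const _).add ((gsq n).1.div_const 2)
  refine hb.mono' hm2 (Filter.Eventually.of_forall fun g => ?_)
  rw [Real.norm_eq_abs, abs_le]
  obtain ⟨h1, h2, _⟩ := Jpos n L hL g
  have h0 := (Jpos n L hL 0).1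
  have h3 : Real.log (J n L 0) ≤ Real.log (J n L g) := Real.log_le_log h0 h2
  have h4 : Real.log (J n L g) ≤ Real.log ((2 * Real.pi) ^ ((n:ℝ)/2)) + ‖g‖ ^ 2 / 2 := by
    have h5 := Real.log_le_log h1 (p_J_le2 L hL g)
    rwa [Real.log_mul (by positivity) (Real.exp_pos _).ne', Real.log_exp] at h5
  have h6 := neg_abs_le (Real.log (J n L 0))
  have h7 := le_abs_self (Real.log ((2 * Real.pi) ^ ((n:ℝ)/2)))
  have h8 := abs_nonneg (Real.log ((2 * Real.pi) ^ ((n:ℝ)/2)))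
  have h9 := abs_nonneg (Real.log (J n L 0))
  have h10 := sq_nonneg ‖g‖
  constructor <;> linarith

noncomputable def Psi (n : ℕ) (L : Set (E n)) : ℝ := ∫ g, Real.log (J n L g) ∂(gm n)

theorem p_Phi {n : ℕ} (K : Set (E n)) (hK : Body n K) (M : E n ≃L[ℝ] E n) :
    Phi n K (M : E n →L[ℝ] E n) = -(1/10) * Real.log (pdt M) + Psi n (M '' K) := by
  have : IsProbabilityMeasure (gm n) := by unfold gm; infer_instance
  have hd := pdt_pos M
  have h1 : ∀ g : E n, Real.log (∫ x in K, w n g ((M : E n →L[ℝ] E n) x)) =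
      -Real.log (pdt M) + Real.log (J n (M '' K) g) := by
    intro g
    have h2 := p_cov K hK M (w n g)
    have hJ := (Jpos n (M '' K) (p_body K hK M) g).1
    have h3 : ∫ x in K, w n g ((M : E n →L[ℝ] E n) x) = (pdt M)⁻¹ * J n (M '' K) g := by
      unfold J
      rw [h2]
      rw [← mul_assoc, inv_mul_cancel₀ hd.ne', one_mul]
      rfl
    rw [h3, Real.log_mul (inv_pos.2 hd).ne' hJ.ne', Real.log_inv]
  unfold Phi Psi
  simp_rw [h1]
  rw [integral_add (integrable_const _) (p_logJ_int _ (p_body K hK M)), integral_const]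
  simp only [probReal_univ, one_smul]
  unfold pdt
  ring

theorem p_exp_sq (n : ℕ) : Integrable (fun g : E n => ‖g‖ ^ 2 / 2) (gm n) ∧
    ∫ g : E n, ‖g‖ ^ 2 / 2 ∂(gm n) = (n : ℝ) / 2 := by
  refine ⟨(gsq n).1.div_const 2, ?_⟩
  rw [integral_div, (gsq n).2]

theorem p_Psi_le {n : ℕ} (L : Set (E n)) (hL : Body n L) (V : ℝ) (hV : 0 < V)
    (h : ∀ g, J n L g ≤ V * Real.exp (‖g‖ ^ 2 / 2)) : Psi n L ≤ Real.log V + n / 2 := by
  have : IsProbabilityMeasure (gm n) := by unfold gm; infer_instance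
  have h1 : Psi n L ≤ ∫ g : E n, (Real.log V + ‖g‖ ^ 2 / 2) ∂(gm n) := by
    refine integral_mono (p_logJ_int L hL) ((integrable_const _).add (p_exp_sq n).1) fun g => ?_
    have h5 := Real.log_le_log (Jpos n L hL g).1 (h g)
    rwa [Real.log_mul hV.ne' (Real.exp_pos _).ne', Real.log_exp] at h5
  rw [integral_add (integrable_const _) (p_exp_sq n).1, (p_exp_sq n).2, integral_const] at h1
  simpa using h1

theorem p_bdd {n : ℕ} (K : Set (E n)) (hK : Body n K) :
    BddAbove (Set.range (fun M : E n ≃L[ℝ] E n => Phi n K (M : E n →L[ℝ] E n))) := by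
  have hVK : 0 < volume.real K := by
    have h1 := (Jpos n K hK 0).1.trans_le (p_J_le K hK 0)
    exact (pos_iff_pos_of_mul_pos h1).2 (Real.exp_pos _)
  refine ⟨max (Real.log ((2 * Real.pi) ^ ((n:ℝ)/2)) + n / 2) (Real.log (volume.real K) + n / 2), ?_⟩
  rintro _ ⟨M, rfl⟩
  show Phi n K (M : E n →L[ℝ] E n) ≤ _
  rw [p_Phi K hK M]
  have hL := p_body K hK M
  have hd := pdt_pos M
  have h1 := p_Psi_le (M '' K) hL _ (by positivity) (p_J_le2 (M '' K) hL)
  have hvol : volume.real (M '' K) = pdt M * volume.real K := by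
    have h2 := p_cov K hK M (fun _ => 1)
    simpa using h2
  have h2 := p_Psi_le (M '' K) hL (volume.real (M '' K)) (by rw [hvol]; positivity)
    (p_J_le (M '' K) hL)
  rw [hvol, Real.log_mul hd.ne' hVK.ne'] at h2
  rcases le_or_gt 0 (Real.log (pdt M)) with h | h
  · refine le_trans ?_ (le_max_left _ _)
    linarith
  · refine le_trans ?_ (le_max_right _ _)
    linarith

theorem p_trans {n : ℕ} (K : Set (E n)) (hK : Body n K) (M T : E n ≃L[ℝ] E n) :
    Phi n (M '' K) (T : E n →L[ℝ] E n) =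
      Phi n K ((M.trans T : E n ≃L[ℝ] E n) : E n →L[ℝ] E n) + (1/10) * Real.log (pdt M) := by
  rw [p_Phi _ (p_body K hK M) T, p_Phi K hK (M.trans T)]
  have h1 : (T '' (M '' K)) = (M.trans T) '' K := by
    rw [Set.image_image]
    rfl
  have h2 : pdt (M.trans T) = pdt T * pdt M := by
    unfold pdt
    rw [← abs_mul, ← LinearMap.det_comp]
    rfl
  rw [h1, h2, Real.log_mul (pdt_pos T).ne' (pdt_pos M).ne']
  ring

theorem posit (n : ℕ) (K : Set (E n)) (hK : Body n K) :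
    ∃ M : E n ≃L[ℝ] E n, Body n (M '' K) ∧ NearOpt n (M '' K) := by
  have hb := p_bdd K hK
  obtain ⟨_, ⟨M, rfl⟩, hM⟩ := exists_lt_of_lt_csSup (Set.range_nonempty
    (fun M : E n ≃L[ℝ] E n => Phi n K (M : E n →L[ℝ] E n)))
    (show sSup (Set.range (fun M : E n ≃L[ℝ] E n => Phi n K (M : E n →L[ℝ] E n))) - 1/10000 <
      sSup (Set.range (fun M : E n ≃L[ℝ] E n => Phi n K (M : E n →L[ℝ] E n))) by linarith)
  refine ⟨M, p_body K hK M, fun T hT => ?_⟩
  have hT' : T.det ≠ 0 := hT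
  have e1 : T = ((T.toContinuousLinearEquivOfDetNeZero hT' : E n ≃L[ℝ] E n) : E n →L[ℝ] E n) :=
    (ContinuousLinearMap.coe_toContinuousLinearEquivOfDetNeZero T hT').symm
  have e2 : ContinuousLinearMap.id ℝ (E n) =
      ((ContinuousLinearEquiv.refl ℝ (E n) : E n ≃L[ℝ] E n) : E n →L[ℝ] E n) := rfl
  rw [e1, e2, p_trans K hK M, p_trans K hK M]
  have h1 : Phi n K ((M.trans (T.toContinuousLinearEquivOfDetNeZero hT') : E n ≃L[ℝ] E n) :
      E n →L[ℝ] E n) ≤ sSup (Set.range (fun M : E n ≃L[ℝ] E n => Phi n K (M : E n →L[ℝ] E n))) :=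
    le_csSup hb ⟨_, rfl⟩
  have h2 : Phi n K ((M.trans (ContinuousLinearEquiv.refl ℝ (E n)) : E n ≃L[ℝ] E n) :
      E n →L[ℝ] E n) = Phi n K (M : E n →L[ℝ] E n) := rfl
  rw [h2]
  simp only at hM
  linarith

end Pool.Agent.PZ871.M_posit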