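import Mathlib
import Pool.Agent.PZ871.Defs
import Pool.Agent.PZ871.Jpos
import Pool.Agent.PZ871.Gsq
set_option autoImplicit false
set_option maxHeartbeats 1000000
namespace Pool.Agent.PZ871.M_small
open Pool.Agent.PZ871.M_Jpos (Jpos)
open Pool.Agent.PZ871.M_gsq (gsq)
open MeasureTheory Set
open scoped RealInnerProductSpace ENNReal








theorem wint (n : ℕ) (g : E n) : Integrable (w n g) (volume : Measure (E n)) := by
  have h := (GaussianFourier.integrable_cexp_neg_mul_sq_norm_add (V := E n) (b := ((1/2 : ℝ) : ℂ))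
    (by simp) 1 g).norm
  refine h.congr (Filter.Eventually.of_forall fun x => ?_)
  simp only [Complex.norm_exp]
  unfold w
  congr 1
  rw [real_inner_comm]
  have : (-((1/2 : ℝ) : ℂ) * (‖x‖ : ℂ) ^ 2 + 1 * ((inner ℝ x g : ℝ) : ℂ)) = ((-‖x‖^2/2 + inner ℝ x g : ℝ) : ℂ) := by
    push_cast; ring
  rw [this]; exact Complex.ofReal_re _

theorem wtot (n : ℕ) (g : E n) :
    ∫ x, w n g x = (2 * Real.pi) ^ ((n:ℝ)/2) * Real.exp (‖g‖^2/2) := by
  have h1 : ∀ x : E n, w n g x = Real.exp (‖g‖^2/2) * Real.exp (-(1/2) * ‖x - g‖^2) := by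
    intro x
    unfold w
    rw [← Real.exp_add, norm_sub_sq_real]
    congr 1; ring
  simp_rw [h1]
  rw [integral_const_mul, integral_sub_right_eq_self (fun x : E n => Real.exp (-(1/2) * ‖x‖^2)) g,
    GaussianFourier.integral_rexp_neg_mul_sq_norm (V := E n) (b := 1/2) (by norm_num),
    finrank_euclideanSpace, Fintype.card_fin, mul_comm]
  congr 2
  ring

theorem wpos (n : ℕ) (g x : E n) : 0 < w n g x := Real.exp_pos _

theorem Jle (n : ℕ) (K : Set (E n)) (g : E n) :
    J n K g ≤ (2 * Real.pi) ^ ((n:ℝ)/2) * Real.exp (‖g‖^2/2) := by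
  rw [← wtot]
  exact setIntegral_le_integral (wint n g) (Filter.Eventually.of_forall fun x => (wpos n g x).le)

theorem logJle (n : ℕ) (K : Set (E n)) (hK : Body n K) (g : E n) :
    Real.log (J n K g) ≤ (n:ℝ)/2 * Real.log (2 * Real.pi) + ‖g‖^2/2 := by
  have h := Real.log_le_log (Jpos n K hK g).1 (Jle n K g)
  rw [Real.log_mul (by positivity) (Real.exp_pos _).ne', Real.log_exp,
    Real.log_rpow (by positivity)] at h
  exact h

theorem Jmeas (n : ℕ) (K : Set (E n)) : StronglyMeasurable (fun g => J n K g) := by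
  unfold J
  have hc : Continuous (Function.uncurry (fun g x : E n => w n g x)) := by
    unfold w Function.uncurry
    fun_prop
  exact hc.stronglyMeasurable.integral_prod_right

theorem logint (n : ℕ) (K : Set (E n)) (hK : Body n K) :
    Integrable (fun g => Real.log (J n K g)) (gm n) := by
  have hb : Integrable (fun g : E n => |Real.log (J n K 0)| + |(n:ℝ)/2 * Real.log (2 * Real.pi)| + ‖g‖^2/2) (gm n) := by
    have : IsProbabilityMeasure (gm n) := by unfold gm; infer_instance
    exact (integrable_const _).add ((gsq n).1.div_const 2)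
  refine hb.mono' ?_ (Filter.Eventually.of_forall fun g => ?_)
  · exact (Real.measurable_log.comp (Jmeas n K).measurable).aestronglyMeasurable
  · rw [Real.norm_eq_abs, abs_le]
    have h1 := logJle n K hK g
    have h2 : Real.log (J n K 0) ≤ Real.log (J n K g) :=
      Real.log_le_log (Jpos n K hK 0).1 (Jpos n K hK g).2.1
    have h3 := neg_abs_le (Real.log (J n K 0))
    have h4 := le_abs_self ((n:ℝ)/2 * Real.log (2 * Real.pi))
    have h5 := abs_nonneg ((n:ℝ)/2 * Real.log (2 * Real.pi))
    have h6 := abs_nonneg (Real.log (J n K 0))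
    have h7 : 0 ≤ ‖g‖^2/2 := by positivity
    constructor <;> linarith

open scoped Pointwise in
theorem bodysmul (n : ℕ) (K : Set (E n)) (hK : Body n K) (c : ℝ) (hc : 0 < c) : Body n (c • K) where
  cpt := hK.cpt.smul c
  cvx := hK.cvx.smul c
  sym := by
    rintro x ⟨y, hy, rfl⟩
    exact ⟨-y, hK.sym y hy, by simp⟩
  int := by
    obtain ⟨r, hr, h⟩ := hK.int
    refine ⟨c * r, by positivity, fun x hx => ?_⟩
    rw [Set.mem_smul_set_iff_inv_smul_mem₀ hc.ne']
    apply h
    rw [mem_ball_zero_iff] at hx ⊢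
    rw [norm_smul, norm_inv, Real.norm_eq_abs, abs_of_pos hc, inv_mul_lt_iff₀ hc]
    exact hx

/- TO PROVE -/
open scoped Pointwise in
theorem small (n : ℕ) (K : Set (E n)) (hK : Body n K) (ho : NearOpt n K) :
    (gm n).real ((fun x => Real.exp (-100) • x) '' K) ≤ Real.exp (1/10000 - (19/2) * n) := by
  have hprob : IsProbabilityMeasure (gm n) := by unfold gm; infer_instance
  obtain ⟨c, hc⟩ : ∃ c : ℝ, c = Real.exp (-100) := ⟨_, rfl⟩
  have hc0 : 0 < c := hc ▸ Real.exp_pos _
  have hlogc : Real.log c = -100 := by rw [hc, Real.log_exp]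
  have him : (fun x : E n => Real.exp (-100) • x) '' K = c • K := by
    rw [← hc]; rfl
  rw [him]
  have hB : Body n (c • K) := bodysmul n K hK c hc0
  have hdet : LinearMap.det ((c • ContinuousLinearMap.id ℝ (E n) : E n →L[ℝ] E n) : E n →ₗ[ℝ] E n) = c ^ n := by
    have : ((c • ContinuousLinearMap.id ℝ (E n) : E n →L[ℝ] E n) : E n →ₗ[ℝ] E n) = c • (LinearMap.id : E n →ₗ[ℝ] E n) := by
      ext x; simp
    rw [this, LinearMap.det_smul, LinearMap.det_id, finrank_euclideanSpace, Fintype.card_fin, mul_one]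
  have h := ho (c • ContinuousLinearMap.id ℝ (E n)) (by rw [hdet]; positivity)
  unfold Phi at h
  rw [hdet] at h
  have hid : LinearMap.det ((ContinuousLinearMap.id ℝ (E n) : E n →L[ℝ] E n) : E n →ₗ[ℝ] E n) = 1 := by
    have : ((ContinuousLinearMap.id ℝ (E n) : E n →L[ℝ] E n) : E n →ₗ[ℝ] E n) = (LinearMap.id : E n →ₗ[ℝ] E n) := by
      ext x; simp
    rw [this, LinearMap.det_id]
  rw [hid] at h
  have hL : ∀ g : E n, Real.log (∫ x in K, w n g ((c • ContinuousLinearMap.id ℝ (E n) : E n →L[ℝ] E n) x)) =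
      100 * n + Real.log (J n (c • K) g) := by
    intro g
    have h1 : ∫ x in K, w n g ((c • ContinuousLinearMap.id ℝ (E n) : E n →L[ℝ] E n) x) =
        (c ^ n)⁻¹ * J n (c • K) g := by
      have := MeasureTheory.Measure.setIntegral_comp_smul_of_pos (volume : Measure (E n)) (w n g) K hc0
      rw [finrank_euclideanSpace, Fintype.card_fin, smul_eq_mul] at this
      simpa [J] using this
    rw [h1, Real.log_mul (by positivity) (Jpos n (c • K) hB g).1.ne', Real.log_inv, Real.log_pow, hlogc]
    ring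
  simp_rw [hL] at h
  have hIL := logint n (c • K) hB
  rw [integral_add (integrable_const _) hIL] at h
  simp only [integral_const, probReal_univ, one_smul, smul_eq_mul, one_mul] at h
  have hlow : Real.log (J n (c • K) 0) ≤ ∫ g, Real.log (J n (c • K) g) ∂(gm n) := by
    have h1 : ∫ g, Real.log (J n (c • K) 0) ∂(gm n) ≤ ∫ g, Real.log (J n (c • K) g) ∂(gm n) :=
      integral_mono (integrable_const _) hIL
        (fun g => Real.log_le_log (Jpos n (c • K) hB 0).1 (Jpos n (c • K) hB g).2.1)
    simpa using h1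
  have hup : ∫ g, Real.log (∫ x in K, w n g ((ContinuousLinearMap.id ℝ (E n)) x)) ∂(gm n) ≤
      (n:ℝ)/2 * Real.log (2 * Real.pi) + (n:ℝ)/2 := by
    have h0 : ∀ g : E n, (∫ x in K, w n g ((ContinuousLinearMap.id ℝ (E n)) x)) = J n K g := by
      intro g; rfl
    simp_rw [h0]
    have h1 : ∫ g, Real.log (J n K g) ∂(gm n) ≤ ∫ g, ((n:ℝ)/2 * Real.log (2 * Real.pi) + ‖g‖^2/2) ∂(gm n) :=
      integral_mono (logint n K hK) ((integrable_const _).add ((gsq n).1.div_const 2))
        (fun g => logJle n K hK g)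
    rw [integral_add (integrable_const _) ((gsq n).1.div_const 2), integral_div, (gsq n).2] at h1
    simpa using h1
  rw [abs_of_pos (by positivity : (0:ℝ) < c ^ n), Real.log_pow, hlogc, abs_one, Real.log_one] at h
  have hJ := (Jpos n (c • K) hB 0).2.2
  have hJp := (Jpos n (c • K) hB 0).1
  have hg0 : 0 < (gm n).real (c • K) := by
    rw [hJ] at hJp
    exact (pos_iff_pos_of_mul_pos hJp).1 (by positivity)
  rw [hJ, Real.log_mul (by positivity) hg0.ne', Real.log_rpow (by positivity)] at hlow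
  rw [← Real.log_le_iff_le_exp hg0]
  linarith

end Pool.Agent.PZ871.M_small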