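import Mathlib
import Pool.Agent.PZ871.Defs
import Pool.Agent.PZ871.Lower
import Pool.Agent.PZ871.Small
import Pool.Agent.PZ871.Posit
set_option autoImplicit false
set_option maxHeartbeats 1000000
namespace Pool.Agent.PZ871.M_gp
open Pool.Agent.PZ871.M_lower (lower)
open Pool.Agent.PZ871.M_small (small)
open Pool.Agent.PZ871.M_posit (posit)
open MeasureTheory Set
open scoped RealInnerProductSpace ENNReal









/- TO PROVE -/
theorem gp (n : ℕ) (hn : 1 ≤ n) (K : Set (E n)) (hK : Body n K) :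
    ∃ M : E n ≃L[ℝ] E n, Body n (M '' K) ∧ Real.exp (-(6 * n)) ≤ (gm n).real (M '' K) ∧
      (gm n).real ((fun x => Real.exp (-100) • x) '' (M '' K)) ≤ Real.exp (-(9 * n)) := by
  obtain ⟨M, hM1, hM2⟩ := posit n K hK
  refine ⟨M, hM1, lower n _ hM1 hM2, (small n _ hM1 hM2).trans ?_⟩
  apply Real.exp_le_exp.2
  have h : (1 : ℝ) ≤ n := by exact_mod_cast hn
  linarith

end Pool.Agent.PZ871.M_gp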