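import Mathlib
import Pool.Agent.PZ871.Defs
import Pool.Agent.PZ871.Pl
import Pool.Agent.PZ871.Gdens
set_option autoImplicit false
set_option maxHeartbeats 1000000
namespace Pool.Agent.PZ871.M_mid
open Pool.Agent.PZ871.M_pl (pl)
open Pool.Agent.PZ871.M_gdens (gdens)
open MeasureTheory Set
open scoped RealInnerProductSpace ENNReal







/- TO PROVE -/
theorem mid (n : ℕ) (C1 C2 A : Set (E n)) (h1 : IsCompact C1) (h2 : IsCompact C2)
    (hA : IsCompact A) (hAc : Convex ℝ A) (h1A : C1 ⊆ A) (h2A : C2 ⊆ A) (r : ℝ) (hr : 0 ≤ r) :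
    IsCompact {z : E n | ∃ x, ‖x‖ ≤ r ∧ z + x ∈ C1 ∧ z - x ∈ C2} ∧
    (gm n).real C1 * (gm n).real C2 ≤
      ((gm n).real {z : E n | ∃ x, ‖x‖ ≤ r ∧ z + x ∈ C1 ∧ z - x ∈ C2}
        + Real.exp (-r^2/2) * (gm n).real A)^2 := by
  classical
  set M : Set (E n) := {z : E n | ∃ x, ‖x‖ ≤ r ∧ z + x ∈ C1 ∧ z - x ∈ C2} with hM
  have hMc : IsCompact M := by
    have hk : IsCompact ((C1 ×ˢ C2) ∩ {p : E n × E n | ‖p.1 - p.2‖ ≤ 2 * r}) := by
      refine (h1.prod h2).inter_right ?_
      exact isClosed_le (by fun_prop) (by fun_prop)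
    have him : M = (fun p : E n × E n => (1/2 : ℝ) • (p.1 + p.2)) ''
        ((C1 ×ˢ C2) ∩ {p : E n × E n | ‖p.1 - p.2‖ ≤ 2 * r}) := by
      ext z
      constructor
      · rintro ⟨x, hx, hp, hq⟩
        refine ⟨(z + x, z - x), ⟨⟨hp, hq⟩, ?_⟩, ?_⟩
        · show ‖(z + x) - (z - x)‖ ≤ 2 * r
          have : (z + x) - (z - x) = (2 : ℝ) • x := by module
          rw [this, norm_smul, Real.norm_eq_abs, abs_of_pos (by norm_num : (0:ℝ) < 2)]
          linarith
        · show (1/2 : ℝ) • ((z + x) + (z - x)) = z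
          module
      · rintro ⟨⟨p, q⟩, ⟨⟨hp, hq⟩, hpq⟩, rfl⟩
        refine ⟨(1/2 : ℝ) • (p - q), ?_, ?_, ?_⟩
        · have hpq' : ‖p - q‖ ≤ 2 * r := hpq
          rw [norm_smul, Real.norm_eq_abs, abs_of_pos (by norm_num : (0:ℝ) < 1/2)]
          linarith
        · have : (1/2 : ℝ) • (p + q) + (1/2 : ℝ) • (p - q) = p := by module
          show (1/2 : ℝ) • (p + q) + (1/2 : ℝ) • (p - q) ∈ C1
          rw [this]; exact hp
        · have : (1/2 : ℝ) • (p + q) - (1/2 : ℝ) • (p - q) = q := by module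
          show (1/2 : ℝ) • (p + q) - (1/2 : ℝ) • (p - q) ∈ C2
          rw [this]; exact hq
    rw [him]
    exact hk.image (by fun_prop)
  refine ⟨hMc, ?_⟩
  set c : ℝ := (2 * Real.pi) ^ (-(n:ℝ)/2) with hc
  have hc0 : 0 < c := Real.rpow_pos_of_pos (by positivity) _
  let φ : E n → ℝ≥0∞ := fun x => ENNReal.ofReal (c * Real.exp (-‖x‖^2/2))
  have hφm : Measurable φ := by
    refine ENNReal.measurable_ofReal.comp ?_
    fun_prop
  have hgm : ∀ S : Set (E n), MeasurableSet S → ∫⁻ x, S.indicator φ x = gm n S := by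
    intro S hS
    rw [lintegral_indicator hS, gdens n, withDensity_apply _ hS]
  have hmM := hMc.measurableSet
  have hmA := hA.measurableSet
  have hm1 := h1.measurableSet
  have hm2 := h2.measurableSet
  have hpl := pl n (C1.indicator φ) (C2.indicator φ)
    (fun z => M.indicator φ z + ENNReal.ofReal (Real.exp (-r^2/2)) * A.indicator φ z)
    (hφm.indicator hm1) (hφm.indicator hm2)
    ((hφm.indicator hmM).add ((hφm.indicator hmA).const_mul _)) (by
      intro p q
      by_cases hp : p ∈ C1
      swap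
      · rw [Set.indicator_of_notMem hp, zero_mul]; exact bot_le
      by_cases hq : q ∈ C2
      swap
      · rw [Set.indicator_of_notMem hq, mul_zero]; exact bot_le
      rw [Set.indicator_of_mem hp, Set.indicator_of_mem hq]
      set z : E n := (1/2 : ℝ) • (p + q) with hz
      set x : E n := (1/2 : ℝ) • (p - q) with hx
      have hpar : ‖p‖^2 + ‖q‖^2 = 2 * ‖z‖^2 + 2 * ‖x‖^2 := by
        have h := parallelogram_law_with_norm ℝ z x
        have e1 : z + x = p := by rw [hz, hx]; module
        have e2 : z - x = q := by rw [hz, hx]; module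
        rw [e1, e2] at h
        nlinarith [h]
      have hprod : φ p * φ q =
          ENNReal.ofReal ((c * Real.exp (-‖z‖^2/2)) ^ 2 * Real.exp (-‖x‖^2)) := by
        show ENNReal.ofReal _ * ENNReal.ofReal _ = _
        rw [← ENNReal.ofReal_mul (by positivity)]
        congr 1
        have : (c * Real.exp (-‖z‖^2/2)) ^ 2 * Real.exp (-‖x‖^2) =
            c * c * (Real.exp (-‖z‖^2/2) * Real.exp (-‖z‖^2/2) * Real.exp (-‖x‖^2)) := by ring
        rw [this, ← Real.exp_add, ← Real.exp_add]
        have h3 : c * Real.exp (-‖p‖^2/2) * (c * Real.exp (-‖q‖^2/2)) =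
            c * c * (Real.exp (-‖p‖^2/2) * Real.exp (-‖q‖^2/2)) := by ring
        rw [h3, ← Real.exp_add]
        congr 2
        linarith
      rw [hprod]
      have hφz : φ z = ENNReal.ofReal (c * Real.exp (-‖z‖^2/2)) := rfl
      by_cases hxr : ‖x‖ ≤ r
      · have hzM : z ∈ M := by
          refine ⟨x, hxr, ?_, ?_⟩
          · have e1 : z + x = p := by rw [hz, hx]; module
            rw [e1]; exact hp
          · have e2 : z - x = q := by rw [hz, hx]; module
            rw [e2]; exact hq
        calc ENNReal.ofReal ((c * Real.exp (-‖z‖^2/2)) ^ 2 * Real.exp (-‖x‖^2))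
            ≤ ENNReal.ofReal ((c * Real.exp (-‖z‖^2/2)) ^ 2) := by
              apply ENNReal.ofReal_le_ofReal
              have : Real.exp (-‖x‖^2) ≤ 1 := by
                rw [Real.exp_le_one_iff]
                nlinarith [sq_nonneg ‖x‖]
              have h0 : 0 ≤ (c * Real.exp (-‖z‖^2/2)) ^ 2 := sq_nonneg _
              nlinarith
          _ = (φ z) ^ 2 := by rw [hφz, ENNReal.ofReal_pow (by positivity)]
          _ ≤ _ := by
              rw [Set.indicator_of_mem hzM]
              gcongr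
              exact le_self_add
      · have hzA : z ∈ A := by
          have := hAc (h1A hp) (h2A hq) (by norm_num : (0:ℝ) ≤ 1/2) (by norm_num : (0:ℝ) ≤ 1/2)
            (by norm_num)
          rw [hz, smul_add]
          exact this
        push Not at hxr
        calc ENNReal.ofReal ((c * Real.exp (-‖z‖^2/2)) ^ 2 * Real.exp (-‖x‖^2))
            ≤ ENNReal.ofReal ((Real.exp (-r^2/2) * (c * Real.exp (-‖z‖^2/2))) ^ 2) := by
              apply ENNReal.ofReal_le_ofReal
              rw [mul_pow (Real.exp (-r^2/2)), mul_comm]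
              have : Real.exp (-‖x‖^2) ≤ Real.exp (-r^2/2) ^ 2 := by
                rw [← Real.exp_nat_mul, Real.exp_le_exp]
                push_cast
                nlinarith [norm_nonneg x]
              exact mul_le_mul_of_nonneg_right this (sq_nonneg _)
          _ = (ENNReal.ofReal (Real.exp (-r^2/2)) * φ z) ^ 2 := by
              rw [hφz, ENNReal.ofReal_pow (by positivity), ENNReal.ofReal_mul (by positivity)]
          _ ≤ _ := by
              show _ ≤ (M.indicator φ z + ENNReal.ofReal (Real.exp (-r^2/2)) * A.indicator φ z) ^ 2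
              rw [Set.indicator_of_mem hzA]
              gcongr
              exact le_add_self)
  rw [hgm C1 hm1, hgm C2 hm2, lintegral_add_left (hφm.indicator hmM),
    lintegral_const_mul _ (hφm.indicator hmA), hgm M hmM, hgm A hmA] at hpl
  haveI : IsProbabilityMeasure (gm n) := by unfold gm; infer_instance
  have hfin : (gm n M + ENNReal.ofReal (Real.exp (-r^2/2)) * gm n A) ^ 2 ≠ ⊤ := by
    apply ENNReal.pow_ne_top
    exact ENNReal.add_ne_top.mpr ⟨measure_ne_top _ _,
      ENNReal.mul_ne_top ENNReal.ofReal_ne_top (measure_ne_top _ _)⟩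
  have h := ENNReal.toReal_mono hfin hpl
  rw [ENNReal.toReal_mul, ENNReal.toReal_pow, ENNReal.toReal_add (measure_ne_top _ _)
    (ENNReal.mul_ne_top ENNReal.ofReal_ne_top (measure_ne_top _ _)), ENNReal.toReal_mul,
    ENNReal.toReal_ofReal (Real.exp_pos _).le] at h
  exact h

end Pool.Agent.PZ871.M_mid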