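import Mathlib
import Pool.Agent.PZ871.Defs
set_option autoImplicit false
set_option maxHeartbeats 1000000
namespace Pool.Agent.PZ871.M_oned
open MeasureTheory Set
open scoped RealInnerProductSpace ENNReal



/- TO PROVE -/
theorem oned (μ : Measure ℝ) [IsFiniteMeasure μ] (ζ L : ℝ) (hζ : 0 < ζ) (hL : 0 < L)
    (h : ¬ ∃ τ : ℝ, ζ ≤ μ.real (Iic τ) ∧ ζ ≤ μ.real (Ici (τ + L))) :
    ∃ l : ℝ, μ.real (Icc l (l + L))ᶜ ≤ 2 * ζ := by
  by_cases hU : μ.real univ ≤ 2 * ζ
  · exact ⟨0, (measureReal_mono (subset_univ _)).trans hU⟩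
  push Not at hU
  have hreal : ∀ {s : ℕ → Set ℝ} {a : Set ℝ}, Filter.Tendsto (μ ∘ s) Filter.atTop (nhds (μ a)) →
      Filter.Tendsto (fun n => μ.real (s n)) Filter.atTop (nhds (μ.real a)) := by
    intro s a h1
    exact (ENNReal.tendsto_toReal (measure_ne_top μ a)).comp h1
  have hd : Filter.Tendsto (fun n : ℕ => (1 : ℝ) / (n + 1)) Filter.atTop (nhds 0) :=
    tendsto_one_div_add_atTop_nhds_zero_nat
  -- nonempty
  have hne : ({t : ℝ | ζ ≤ μ.real (Iic t)}).Nonempty := by
    have h1 : Filter.Tendsto (μ ∘ fun n : ℕ => Iic (n : ℝ)) Filter.atTop (nhds (μ (⋃ n : ℕ, Iic (n : ℝ)))) := by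
      apply tendsto_measure_iUnion_atTop
      intro a b hab
      exact Iic_subset_Iic.mpr (by exact_mod_cast hab)
    have h2 : (⋃ n : ℕ, Iic (n : ℝ)) = univ := by
      rw [eq_univ_iff_forall]
      intro x
      obtain ⟨n, hn⟩ := exists_nat_ge x
      exact mem_iUnion.mpr ⟨n, hn⟩
    rw [h2] at h1
    have h3 := hreal h1
    have h4 : ∀ᶠ n : ℕ in Filter.atTop, ζ < μ.real (Iic (n : ℝ)) :=
      h3.eventually_const_lt (by linarith)
    obtain ⟨n, hn⟩ := h4.exists
    exact ⟨n, hn.le⟩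
  -- bounded below
  have hbdd : BddBelow {t : ℝ | ζ ≤ μ.real (Iic t)} := by
    have h1 : Filter.Tendsto (μ ∘ fun n : ℕ => Iic (-(n : ℝ))) Filter.atTop (nhds (μ (⋂ n : ℕ, Iic (-(n : ℝ))))) := by
      apply tendsto_measure_iInter_atTop
      · intro i
        exact measurableSet_Iic.nullMeasurableSet
      · intro a b hab
        exact Iic_subset_Iic.mpr (neg_le_neg (by exact_mod_cast hab))
      · exact ⟨0, measure_ne_top _ _⟩
    have h2 : (⋂ n : ℕ, Iic (-(n : ℝ))) = ∅ := by
      rw [eq_empty_iff_forall_notMem]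
      intro x hx
      obtain ⟨n, hn⟩ := exists_nat_gt (-x)
      have h3 := mem_iInter.mp hx n
      rw [mem_Iic] at h3
      linarith
    rw [h2] at h1
    have h3 := hreal h1
    have h4 : ∀ᶠ n : ℕ in Filter.atTop, μ.real (Iic (-(n : ℝ))) < ζ :=
      h3.eventually_lt_const (by simpa using hζ)
    obtain ⟨n, hn⟩ := h4.exists
    refine ⟨-(n : ℝ), ?_⟩
    intro t ht
    by_contra hc
    push Not at hc
    have h5 : μ.real (Iic t) ≤ μ.real (Iic (-(n : ℝ))) := measureReal_mono (Iic_subset_Iic.mpr hc.le)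
    have h6 : ζ ≤ μ.real (Iic t) := ht
    linarith
  set l := sInf {t : ℝ | ζ ≤ μ.real (Iic t)} with hl
  -- right continuity
  have hr : ζ ≤ μ.real (Iic l) := by
    have h1 : Filter.Tendsto (μ ∘ fun n : ℕ => Iic (l + 1 / ((n : ℝ) + 1))) Filter.atTop
        (nhds (μ (⋂ n : ℕ, Iic (l + 1 / ((n : ℝ) + 1))))) := by
      apply tendsto_measure_iInter_atTop
      · intro i
        exact measurableSet_Iic.nullMeasurableSet
      · intro a b hab
        refine Iic_subset_Iic.mpr ?_
        have : (1 : ℝ) / ((b : ℝ) + 1) ≤ 1 / ((a : ℝ) + 1) := by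
          apply one_div_le_one_div_of_le
          · positivity
          · have : (a : ℝ) ≤ b := by exact_mod_cast hab
            linarith
        linarith
      · exact ⟨0, measure_ne_top _ _⟩
    have h2 : (⋂ n : ℕ, Iic (l + 1 / ((n : ℝ) + 1))) = Iic l := by
      ext x
      rw [mem_iInter]
      constructor
      · intro hx
        have h3 : Filter.Tendsto (fun n : ℕ => l + (1 : ℝ) / (n + 1)) Filter.atTop (nhds (l + 0)) :=
          hd.const_add l
        rw [add_zero] at h3
        exact ge_of_tendsto' h3 (fun n => hx n)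
      · intro hx n
        rw [mem_Iic] at hx ⊢
        have : (0 : ℝ) < 1 / ((n : ℝ) + 1) := by positivity
        linarith
    rw [h2] at h1
    have h3 := hreal h1
    refine ge_of_tendsto' h3 (fun n => ?_)
    have h4 : l < l + 1 / ((n : ℝ) + 1) := by
      have : (0 : ℝ) < 1 / ((n : ℝ) + 1) := by positivity
      linarith
    obtain ⟨s, hs, hs2⟩ := exists_lt_of_csInf_lt hne h4
    have h5 : ζ ≤ μ.real (Iic s) := hs
    exact h5.trans (measureReal_mono (Iic_subset_Iic.mpr hs2.le))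
  have hlft : μ.real (Iio l) ≤ ζ := by
    have h1 : Filter.Tendsto (μ ∘ fun n : ℕ => Iic (l - 1 / ((n : ℝ) + 1))) Filter.atTop
        (nhds (μ (⋃ n : ℕ, Iic (l - 1 / ((n : ℝ) + 1))))) := by
      apply tendsto_measure_iUnion_atTop
      intro a b hab
      refine Iic_subset_Iic.mpr ?_
      have : (1 : ℝ) / ((b : ℝ) + 1) ≤ 1 / ((a : ℝ) + 1) := by
        apply one_div_le_one_div_of_le
        · positivity
        · have : (a : ℝ) ≤ b := by exact_mod_cast hab
          linarith
      linarith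
    have h2 : (⋃ n : ℕ, Iic (l - 1 / ((n : ℝ) + 1))) = Iio l := by
      ext x
      rw [mem_iUnion]
      constructor
      · rintro ⟨n, hn⟩
        rw [mem_Iic] at hn
        rw [mem_Iio]
        have : (0 : ℝ) < 1 / ((n : ℝ) + 1) := by positivity
        linarith
      · intro hx
        rw [mem_Iio] at hx
        obtain ⟨n, hn⟩ := exists_nat_one_div_lt (sub_pos.mpr hx)
        refine ⟨n, ?_⟩
        rw [mem_Iic]
        linarith
    rw [h2] at h1
    have h3 := hreal h1
    refine le_of_tendsto' h3 (fun n => ?_)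
    by_contra hc
    push Not at hc
    have h4 : l - 1 / ((n : ℝ) + 1) ∈ {t : ℝ | ζ ≤ μ.real (Iic t)} := hc.le
    have h5 := csInf_le hbdd h4
    have : (0 : ℝ) < 1 / ((n : ℝ) + 1) := by positivity
    linarith
  have hrt : μ.real (Ici (l + L)) < ζ := by
    by_contra hc
    push Not at hc
    exact h ⟨l, hr, hc⟩
  refine ⟨l, ?_⟩
  have hsub : (Icc l (l + L))ᶜ ⊆ Iio l ∪ Ici (l + L) := by
    intro x hx
    rw [mem_compl_iff, mem_Icc, not_and_or, not_le, not_le] at hx
    rcases hx with hx | hx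
    · exact Or.inl hx
    · exact Or.inr hx.le
  have h1 : μ.real (Icc l (l + L))ᶜ ≤ μ.real (Iio l ∪ Ici (l + L)) := measureReal_mono hsub
  have h2 := measureReal_union_le (μ := μ) (Iio l) (Ici (l + L))
  linarith

end Pool.Agent.PZ871.M_oned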