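import Mathlib
import Pool.Agent.PZ871.Defs
import Pool.Agent.PZ871.Oned
import Pool.Agent.PZ871.Pl
import Pool.Agent.PZ871.Gdens
set_option autoImplicit false
set_option maxHeartbeats 1000000
namespace Pool.Agent.PZ871.M_twos
open Pool.Agent.PZ871.M_oned (oned)
open Pool.Agent.PZ871.M_pl (pl)
open Pool.Agent.PZ871.M_gdens (gdens)
open MeasureTheory Set
open scoped RealInnerProductSpace ENNReal









/- TO PROVE -/
theorem twos (n N : ℕ) (hN : 1 ≤ N) (f : Fin N → (E n →L[ℝ] ℝ)) (c : ℝ) (hc : 0 < c)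
    (A : Set (E n)) (hA : IsCompact A)
    (hK : IsCompact {x : E n | ∀ j, |f j x| ≤ c})
    (hlt : 2 * (gm n).real {x : E n | ∀ j, |f j x| ≤ c} < (gm n).real A) :
    ∃ (j : Fin N) (τ : ℝ), (gm n).real A / (4 * N) ≤ (gm n).real (A ∩ {x | f j x ≤ τ}) ∧
      (gm n).real A / (4 * N) ≤ (gm n).real (A ∩ {x | τ + 2 * c ≤ f j x}) := by
  classical
  haveI hprob : IsProbabilityMeasure (gm n) := by unfold gm; infer_instance
  by_contra hcon
  push Not at hcon
  set a := (gm n).real A with ha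
  set Kc : Set (E n) := {x : E n | ∀ j, |f j x| ≤ c} with hKc
  have ha0 : 0 < a := by
    have : 0 ≤ (gm n).real Kc := measureReal_nonneg
    linarith
  have hN0 : (0:ℝ) < N := by exact_mod_cast hN
  have hζ : 0 < a / (4 * N) := by positivity
  have hAm : MeasurableSet A := hA.measurableSet
  have hmap : ∀ (j : Fin N) (S : Set ℝ), MeasurableSet S →
      (((gm n).restrict A).map (f j)).real S = (gm n).real (A ∩ {x | f j x ∈ S}) := by
    intro j S hS
    unfold Measure.real
    rw [Measure.map_apply (f j).measurable hS, Measure.restrict_apply ((f j).measurable hS)]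
    rw [Set.inter_comm]
    rfl
  have hex : ∀ j : Fin N, ∃ l : ℝ, (gm n).real (A ∩ {x | f j x ∈ (Icc l (l + 2 * c))ᶜ}) ≤ 2 * (a / (4 * N)) := by
    intro j
    have h1 := oned (((gm n).restrict A).map (f j)) (a / (4 * N)) (2 * c) hζ (by linarith) (by
      rintro ⟨τ, h1, h2⟩
      rw [hmap j _ measurableSet_Iic] at h1
      rw [hmap j _ measurableSet_Ici] at h2
      have h3 := hcon j τ h1
      exact absurd h2 (not_le.2 h3))
    obtain ⟨l, hl⟩ := h1
    rw [hmap j _ measurableSet_Icc.compl] at hl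
    exact ⟨l, hl⟩
  choose l hl using hex
  let D : Set (E n) := A ∩ ⋂ j, {x | f j x ∈ Icc (l j) (l j + 2 * c)}
  have hclosed : IsClosed (⋂ j, {x : E n | f j x ∈ Icc (l j) (l j + 2 * c)}) :=
    isClosed_iInter (fun j => isClosed_Icc.preimage (f j).continuous)
  have hDm : MeasurableSet D := hAm.inter hclosed.measurableSet
  have hsub : A ⊆ D ∪ ⋃ j ∈ (Finset.univ : Finset (Fin N)), (A ∩ {x | f j x ∈ (Icc (l j) (l j + 2 * c))ᶜ}) := by
    intro x hx
    by_cases hxD : x ∈ D
    · exact Or.inl hxD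
    · right
      have : ∃ j, f j x ∉ Icc (l j) (l j + 2 * c) := by
        by_contra hno
        push Not at hno
        exact hxD ⟨hx, Set.mem_iInter.2 (fun j => hno j)⟩
      obtain ⟨j, hj⟩ := this
      exact Set.mem_iUnion₂.2 ⟨j, Finset.mem_univ _, hx, hj⟩
  have hDbig : a / 2 ≤ (gm n).real D := by
    have h1 : a ≤ (gm n).real (D ∪ ⋃ j ∈ (Finset.univ : Finset (Fin N)), (A ∩ {x | f j x ∈ (Icc (l j) (l j + 2 * c))ᶜ})) :=
      measureReal_mono hsub
    have h2 := measureReal_union_le (μ := gm n) D (⋃ j ∈ (Finset.univ : Finset (Fin N)), (A ∩ {x | f j x ∈ (Icc (l j) (l j + 2 * c))ᶜ}))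
    have h3 := measureReal_biUnion_finset_le (μ := gm n) (Finset.univ : Finset (Fin N)) (fun j => (A ∩ {x | f j x ∈ (Icc (l j) (l j + 2 * c))ᶜ}))
    have h4 : ∑ j : Fin N, (gm n).real (A ∩ {x | f j x ∈ (Icc (l j) (l j + 2 * c))ᶜ}) ≤ ∑ j : Fin N, 2 * (a / (4 * N)) :=
      Finset.sum_le_sum (fun j _ => hl j)
    have h5 : ∑ j : Fin N, 2 * (a / (4 * (N:ℝ))) = a / 2 := by
      rw [Finset.sum_const, Finset.card_univ, Fintype.card_fin, nsmul_eq_mul]
      field_simp
      norm_num
    linarith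
  -- Prekopa-Leindler
  set κ : ℝ := (2 * Real.pi) ^ (-(n:ℝ)/2) with hκ
  have hκ0 : 0 ≤ κ := by positivity
  let ψ : E n → ℝ≥0∞ := fun x => ENNReal.ofReal (κ * Real.exp (-‖x‖^2/2))
  have hψm : Measurable ψ := by
    refine ENNReal.measurable_ofReal.comp ?_
    fun_prop
  have hγ : ∀ S : Set (E n), MeasurableSet S → gm n S = ∫⁻ x, S.indicator ψ x := by
    intro S hS
    rw [gdens n, withDensity_apply _ hS, lintegral_indicator hS]
  have hneg : ∫⁻ y, D.indicator ψ (-y) = ∫⁻ y, D.indicator ψ y := lintegral_neg_eq_self _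
  have hPL := pl n (D.indicator ψ) (fun y => D.indicator ψ (-y)) (Kc.indicator ψ)
    (hψm.indicator hDm) ((hψm.indicator hDm).comp measurable_neg) (hψm.indicator hK.measurableSet) (by
      intro x y
      by_cases hx : x ∈ D
      · by_cases hy : -y ∈ D
        · have hz : (1/2:ℝ) • (x + y) ∈ Kc := by
            intro j
            have h1 := Set.mem_iInter.1 hx.2 j
            have h2 := Set.mem_iInter.1 hy.2 j
            simp only [Set.mem_ofPred_eq, map_neg, Set.mem_Icc] at h1 h2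
            rw [map_smul, map_add, smul_eq_mul, abs_le]
            constructor <;> linarith [h1.1, h1.2, h2.1, h2.2]
          rw [Set.indicator_of_mem hx, Set.indicator_of_mem hy, Set.indicator_of_mem hz]
          show ENNReal.ofReal _ * ENNReal.ofReal _ ≤ (ENNReal.ofReal _) ^ 2
          rw [← ENNReal.ofReal_mul (by positivity), ← ENNReal.ofReal_pow (by positivity)]
          apply ENNReal.ofReal_le_ofReal
          rw [norm_neg]
          have e1 : κ * Real.exp (-‖x‖^2/2) * (κ * Real.exp (-‖y‖^2/2)) = κ^2 * Real.exp (-‖x‖^2/2 + -‖y‖^2/2) := by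
            rw [Real.exp_add]; ring
          have e2 : (κ * Real.exp (-‖(1/2:ℝ) • (x + y)‖^2/2))^2 = κ^2 * Real.exp (-‖(1/2:ℝ) • (x + y)‖^2/2 + -‖(1/2:ℝ) • (x + y)‖^2/2) := by
            rw [Real.exp_add]; ring
          rw [e1, e2]
          apply mul_le_mul_of_nonneg_left _ (by positivity)
          apply Real.exp_le_exp.2
          have e3 : ‖(1/2:ℝ) • (x + y)‖ ≤ (‖x‖ + ‖y‖)/2 := by
            rw [norm_smul]
            have := norm_add_le x y
            have e4 : ‖(1/2:ℝ)‖ = 1/2 := by norm_num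
            rw [e4]; linarith
          have e5 : ‖(1/2:ℝ) • (x + y)‖^2 ≤ ((‖x‖ + ‖y‖)/2)^2 := by
            apply pow_le_pow_left₀ (norm_nonneg _) e3
          nlinarith [sq_nonneg (‖x‖ - ‖y‖)]
        · rw [Set.indicator_of_notMem hy]; simp
      · rw [Set.indicator_of_notMem hx]; simp)
  rw [hneg, ← hγ D hDm, ← hγ Kc hK.measurableSet] at hPL
  have hreal : (gm n).real D * (gm n).real D ≤ ((gm n).real Kc)^2 := by
    have h1 := ENNReal.toReal_mono (by finiteness) hPL
    rw [ENNReal.toReal_mul, ENNReal.toReal_pow] at h1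
    exact h1
  have hKn : 0 ≤ (gm n).real Kc := measureReal_nonneg
  have hDn : 0 ≤ (gm n).real D := measureReal_nonneg
  nlinarith

end Pool.Agent.PZ871.M_twos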