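import Mathlib
import Pool.Agent.PZ871.Defs
import Pool.Agent.PZ871.Mid
import Pool.Agent.PZ871.Twos
set_option autoImplicit false
set_option maxHeartbeats 1000000
namespace Pool.Agent.PZ871.M_step
open Pool.Agent.PZ871.M_mid (mid)
open Pool.Agent.PZ871.M_twos (twos)
open MeasureTheory Set
open scoped RealInnerProductSpace ENNReal







open scoped Pointwise in
theorem nbh_mem (n N : ℕ) (f : Fin N → (E n →L[ℝ] ℝ)) (η : ℝ) (A : Set (E n)) (s z : E n) :
    z ∈ (A + {x : E n | ∀ j, |f j x| ≤ η}) + {s} ↔ ∃ a ∈ A, ∀ j, |f j (z - s - a)| ≤ η := by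
  constructor
  · rintro ⟨y, ⟨a, ha, b, hb, rfl⟩, t, ht, rfl⟩
    rw [Set.mem_singleton_iff] at ht
    subst ht
    refine ⟨a, ha, ?_⟩
    have e : a + b + t - t - a = b := by abel
    simp only at hb ⊢
    intro j
    rw [e]
    exact hb j
  · rintro ⟨a, ha, h⟩
    refine ⟨a + (z - s - a), ⟨a, ha, z - s - a, h, rfl⟩, s, rfl, ?_⟩
    simp only
    abel

theorem box_convex (n N : ℕ) (f : Fin N → (E n →L[ℝ] ℝ)) (η : ℝ) :
    Convex ℝ {x : E n | ∀ j, |f j x| ≤ η} := by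
  intro x hx y hy α β hα hβ hαβ j
  have h1 : |f j x| ≤ η := hx j
  have h2 : |f j y| ≤ η := hy j
  rw [map_add, map_smul, map_smul, smul_eq_mul, smul_eq_mul]
  calc |α * f j x + β * f j y| ≤ |α * f j x| + |β * f j y| := abs_add_le _ _
    _ = α * |f j x| + β * |f j y| := by rw [abs_mul, abs_mul, abs_of_nonneg hα, abs_of_nonneg hβ]
    _ ≤ α * η + β * η := add_le_add (mul_le_mul_of_nonneg_left h1 hα) (mul_le_mul_of_nonneg_left h2 hβ)
    _ = η := by rw [← add_mul, hαβ, one_mul]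

open scoped Pointwise in
theorem exists_nbh (n N : ℕ) (f : Fin N → (E n →L[ℝ] ℝ)) (η : ℝ) (A : Set (E n)) (hA : IsCompact A)
    (hAc : Convex ℝ A) (hBc : IsCompact {x : E n | ∀ j, |f j x| ≤ η}) :
    ∃ D : E n → Set (E n), (∀ s, IsCompact (D s)) ∧ (∀ s, Convex ℝ (D s)) ∧
      ∀ s z, z ∈ D s ↔ ∃ a ∈ A, ∀ j, |f j (z - s - a)| ≤ η :=
  ⟨fun s => (A + {x : E n | ∀ j, |f j x| ≤ η}) + {s},
    fun _ => (hA.add hBc).add isCompact_singleton,
    fun s => (hAc.add (box_convex n N f η)).add (convex_singleton s),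
    fun s z => nbh_mem n N f η A s z⟩

/- TO PROVE -/
theorem step (n N : ℕ) (hN : 1 ≤ N) (f : Fin N → (E n →L[ℝ] ℝ)) (c : ℝ) (hc : 0 < c)
    (η r Q : ℝ) (hη : 0 < η) (hηc : η ≤ c/2) (hr : 2 * Real.log (8 * N) ≤ r^2) (hr0 : 0 ≤ r)
    (hQ : 0 < Q)
    (hcpt : ∀ t : ℝ, IsCompact {x : E n | ∀ j, |f j x| ≤ t})
    (hcov : ∀ S : Finset (E n), (∀ x ∈ S, (∀ j, |f j x| ≤ 2) ∧ ‖x‖ ≤ r) →
      (∀ x ∈ S, ∀ y ∈ S, x ≠ y → ∃ j, η < |f j (x - y)|) → (S.card : ℝ) ≤ Q)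
    (A : Set (E n)) (hA : IsCompact A) (hAc : Convex ℝ A) (hA2 : ∀ x ∈ A, ∀ j, |f j x| ≤ 2)
    (hlt : 2 * (gm n).real {x : E n | ∀ j, |f j x| ≤ c} < (gm n).real A) :
    ∃ (s : E n) (A' : Set (E n)), (∃ j, c/2 ≤ f j s) ∧ IsCompact A' ∧ Convex ℝ A' ∧
      (gm n).real A / (8 * N * Q) ≤ (gm n).real A' ∧
      (∀ z ∈ A', (∃ a ∈ A, ∀ j, |f j (z + s - a)| ≤ η) ∧ (∃ a ∈ A, ∀ j, |f j (z - s - a)| ≤ η)) := by
  classical
  have : IsProbabilityMeasure (gm n) := by unfold gm; infer_instance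
  have hNR : (1:ℝ) ≤ N := by exact_mod_cast hN
  have hN0 : (0:ℝ) < N := by linarith
  obtain ⟨a, ha⟩ : ∃ a, a = (gm n).real A := ⟨_, rfl⟩
  have ha0 : 0 < a := by
    rw [ha]
    exact lt_of_le_of_lt (by positivity) hlt
  obtain ⟨j, τ, hj1, hj2⟩ := twos n N hN f c hc A hA (hcpt c) hlt
  have hC1 : IsCompact (A ∩ {x | τ + 2 * c ≤ f j x}) :=
    hA.inter_right (isClosed_le continuous_const (f j).continuous)
  have hC2 : IsCompact (A ∩ {x | f j x ≤ τ}) :=
    hA.inter_right (isClosed_le (f j).continuous continuous_const)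
  obtain ⟨hMc, hMm⟩ := mid n _ _ A hC1 hC2 hA hAc inter_subset_left inter_subset_left r hr0
  obtain ⟨M, hM⟩ : ∃ M, M = {z : E n | ∃ x, ‖x‖ ≤ r ∧ z + x ∈ A ∩ {x | τ + 2 * c ≤ f j x} ∧
    z - x ∈ A ∩ {x | f j x ≤ τ}} := ⟨_, rfl⟩
  rw [← hM] at hMm
  rw [← ha] at hj1 hj2 hMm
  have hexp : Real.exp (-r^2/2) ≤ (8 * (N:ℝ))⁻¹ := by
    rw [← Real.exp_log (show (0:ℝ) < 8 * N by positivity), ← Real.exp_neg]
    apply Real.exp_le_exp.2
    linarith
  have hMa : a / (8 * N) ≤ (gm n).real M := by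
    have h1 : (a / (4 * N))^2 ≤ ((gm n).real M + Real.exp (-r^2/2) * a)^2 := by
      refine le_trans ?_ hMm
      rw [pow_two]
      exact mul_le_mul hj2 hj1 (by positivity) (by positivity)
    have h2 : a / (4 * N) ≤ (gm n).real M + Real.exp (-r^2/2) * a :=
      (sq_le_sq₀ (by positivity) (by positivity)).1 h1
    have h3 : Real.exp (-r^2/2) * a ≤ (8 * (N:ℝ))⁻¹ * a := mul_le_mul_of_nonneg_right hexp ha0.le
    have h4 : a / (4 * N) = a / (8 * N) + (8 * (N:ℝ))⁻¹ * a := by field_simp; norm_num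
    linarith
  -- the maximal separated set
  let good : Finset (E n) → Prop := fun S =>
    (∀ x ∈ S, (∀ l, |f l x| ≤ 2) ∧ ‖x‖ ≤ r ∧ c ≤ f j x) ∧
      (∀ x ∈ S, ∀ y ∈ S, x ≠ y → ∃ l, η < |f l (x - y)|)
  have hgoodQ : ∀ S, good S → (S.card : ℝ) ≤ Q := fun S hS =>
    hcov S (fun x hx => ⟨(hS.1 x hx).1, (hS.1 x hx).2.1⟩) hS.2
  let T : Set ℕ := {k | ∃ S : Finset (E n), good S ∧ S.card = k}
  have hTne : T.Nonempty := ⟨0, ∅, ⟨by simp, by simp⟩, rfl⟩
  have hTb : BddAbove T := by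
    refine ⟨⌊Q⌋₊, ?_⟩
    rintro k ⟨S, hS, rfl⟩
    exact Nat.le_floor (hgoodQ S hS)
  obtain ⟨S, hS, hSc⟩ := Nat.sSup_mem hTne hTb
  have hmax : ∀ S', good S' → S'.card ≤ S.card := by
    intro S' hS'
    rw [hSc]
    exact le_csSup hTb ⟨S', hS', rfl⟩
  have hcover : ∀ x : E n, (∀ l, |f l x| ≤ 2) → ‖x‖ ≤ r → c ≤ f j x →
      ∃ s ∈ S, ∀ l, |f l (x - s)| ≤ η := by
    intro x hx1 hx2 hx3
    by_contra hcon
    push Not at hcon
    have hxS : x ∉ S := by
      intro hx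
      obtain ⟨l, hl⟩ := hcon x hx
      rw [sub_self, map_zero, abs_zero] at hl
      linarith
    have hgood : good (insert x S) := by
      refine ⟨?_, ?_⟩
      · intro y hy
        rcases Finset.mem_insert.1 hy with rfl | hy
        · exact ⟨hx1, hx2, hx3⟩
        · exact hS.1 y hy
      · intro y hy z hz hyz
        rcases Finset.mem_insert.1 hy with hy | hy
        · rcases Finset.mem_insert.1 hz with hz | hz
          · exact absurd (hy.trans hz.symm) hyz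
          · rw [hy]; exact hcon z hz
        · rcases Finset.mem_insert.1 hz with hz | hz
          · rw [hz]
            obtain ⟨l, hl⟩ := hcon y hy
            refine ⟨l, ?_⟩
            rw [← neg_sub, map_neg, abs_neg]
            exact hl
          · exact hS.2 y hy z hz hyz
    have := hmax _ hgood
    rw [Finset.card_insert_of_notMem hxS] at this
    omega
  -- the sets A'_s
  obtain ⟨D, hDc, hDx, hDm⟩ := exists_nbh n N f η A hA hAc (hcpt η)
  have hsub : M ⊆ ⋃ s ∈ S, (D (-s) ∩ D s) := by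
    intro z hz
    rw [hM] at hz
    obtain ⟨x, hxr, ⟨h1A, h1⟩, ⟨h2A, h2⟩⟩ := hz
    have h1' : τ + 2 * c ≤ f j (z + x) := h1
    have h2' : f j (z - x) ≤ τ := h2
    have hfx : ∀ l, f l x = (f l (z + x) - f l (z - x)) / 2 := by
      intro l
      rw [map_add, map_sub]; ring
    have hx1 : ∀ l, |f l x| ≤ 2 := by
      intro l
      have a1 := abs_le.1 (hA2 _ h1A l)
      have a2 := abs_le.1 (hA2 _ h2A l)
      rw [hfx l, abs_le]
      constructor <;> linarith [a1.1, a1.2, a2.1, a2.2]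
    have hx3 : c ≤ f j x := by rw [hfx j]; linarith
    obtain ⟨s, hs, hs'⟩ := hcover x hx1 hxr hx3
    refine Set.mem_iUnion₂.2 ⟨s, hs, (hDm _ _).2 ⟨z + x, h1A, ?_⟩, (hDm _ _).2 ⟨z - x, h2A, ?_⟩⟩
    · intro l
      have e : z - -s - (z + x) = -(x - s) := by abel
      rw [e, map_neg, abs_neg]
      exact hs' l
    · intro l
      have e : z - s - (z - x) = x - s := by abel
      rw [e]
      exact hs' l
  have hsum : (gm n).real M ≤ ∑ s ∈ S, (gm n).real (D (-s) ∩ D s) := by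
    refine (measureReal_mono hsub (measure_ne_top _ _)).trans ?_
    exact measureReal_biUnion_finset_le S _
  have hex : ∃ s ∈ S, a / (8 * N * Q) ≤ (gm n).real (D (-s) ∩ D s) := by
    by_contra hcon
    push Not at hcon
    have hMpos : 0 < (gm n).real M := lt_of_lt_of_le (by positivity) hMa
    have hSne : S.Nonempty := by
      rw [Finset.nonempty_iff_ne_empty]
      intro hSe
      rw [hSe, Finset.sum_empty] at hsum
      linarith
    have h1 : ∑ s ∈ S, (gm n).real (D (-s) ∩ D s) < ∑ s ∈ S, a / (8 * N * Q) :=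
      Finset.sum_lt_sum_of_nonempty hSne hcon
    rw [Finset.sum_const, nsmul_eq_mul] at h1
    have h2 : (S.card : ℝ) * (a / (8 * N * Q)) ≤ Q * (a / (8 * N * Q)) :=
      mul_le_mul_of_nonneg_right (hgoodQ S hS) (by positivity)
    have h3 : Q * (a / (8 * N * Q)) = a / (8 * N) := by field_simp
    linarith
  obtain ⟨s, hs, hsa⟩ := hex
  refine ⟨s, D (-s) ∩ D s, ⟨j, ?_⟩, (hDc _).inter (hDc _), (hDx _).inter (hDx _), ?_, ?_⟩
  · have := (hS.1 s hs).2.2
    linarith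
  · rw [← ha]; exact hsa
  · rintro z ⟨hz1, hz2⟩
    obtain ⟨b, hb, hb'⟩ := (hDm _ _).1 hz1
    refine ⟨⟨b, hb, ?_⟩, (hDm _ _).1 hz2⟩
    intro l
    have := hb' l
    rw [sub_neg_eq_add] at this
    exact this

end Pool.Agent.PZ871.M_step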