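import Mathlib
import Pool.Agent.PZ871.Defs
import Pool.Agent.PZ871.Step
set_option autoImplicit false
set_option maxHeartbeats 1000000
namespace Pool.Agent.PZ871.M_iter
open Pool.Agent.PZ871.M_step (step)
open MeasureTheory Set
open scoped RealInnerProductSpace ENNReal





theorem iter_conv (n N : ℕ) (f : Fin N → (E n →L[ℝ] ℝ)) (t : ℝ) :
    Convex ℝ {x : E n | ∀ j, |f j x| ≤ t} := by
  intro x hx y hy a b ha hb hab j
  have h1 := hx j
  have h2 := hy j
  rw [map_add, map_smul, map_smul, smul_eq_mul, smul_eq_mul]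
  calc |a * f j x + b * f j y| ≤ |a * f j x| + |b * f j y| := abs_add_le _ _
    _ = a * |f j x| + b * |f j y| := by rw [abs_mul, abs_mul, abs_of_nonneg ha, abs_of_nonneg hb]
    _ ≤ a * t + b * t := by gcongr
    _ = t := by rw [← add_mul, hab, one_mul]

/- TO PROVE -/
theorem iter (n N k : ℕ) (hN : 1 ≤ N) (hk : 1 ≤ k) (f : Fin N → (E n →L[ℝ] ℝ)) (c : ℝ) (hc : 0 < c)
    (η r Q G : ℝ) (hη : 0 < η) (hηc : η ≤ c/2) (hηk : k * η ≤ 1)
    (hr : 2 * Real.log (8 * N) ≤ r^2) (hr0 : 0 ≤ r) (hQ : 1 ≤ Q)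
    (hcpt : ∀ t : ℝ, IsCompact {x : E n | ∀ j, |f j x| ≤ t})
    (hcov : ∀ S : Finset (E n), (∀ x ∈ S, (∀ j, |f j x| ≤ 2) ∧ ‖x‖ ≤ r) →
      (∀ x ∈ S, ∀ y ∈ S, x ≠ y → ∃ j, η < |f j (x - y)|) → (S.card : ℝ) ≤ Q)
    (hG : G ≤ (gm n).real {x : E n | ∀ j, |f j x| ≤ 1}) (hG0 : 0 < G)
    (hsm : 2 * (gm n).real {x : E n | ∀ j, |f j x| ≤ c} < G / (8 * N * Q)^k) :
    ∃ s : Fin k → E n, (∀ i, ∃ j, c/2 ≤ f j (s i)) ∧
      ∀ ε : Fin k → ℝ, (∀ i, ε i = 1 ∨ ε i = -1) → ∀ j, |f j (∑ i, ε i • s i)| ≤ 2 := by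
  have hNr : (1:ℝ) ≤ N := by exact_mod_cast hN
  have hNQ : (1:ℝ) ≤ 8 * N * Q := by nlinarith
  have hNQ0 : (0:ℝ) < 8 * N * Q := by linarith
  have avg : ∀ (i : ℕ) (s : Fin i → E n) (A : Set (E n)) (T : ℝ),
      (∀ z ∈ A, ∀ ε : Fin i → ℝ, (∀ l, ε l = 1 ∨ ε l = -1) → ∀ j,
        |f j (z + ∑ l, ε l • s l)| ≤ T) →
      ∀ z ∈ A, ∀ ε : Fin i → ℝ, (∀ l, ε l = 1 ∨ ε l = -1) → ∀ j,
        |f j z| ≤ T ∧ |f j (∑ l, ε l • s l)| ≤ T := by
    intro i s A T h z hz ε hε j
    have h1 := h z hz ε hε j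
    have h2 := h z hz (fun l => - ε l) (fun l => by
      rcases hε l with h | h
      · right; rw [h]
      · left; rw [h]; ring) j
    have e2 : ∑ l, (fun l => - ε l) l • s l = - ∑ l, ε l • s l := by
      rw [← Finset.sum_neg_distrib]
      exact Finset.sum_congr rfl fun l _ => by simp
    rw [e2] at h2
    rw [map_add] at h1 h2
    rw [map_neg] at h2
    rw [abs_le] at h1 h2
    constructor
    · rw [abs_le]; constructor <;> linarith
    · rw [abs_le]; constructor <;> linarith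
  have main : ∀ i : ℕ, i ≤ k → ∃ (s : Fin i → E n) (A : Set (E n)), IsCompact A ∧ Convex ℝ A ∧
      G / (8 * N * Q)^i ≤ (gm n).real A ∧ (∀ l, ∃ j, c/2 ≤ f j (s l)) ∧
      (∀ z ∈ A, ∀ ε : Fin i → ℝ, (∀ l, ε l = 1 ∨ ε l = -1) → ∀ j,
        |f j (z + ∑ l, ε l • s l)| ≤ 1 + i * η) := by
    intro i
    induction i with
    | zero =>
      intro _
      refine ⟨fun l => 0, {x : E n | ∀ j, |f j x| ≤ 1}, hcpt 1, iter_conv n N f 1, ?_, ?_, ?_⟩
      · simpa using hG
      · intro l; exact l.elim0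
      · intro z hz ε _ j
        simpa using hz j
    | succ i ih =>
      intro hi
      obtain ⟨s, A, hA, hAc, hAm, hs, hAs⟩ := ih (by omega)
      have hiη : (i:ℝ) * η ≤ 1 := by
        have : (i:ℝ) ≤ k := by exact_mod_cast (by omega : i ≤ k)
        nlinarith
      have hA2 : ∀ x ∈ A, ∀ j, |f j x| ≤ 2 := by
        intro x hx j
        have := (avg i s A _ hAs x hx (fun _ => 1) (fun _ => Or.inl rfl) j).1
        linarith
      have hlt : 2 * (gm n).real {x : E n | ∀ j, |f j x| ≤ c} < (gm n).real A := by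
        refine lt_of_lt_of_le (lt_of_lt_of_le hsm ?_) hAm
        apply div_le_div_of_nonneg_left hG0.le (by positivity)
        exact pow_le_pow_right₀ hNQ (by omega)
      obtain ⟨s', A', hs', hA', hA'c, hA'm, hA'z⟩ := step n N hN f c hc η r Q hη hηc hr hr0
        (by linarith) hcpt hcov A hA hAc hA2 hlt
      refine ⟨Fin.snoc (α := fun _ => E n) s s', A', hA', hA'c, ?_, ?_, ?_⟩
      · refine le_trans ?_ hA'm
        rw [pow_succ, ← div_div]
        gcongr
      · intro l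
        refine Fin.lastCases ?_ (fun l => ?_) l
        · rw [Fin.snoc_last]; exact hs'
        · rw [Fin.snoc_castSucc]; exact hs l
      · intro z hz ε hε j
        rw [Fin.sum_univ_castSucc]
        simp only [Fin.snoc_castSucc, Fin.snoc_last]
        obtain ⟨⟨a, ha, ha'⟩, ⟨a2, ha2, ha2'⟩⟩ := hA'z z hz
        push_cast
        rcases hε (Fin.last i) with h | h
        · have h1 := hAs a ha (fun l => ε l.castSucc) (fun l => hε _) j
          have h2 := ha' j
          rw [h, one_smul]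
          have e : z + (∑ l, ε (Fin.castSucc l) • s l + s') =
              (a + ∑ l, ε (Fin.castSucc l) • s l) + (z + s' - a) := by abel
          rw [e, map_add]
          rw [abs_le] at h1 h2 ⊢
          constructor <;> linarith
        · have h1 := hAs a2 ha2 (fun l => ε l.castSucc) (fun l => hε _) j
          have h2 := ha2' j
          rw [h, neg_one_smul]
          have e : z + (∑ l, ε (Fin.castSucc l) • s l + -s') =
              (a2 + ∑ l, ε (Fin.castSucc l) • s l) + (z - s' - a2) := by abel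
          rw [e, map_add]
          rw [abs_le] at h1 h2 ⊢
          constructor <;> linarith
  obtain ⟨s, A, _, _, hAm, hs, hAs⟩ := main k le_rfl
  refine ⟨s, hs, ?_⟩
  intro ε hε j
  have hne : A.Nonempty := by
    rw [Set.nonempty_iff_ne_empty]
    rintro rfl
    rw [measureReal_empty] at hAm
    have : 0 < G / (8 * N * Q)^k := by positivity
    linarith
  obtain ⟨z, hz⟩ := hne
  have := (avg k s A _ hAs z hz ε hε j).2
  linarith

end Pool.Agent.PZ871.M_iter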